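import Pool.Agent.ZF.Balls

/-!
# P1: the partition functions of the nested loops have no zeros near the positive axis.
-/

set_option autoImplicit false

namespace Pool.Agent.ZF

open Finset HexObs HexObs.LP Pool.Agent.NUN
open scoped Classical

/-- (E1): the weight of the polygons around the face `f` of outer scale `2 ^ L` that meet the box of size
`2 ^ b` around `f`. -/
def OutC (b0 : ℕ) (C r : ℝ) : Prop :=
  ∀ (f : Pt), Fc f → ∀ b L : ℕ, b0 ≤ b → b ≤ L + 1 → ∀ 𝓔 : Finset (Finset (Pt × Pt)),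
    (∀ E ∈ 𝓔, IsPoly E ∧ Nw E f ≠ 0 ∧ (∀ v ∈ VE E, Bx f (2 ^ (L + 1)) v) ∧
      (∃ v ∈ VE E, ¬ Bx f (2 ^ L) v) ∧ ∃ v ∈ VE E, Bx f (2 ^ b) v) →
    ∑ E ∈ 𝓔, xc ^ E.card ≤ C * r ^ (L + 1 - b)

/-- (E1) for the balls -/
def CrossC (s0 R : ℕ) (C0 : ℝ) : Prop :=
  ∀ (f : Pt), Fc f → ∀ (i : ℕ) (𝓔 : Finset (Finset (Pt × Pt))),
    (∀ E ∈ 𝓔, IsPoly E ∧ Nw E f ≠ 0 ∧ (∃ v ∈ VE E, v ∉ Ball f (rad s0 R i)) ∧
      ∃ v ∈ VE E, v ∈ Ball f (rad s0 R (i + 1))) →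
    ∑ E ∈ 𝓔, xc ^ E.card ≤ C0

theorem Bx_mono {z v : Pt} {s s' : ℕ} (h : s ≤ s') (hv : Bx z s v) : Bx z s' v := by
  have h1 : (s : ℤ) ≤ s' := by exact_mod_cast h
  exact ⟨hv.1.trans h1, hv.2.trans h1⟩

theorem xc_le_one' : xc ≤ 1 := by
  have h := xc_sq
  have h2 : xc ^ 2 ≤ 1 := by
    rw [h, div_le_one (by positivity)]
    have := Real.sqrt_nonneg 2
    linarith
  nlinarith [xc_pos]

/-- finitely many polygons in a box -/
theorem small_sum (f : Pt) (s : ℕ) (𝓔 : Finset (Finset (Pt × Pt)))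
    (h : ∀ E ∈ 𝓔, IsPoly E ∧ ∀ v ∈ VE E, Bx f s v) :
    ∑ E ∈ 𝓔, xc ^ E.card ≤ 2 ^ ((2 * s + 1) ^ 2 * dirs.card) := by
  set Q : Finset Pt := (Finset.Icc (f.1 - (s : ℤ)) (f.1 + s)) ×ˢ (Finset.Icc (f.2 - (s : ℤ)) (f.2 + s))
    with hQ
  have hQc : Q.card = (2 * s + 1) ^ 2 := by
    rw [hQ, Finset.card_product, Int.card_Icc, Int.card_Icc, sq]
    congr 1 <;> omega
  have hsub : 𝓔 ⊆ (Q ×ˢ dirs).powerset := by
    intro E hE
    rw [Finset.mem_powerset]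
    intro p hp
    obtain ⟨h1, h2⟩ := h E hE
    rw [Finset.mem_product]
    refine ⟨?_, (isPoly_de h1 hp).1⟩
    have h3 := h2 p.1 (Finset.mem_image_of_mem _ hp)
    unfold Bx at h3
    simp only [Prod.fst_sub, Prod.snd_sub, abs_le] at h3
    rw [hQ, Finset.mem_product, Finset.mem_Icc, Finset.mem_Icc]
    refine ⟨⟨?_, ?_⟩, ?_, ?_⟩ <;> omega
  have h1 : ∑ E ∈ 𝓔, xc ^ E.card ≤ ∑ E ∈ 𝓔, (1 : ℝ) :=
    Finset.sum_le_sum fun E _ => pow_le_one₀ xc_pos.le xc_le_one'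
  refine h1.trans ?_
  rw [Finset.sum_const, nsmul_eq_mul, mul_one]
  have h2 := Finset.card_le_card hsub
  rw [Finset.card_powerset, Finset.card_product, hQc] at h2
  exact_mod_cast h2

/-- the outer scale of a polygon -/
noncomputable def lam (f : Pt) (E : Finset (Pt × Pt)) : ℕ := sInf {n | ∀ v ∈ VE E, Bx f (2 ^ n) v}

theorem lam_mem (f : Pt) (E : Finset (Pt × Pt)) : ∀ v ∈ VE E, Bx f (2 ^ lam f E) v := by
  have hne : {n | ∀ v ∈ VE E, Bx f (2 ^ n) v}.Nonempty := by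
    refine ⟨(VE E).sup (fun v => (v - f).1.natAbs + (v - f).2.natAbs), ?_⟩
    intro v hv
    have h1 := Finset.le_sup (f := fun v : Pt => (v - f).1.natAbs + (v - f).2.natAbs) hv
    set n := (VE E).sup (fun v : Pt => (v - f).1.natAbs + (v - f).2.natAbs) with hn
    have h2 : n < 2 ^ n := Nat.lt_two_pow_self
    have h3 : Bx f n v := by
      unfold Bx
      rw [Int.abs_eq_natAbs, Int.abs_eq_natAbs]
      constructor <;> omega
    exact Bx_mono h2.le h3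
  exact Nat.sInf_mem hne

theorem lam_not {f : Pt} {E : Finset (Pt × Pt)} {L : ℕ} (h : L < lam f E) : ∃ v ∈ VE E, ¬ Bx f (2 ^ L) v := by
  by_contra hcon
  push Not at hcon
  exact Nat.notMem_of_lt_sInf h hcon

theorem geom_sub {r : ℝ} (hr0 : 0 ≤ r) (hr1 : r < 1) (N M : ℕ) :
    ∑ k ∈ range M, r ^ (k - N) ≤ N + 1 / (1 - r) := by
  induction N with
  | zero =>
    have h1 : ∑ k ∈ range M, r ^ k ≤ ∑' k, r ^ k :=
      Summable.sum_le_tsum _ (fun k _ => pow_nonneg hr0 k) (summable_geometric_of_lt_one hr0 hr1)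
    rw [tsum_geometric_of_lt_one hr0 hr1] at h1
    simpa using h1
  | succ N ih =>
    have key : ∑ k ∈ range M, r ^ (k - (N + 1)) ≤ 1 + ∑ k ∈ range M, r ^ (k - N) := by
      cases M with
      | zero => simp
      | succ M =>
        rw [Finset.sum_range_succ', Finset.sum_range_succ]
        have e1 : ∑ k ∈ range M, r ^ (k + 1 - (N + 1)) = ∑ k ∈ range M, r ^ (k - N) := by
          apply Finset.sum_congr rfl
          intro k _
          congr 1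
          omega
        rw [e1, Nat.zero_sub, pow_zero]
        have := pow_nonneg hr0 (M - N)
        linarith
    push_cast
    linarith

theorem CrossC_of_OutC {b0 : ℕ} {C r : ℝ} (hC : 0 ≤ C) (hr0 : 0 ≤ r) (hr1 : r < 1) (h : OutC b0 C r)
    (s0 R : ℕ) : ∃ C0, 0 ≤ C0 ∧ CrossC s0 R C0 := by
  set N : ℕ := Nat.clog 2 (3 * R) + Nat.clog 2 (3 * s0) with hN
  refine ⟨2 ^ ((2 * 2 ^ b0 + 1) ^ 2 * dirs.card) + C * (N + 1 / (1 - r)), ?_, ?_⟩
  · have : 0 < 1 - r := by linarith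
    positivity
  intro f hf i 𝓔 h𝓔
  set Bq : ℕ := Nat.clog 2 (3 * rad s0 R (i + 1)) with hBq
  have hB1 : 3 * rad s0 R (i + 1) ≤ 2 ^ Bq := Nat.le_pow_clog (by norm_num) _
  set b : ℕ := max Bq b0 with hb
  have hB2 : 3 * rad s0 R (i + 1) ≤ 2 ^ b := hB1.trans (Nat.pow_le_pow_right (by norm_num) (le_max_left _ _))
  -- the outer scale is at least the scale of the ball
  have hscale : ∀ E ∈ 𝓔, Bq ≤ lam f E + N := by
    intro E hE
    obtain ⟨p1, p2, ⟨v, hv, hvB⟩, -⟩ := h𝓔 E hE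
    have h1 : rad s0 R i ≤ 2 ^ lam f E := by
      by_contra hcon
      push Not at hcon
      exact hvB (Bx_sub_Ball hf hcon (vt_of_VE p1 hv) (lam_mem f E v hv))
    cases i with
    | zero =>
      have : Bq = Nat.clog 2 (3 * s0) := by
        rw [hBq]
        show Nat.clog 2 (3 * (s0 * R ^ 0)) = _
        rw [pow_zero, mul_one]
      omega
    | succ i =>
      have h2 : 3 * rad s0 R (i + 1 + 1) = 3 * R * rad s0 R (i + 1) := by
        show 3 * (s0 * R ^ (i + 1)) = 3 * R * (s0 * R ^ i)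
        rw [pow_succ]
        ring
      have h3 : 3 * R ≤ 2 ^ Nat.clog 2 (3 * R) := Nat.le_pow_clog (by norm_num) _
      have h4 : 3 * rad s0 R (i + 1 + 1) ≤ 2 ^ (Nat.clog 2 (3 * R) + lam f E) := by
        rw [h2, pow_add]
        exact Nat.mul_le_mul h3 h1
      have h5 : Bq ≤ Nat.clog 2 (3 * R) + lam f E := by
        rw [hBq]
        exact Nat.clog_le_of_le_pow h4
      omega
  -- the small ones
  have hsmall : ∑ E ∈ 𝓔.filter (fun E => lam f E ≤ b0), xc ^ E.card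
      ≤ 2 ^ ((2 * 2 ^ b0 + 1) ^ 2 * dirs.card) := by
    apply small_sum f (2 ^ b0)
    intro E hE
    rw [Finset.mem_filter] at hE
    exact ⟨(h𝓔 E hE.1).1, fun v hv => Bx_mono (Nat.pow_le_pow_right (by norm_num) hE.2) (lam_mem f E v hv)⟩
  have hlarge : ∑ E ∈ 𝓔.filter (fun E => ¬ lam f E ≤ b0), xc ^ E.card ≤ C * (N + 1 / (1 - r)) := by
    set 𝓕 := 𝓔.filter (fun E => ¬ lam f E ≤ b0) with h𝓕
    have hge : ∀ E ∈ 𝓕, b ≤ lam f E + N := by
      intro E hE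
      rw [h𝓕, Finset.mem_filter] at hE
      have := hscale E hE.1
      omega
    obtain ⟨M, hM⟩ : ∃ M : ℕ, ∀ E ∈ 𝓕, lam f E + N - b < M := by
      refine ⟨𝓕.sup (fun E => lam f E + N - b) + 1, fun E hE => ?_⟩
      have := Finset.le_sup (f := fun E => lam f E + N - b) hE
      omega
    rw [← Finset.sum_fiberwise_of_maps_to (t := range M) (g := fun E => lam f E + N - b)
      (fun E hE => Finset.mem_range.2 (hM E hE))]
    have hfib : ∀ k ∈ range M, ∑ E ∈ 𝓕.filter (fun E => lam f E + N - b = k), xc ^ E.card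
        ≤ C * r ^ (k - N) := by
      intro k _
      by_cases hne : (𝓕.filter (fun E => lam f E + N - b = k)).Nonempty
      · obtain ⟨E0, hE0⟩ := hne
        rw [Finset.mem_filter] at hE0
        have hE0' := hE0.1
        rw [h𝓕, Finset.mem_filter] at hE0'
        have hg0 := hge E0 hE0.1
        obtain ⟨L, hL⟩ : ∃ L, lam f E0 = L + 1 := ⟨lam f E0 - 1, by omega⟩
        have hlam : ∀ E ∈ 𝓕.filter (fun E => lam f E + N - b = k), lam f E = L + 1 := by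
          intro E hE
          rw [Finset.mem_filter] at hE
          have := hge E hE.1
          omega
        have hcase : ∑ E ∈ 𝓕.filter (fun E => lam f E + N - b = k), xc ^ E.card
            ≤ C * r ^ (L + 1 - min b (L + 1)) := by
          apply h f hf (min b (L + 1)) L (by omega) (by omega)
          intro E hE
          have hl := hlam E hE
          rw [Finset.mem_filter, h𝓕, Finset.mem_filter] at hE
          obtain ⟨p1, p2, _, v, hv, hvB⟩ := h𝓔 E hE.1.1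
          refine ⟨p1, p2, ?_, lam_not (by omega), v, hv, ?_⟩
          · intro w hw
            have := lam_mem f E w hw
            rwa [hl] at this
          · rcases le_total b (L + 1) with hle | hle
            · rw [min_eq_left hle]
              exact Bx_mono hB2 (Ball_sub_Bx hf hvB)
            · rw [min_eq_right hle]
              have := lam_mem f E v hv
              rwa [hl] at this
        have e : L + 1 - min b (L + 1) = k - N := by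
          omega
        rwa [e] at hcase
      · rw [Finset.not_nonempty_iff_eq_empty] at hne
        rw [hne, Finset.sum_empty]
        positivity
    refine (Finset.sum_le_sum hfib).trans ?_
    rw [← Finset.mul_sum]
    exact mul_le_mul_of_nonneg_left (geom_sub hr0 hr1 N M) hC
  rw [← Finset.sum_filter_add_sum_filter_not 𝓔 (fun E => lam f E ≤ b0)]
  linarith

theorem mem_cross {P : Type*} [PartialOrder P] {B : ℕ → Finset P} {J i : ℕ} {l : P} :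
    l ∈ cross B J i ↔ l ∈ B J ∧ l ∉ B i ∧ ¬ ∀ b ∈ B (i + 1), b < l := by
  simp only [cross, mem_filter]

/-- the weight -/
noncomputable def wP (E : Pg) : ℝ := xc ^ (Finset.card (α := Pt × Pt) E)

/-- the balls as levels -/
noncomputable def BB (f : Pt) (s0 R : ℕ) (i : ℕ) : Finset Pg := pg f (Ball f (rad s0 R i))

theorem wP_nonneg (E : Pg) : 0 ≤ wP E := pow_nonneg xc_pos.le _

theorem sum_wP (𝓔 : Finset (Finset (Pt × Pt))) (𝓕 : Finset Pg) (h : 𝓔 = 𝓕) :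
    ∑ E ∈ 𝓕, wP E = ∑ E ∈ 𝓔, xc ^ E.card := by
  subst h
  rfl

theorem BB_cross {s0 R : ℕ} {C0 : ℝ} (h : CrossC s0 R C0) {f : Pt} (hf : Fc f) (J i : ℕ) :
    ∑ l ∈ cross (BB f s0 R) J i, wP l ≤ C0 := by
  obtain ⟨𝓔, h𝓔⟩ : ∃ 𝓔 : Finset (Finset (Pt × Pt)), 𝓔 = cross (BB f s0 R) J i := ⟨_, rfl⟩
  rw [sum_wP 𝓔 _ h𝓔]
  apply h f hf i
  have hcr : ∀ E : Pg, E ∈ cross (BB f s0 R) J i → IsPoly E ∧ Nw E f ≠ 0 ∧
      (∃ v ∈ VE E, v ∉ Ball f (rad s0 R i)) ∧ ∃ v ∈ VE E, v ∈ Ball f (rad s0 R (i + 1)) := by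
    intro E hE
    obtain ⟨h1, h2, h3⟩ := mem_cross.1 hE
    have h1' := mem_pg.1 h1
    refine ⟨h1'.1, h1'.2.2, ?_, cross_meet hf h1'.1 h1'.2.2 h3⟩
    by_contra hcon
    push Not at hcon
    exact h2 (mem_pg.2 ⟨h1'.1, hcon, h1'.2.2⟩)
  intro E hE
  rw [h𝓔] at hE
  exact hcr E hE

/-- the levels around a face -/
theorem lev_hex {s0 R : ℕ} {c C0 : ℝ} (hR : 1 ≤ R)
    (hring : ∀ (f : Pt), Fc f → ∀ i : ℕ, c ≤ ∑ E ∈ shell (BB f s0 R) i, wP E)
    (hC0 : 0 ≤ C0) (h : CrossC s0 R C0) {f : Pt} (hf : Fc f) (J : ℕ) :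
    Lev (P := Pg) J (BB f s0 R) wP C0 c := by
  constructor
  · exact hC0
  · exact wP_nonneg
  · show pg f (Ball f (rad s0 R 0)) = ∅
    rw [show rad s0 R 0 = 0 from rfl, Ball_zero hf, pg_empty]
  · exact fun i _ => pg_mono (Ball_mono hf (rad_mono hR i))
  · intro i _ l hl l' hl' hlt
    exact pg_low (full_Ball hf _) hl (mem_pg.1 hl').2.2 hlt
  · intro i _
    exact BB_cross h hf J i
  · exact fun i _ => hring f hf i

/-- P1 for the nested loops, from (E1) for the balls -/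
theorem P1_cross (h : ∀ s0 R : ℕ, ∃ C0, 0 ≤ C0 ∧ CrossC s0 R C0) {a X : ℝ} (ha : 0 < a) (haX : a ≤ X) :
    ∃ (t A : ℝ) (s0 R : ℕ), 0 < t ∧ 0 < A ∧ 1 ≤ s0 ∧ 2 ≤ R ∧ ∀ (f : Pt), Fc f → ∀ (J : ℕ) (Ω : Finset Pt), Full Ω →
      Ω ⊆ Ball f (s0 * R ^ J) → ∀ x : ℝ, a ≤ x → x ≤ X → ∀ z : ℂ, ‖z - x‖ ≤ t →
      NF (xc : ℂ) z f Ω ≠ 0 ∧ ‖NF (xc : ℂ) z f Ω‖ ≤ Real.exp (A * (J + 1)) ∧
      Real.exp (-(A * (J + 1))) ≤ ‖NF (xc : ℂ) z f Ω‖ := by
  obtain ⟨s0, R, c, hs0, hR, hc, hring'⟩ := ring_Ball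
  have hring : ∀ (f : Pt), Fc f → ∀ i : ℕ, c ≤ ∑ E ∈ shell (BB f s0 R) i, wP E := fun f hf i => hring' f hf i
  obtain ⟨C0, hC0, hcr⟩ := h s0 R
  obtain ⟨t, ht, hzf⟩ := zero_free a X C0 c ha haX hC0 hc
  have hX : 0 < X := ha.trans_le haX
  have hXC : 0 ≤ X * C0 := by positivity
  refine ⟨t, 2 * (X * C0 + 1), s0, R, ht, by linarith, hs0, hR, ?_⟩
  intro f hf J Ω hΩ hsub x hax hxX z hz
  have L := lev_hex (by omega) hring hC0 hcr hf (J + 1)
  have hlow : Low (BB f s0 R) (J + 1) (pg f Ω) := by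
    refine ⟨pg_mono hsub, ?_⟩
    intro l hl l' hl' hlt
    exact pg_low hΩ hl (mem_pg.1 hl').2.2 hlt
  obtain ⟨k1, k2, k3⟩ := hzf Pg (J + 1) _ _ L x hax hxX z hz (pg f Ω) hlow
  have e : Zf (fun l : Pg => z * (wP l : ℂ)) (pg f Ω) = NF (xc : ℂ) z f Ω := by
    rw [NF_eq_Zf]
    congr 1
    funext l
    unfold wP
    push_cast
    rfl
  rw [e] at k1 k2 k3
  have hJ : (0 : ℝ) ≤ J := Nat.cast_nonneg _
  refine ⟨k1, k2.trans (Real.exp_le_exp.2 ?_), le_trans (Real.exp_le_exp.2 ?_) k3⟩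
  · push_cast
    nlinarith
  · push_cast
    nlinarith

/-- P1 for the nested loops, from (E1) -/
theorem P1_hex {b0 : ℕ} {C r : ℝ} (hC : 0 ≤ C) (hr0 : 0 ≤ r) (hr1 : r < 1) (h : OutC b0 C r)
    {a X : ℝ} (ha : 0 < a) (haX : a ≤ X) :
    ∃ (t A : ℝ) (s0 R : ℕ), 0 < t ∧ 0 < A ∧ 1 ≤ s0 ∧ 2 ≤ R ∧ ∀ (f : Pt), Fc f → ∀ (J : ℕ) (Ω : Finset Pt), Full Ω →
      Ω ⊆ Ball f (s0 * R ^ J) → ∀ x : ℝ, a ≤ x → x ≤ X → ∀ z : ℂ, ‖z - x‖ ≤ t →
      NF (xc : ℂ) z f Ω ≠ 0 ∧ ‖NF (xc : ℂ) z f Ω‖ ≤ Real.exp (A * (J + 1)) ∧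
      Real.exp (-(A * (J + 1))) ≤ ‖NF (xc : ℂ) z f Ω‖ :=
  P1_cross (fun s0 R => CrossC_of_OutC hC hr0 hr1 h s0 R) ha haX

/-- (E1) between two boxes whose scales differ by `a` -/
def TwoC : Prop :=
  ∀ a : ℕ, ∃ C : ℝ, ∀ (f : Pt), Fc f → ∀ (j : ℕ) (𝓔 : Finset (Finset (Pt × Pt))),
    (∀ E ∈ 𝓔, IsPoly E ∧ Nw E f ≠ 0 ∧ (∃ v ∈ VE E, ¬ Bx f (2 ^ j) v) ∧
      ∃ v ∈ VE E, Bx f (2 ^ (j + a)) v) → ∑ E ∈ 𝓔, xc ^ E.card ≤ C

theorem CrossC_of_TwoC (h : TwoC) (s0 R : ℕ) : ∃ C0, 0 ≤ C0 ∧ CrossC s0 R C0 := by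
  set N : ℕ := Nat.clog 2 (3 * R) + Nat.clog 2 (3 * s0) + 1 with hN
  obtain ⟨C, hC⟩ := h N
  refine ⟨2 ^ ((2 * 1 + 1) ^ 2 * dirs.card) + max C 0, by positivity, ?_⟩
  intro f hf i 𝓔 h𝓔
  have hsmall : ∑ E ∈ 𝓔.filter (fun E => ∀ v ∈ VE E, Bx f 1 v), xc ^ E.card
      ≤ 2 ^ ((2 * 1 + 1) ^ 2 * dirs.card) := by
    apply small_sum f 1
    intro E hE
    rw [Finset.mem_filter] at hE
    exact ⟨(h𝓔 E hE.1).1, hE.2⟩
  have hlarge : ∑ E ∈ 𝓔.filter (fun E => ¬ ∀ v ∈ VE E, Bx f 1 v), xc ^ E.card ≤ C := by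
    obtain ⟨j, hj1, hj2⟩ : ∃ j, (∀ E ∈ 𝓔.filter (fun E => ¬ ∀ v ∈ VE E, Bx f 1 v), ∃ v ∈ VE E, ¬ Bx f (2 ^ j) v) ∧
        3 * rad s0 R (i + 1) ≤ 2 ^ (j + N) := by
      cases i with
      | zero =>
        refine ⟨0, ?_, ?_⟩
        · intro E hE
          rw [Finset.mem_filter] at hE
          have := hE.2
          push Not at this
          rw [pow_zero]
          exact this
        · have h1 : 3 * s0 ≤ 2 ^ Nat.clog 2 (3 * s0) := Nat.le_pow_clog (by norm_num) _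
          have e : rad s0 R (0 + 1) = s0 := by
            show s0 * R ^ 0 = s0
            rw [pow_zero, mul_one]
          rw [e]
          exact h1.trans (Nat.pow_le_pow_right (by norm_num) (by omega))
      | succ i =>
        rcases Nat.lt_or_ge (rad s0 R (i + 1)) 2 with hs | hs
        · refine ⟨0, ?_, ?_⟩
          · intro E hE
            rw [Finset.mem_filter] at hE
            have := hE.2
            push Not at this
            rw [pow_zero]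
            exact this
          · have h3 : 3 * R ≤ 2 ^ Nat.clog 2 (3 * R) := Nat.le_pow_clog (by norm_num) _
            have h2 : 3 * rad s0 R (i + 1 + 1) = 3 * R * rad s0 R (i + 1) := by
              show 3 * (s0 * R ^ (i + 1)) = 3 * R * (s0 * R ^ i)
              rw [pow_succ]
              ring
            rw [h2]
            calc 3 * R * rad s0 R (i + 1) ≤ 2 ^ Nat.clog 2 (3 * R) * 1 :=
                  Nat.mul_le_mul h3 (by omega)
              _ ≤ 2 ^ (0 + N) := by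
                  rw [mul_one]
                  exact Nat.pow_le_pow_right (by norm_num) (by omega)
        · set ρ := rad s0 R (i + 1) with hρ
          have hl1 : 2 ^ Nat.log 2 (ρ - 1) ≤ ρ - 1 := Nat.pow_log_le_self 2 (by omega)
          have hl2 : ρ - 1 < 2 ^ (Nat.log 2 (ρ - 1) + 1) := Nat.lt_pow_succ_log_self (by norm_num) _
          refine ⟨Nat.log 2 (ρ - 1), ?_, ?_⟩
          · intro E hE
            rw [Finset.mem_filter] at hE
            obtain ⟨p1, p2, ⟨v, hv, hvB⟩, -⟩ := h𝓔 E hE.1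
            refine ⟨v, hv, fun hb => hvB ?_⟩
            exact Bx_sub_Ball hf (e := 2 ^ Nat.log 2 (ρ - 1)) (by omega) (vt_of_VE p1 hv) hb
          · have h3 : 3 * R ≤ 2 ^ Nat.clog 2 (3 * R) := Nat.le_pow_clog (by norm_num) _
            have h2 : 3 * rad s0 R (i + 1 + 1) = 3 * R * ρ := by
              show 3 * (s0 * R ^ (i + 1)) = 3 * R * (s0 * R ^ i)
              rw [pow_succ]
              ring
            rw [h2]
            calc 3 * R * ρ ≤ 2 ^ Nat.clog 2 (3 * R) * 2 ^ (Nat.log 2 (ρ - 1) + 1) :=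
                  Nat.mul_le_mul h3 (by omega)
              _ = 2 ^ (Nat.clog 2 (3 * R) + (Nat.log 2 (ρ - 1) + 1)) := (pow_add _ _ _).symm
              _ ≤ 2 ^ (Nat.log 2 (ρ - 1) + N) := Nat.pow_le_pow_right (by norm_num) (by omega)
    apply hC f hf j
    intro E hE
    have h1 := hj1 E hE
    rw [Finset.mem_filter] at hE
    obtain ⟨p1, p2, _, v, hv, hvB⟩ := h𝓔 E hE.1
    exact ⟨p1, p2, h1, v, hv, Bx_mono hj2 (Ball_sub_Bx hf hvB)⟩
  rw [← Finset.sum_filter_add_sum_filter_not 𝓔 (fun E => ∀ v ∈ VE E, Bx f 1 v)]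
  have := le_max_left C 0
  linarith

/-- P1 for the nested loops, from (E1) between two boxes -/
theorem P1_two (h : TwoC) {a X : ℝ} (ha : 0 < a) (haX : a ≤ X) :
    ∃ (t A : ℝ) (s0 R : ℕ), 0 < t ∧ 0 < A ∧ 1 ≤ s0 ∧ 2 ≤ R ∧ ∀ (f : Pt), Fc f → ∀ (J : ℕ) (Ω : Finset Pt), Full Ω →
      Ω ⊆ Ball f (s0 * R ^ J) → ∀ x : ℝ, a ≤ x → x ≤ X → ∀ z : ℂ, ‖z - x‖ ≤ t →
      NF (xc : ℂ) z f Ω ≠ 0 ∧ ‖NF (xc : ℂ) z f Ω‖ ≤ Real.exp (A * (J + 1)) ∧
      Real.exp (-(A * (J + 1))) ≤ ‖NF (xc : ℂ) z f Ω‖ :=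
  P1_cross (CrossC_of_TwoC h) ha haX

end Pool.Agent.ZF
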