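import Pool.Agent.ZF.ZeroFree
import Pool.Agent.NUN.NF

/-!
# Polygons around a face as a partial order; `NF` is a chain sum.
-/

set_option autoImplicit false

namespace Pool.Agent.ZF

open Finset HexObs HexObs.LP Pool.Agent.NUN
open scoped Classical

/-- finite sets of directed edges, ordered by strict inclusion of polygons -/
def Pg : Type := Finset (Pt × Pt)

/-- the polygon `E` is strictly inside the polygon `E'` -/
def InsP (E E' : Finset (Pt × Pt)) : Prop := IsPoly E ∧ IsPoly E' ∧ ∀ w ∈ VE E, Ins E' w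

theorem InsP.trans {E E' E'' : Finset (Pt × Pt)} (h : InsP E E') (h' : InsP E' E'') : InsP E E'' :=
  ⟨h.1, h'.2.1, fun w hw => nested h'.2.1 h'.1 h'.2.2 (h.2.2 w hw)⟩

theorem InsP.irrefl {E : Finset (Pt × Pt)} (h : InsP E E) : False := by
  obtain ⟨w, hw⟩ := VE_nonempty h.1
  exact (h.2.2 w hw).2.1 hw

noncomputable instance : PartialOrder Pg where
  le a b := a = b ∨ InsP a b
  lt a b := InsP a b
  le_refl a := Or.inl rfl
  le_trans a b c hab hbc := by
    rcases hab with rfl | hab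
    · exact hbc
    · rcases hbc with rfl | hbc
      · exact Or.inr hab
      · exact Or.inr (hab.trans hbc)
  lt_iff_le_not_ge a b := by
    constructor
    · intro h
      refine ⟨Or.inr h, ?_⟩
      rintro (rfl | h')
      · exact h.irrefl
      · exact (h.trans h').irrefl
    · rintro ⟨rfl | h, h'⟩
      · exact absurd (Or.inl rfl) h'
      · exact h
  le_antisymm a b hab hba := by
    rcases hab with h | hab
    · exact h
    · rcases hba with h | hba
      · exact h.symm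
      · exact absurd (hab.trans hba) InsP.irrefl

theorem Pg.lt_iff {a b : Pg} : a < b ↔ InsP a b := Iff.rfl

/-- the polygons in `Ω` around `f` as a set of elements of `Pg` -/
noncomputable def pg (f : Pt) (Ω : Finset Pt) : Finset Pg := pf f Ω

theorem mem_pg {f : Pt} {Ω : Finset Pt} {E : Pg} :
    E ∈ pg f Ω ↔ IsPoly E ∧ VE E ⊆ Ω ∧ Nw E f ≠ 0 := mem_pf

theorem pg_filter {f : Pt} {Ω : Finset Pt} {E : Pg} (hE : E ∈ pg f Ω) :
    (pg f Ω).filter (· < E) = pg f (inn Ω E) := by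
  ext E'
  rw [mem_filter, mem_pg, mem_pg, Pg.lt_iff]
  constructor
  · rintro ⟨⟨h1, h2, h3⟩, h4⟩
    exact ⟨h1, fun w hw => mem_inn.2 ⟨h2 hw, h4.2.2 w hw⟩, h3⟩
  · rintro ⟨h1, h2, h3⟩
    exact ⟨⟨h1, fun w hw => (mem_inn.1 (h2 hw)).1, h3⟩, h1, (mem_pg.1 hE).1,
      fun w hw => (mem_inn.1 (h2 hw)).2⟩

/-- `NF` is the chain sum of the poset of polygons -/
theorem NF_eq_Zf {K : Type*} [CommRing K] (x y : K) (f : Pt) (Ω : Finset Pt) :
    NF x y f Ω = Zf (fun E : Pg => y * x ^ (Finset.card (α := Pt × Pt) E)) (pg f Ω) := by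
  obtain ⟨n, hn⟩ : ∃ n, Ω.card = n := ⟨_, rfl⟩
  induction n using Nat.strong_induction_on generalizing Ω with
  | _ n ih =>
    have key : ∀ E : Pg, E ∈ pg f Ω →
        y * x ^ (Finset.card (α := Pt × Pt) E) * NF x y f (inn Ω E)
          = y * x ^ (Finset.card (α := Pt × Pt) E)
            * Zf (fun E : Pg => y * x ^ (Finset.card (α := Pt × Pt) E)) ((pg f Ω).filter (· < E)) := by
      intro E hE
      rw [pg_filter hE, ih _ (hn ▸ pf_inn_card hE) _ rfl]
    rw [NF_eq, Zf_rec]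
    exact congrArg (1 + ·) (Finset.sum_congr rfl key)

theorem pg_mono {f : Pt} {Ω Ω' : Finset Pt} (h : Ω ⊆ Ω') : pg f Ω ⊆ pg f Ω' := by
  intro E hE
  rw [mem_pg] at hE ⊢
  exact ⟨hE.1, hE.2.1.trans h, hE.2.2⟩

theorem pg_empty (f : Pt) : pg f ∅ = ∅ := by
  rw [Finset.eq_empty_iff_forall_notMem]
  intro E hE
  rw [mem_pg] at hE
  obtain ⟨w, hw⟩ := VE_nonempty hE.1
  exact absurd (hE.2.1 hw) (Finset.notMem_empty _)

/-- the polygons in a full domain form a down set -/
theorem pg_low {f : Pt} {Ω : Finset Pt} (hΩ : Full Ω) {E E' : Pg} (hE : E ∈ pg f Ω)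
    (hN : Nw E' f ≠ 0) (h : E' < E) : E' ∈ pg f Ω := by
  rw [mem_pg] at hE ⊢
  rw [Pg.lt_iff] at h
  exact ⟨h.1, fun w hw => hΩ.2 E hE.1 hE.2.1 w (h.2.2 w hw), hN⟩

end Pool.Agent.ZF
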