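import Pool.Agent.ZF.Poly
import Pool.Agent.HexLoop.Stepped
import Pool.Agent.HexLoop.Shift
import Pool.Agent.HexLoop.Ring

/-!
# The balls around a face and the polygons that cross them.
-/

set_option autoImplicit false

namespace Pool.Agent.ZF

open Finset HexObs HexObs.LP Pool.Agent.NUN
open scoped Classical

/-- the ball around the face `f` -/
noncomputable def Ball (f : Pt) (s : ℕ) : Finset Pt := Ti (f - f0) (PP s s)

theorem cl_sub_f0 {f : Pt} (hf : Fc f) : cl (f - f0) = 0 := by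
  have h : cl f = 1 := hf
  have h0 : cl f0 = 1 := by decide
  have e : f = (f - f0) + f0 := by abel
  rw [e, cl_add, h0] at h
  have : cl (f - f0) + 1 = 0 + 1 := by rw [h, zero_add]
  exact add_right_cancel this

theorem mem_Ball {f : Pt} (hf : Fc f) {s : ℕ} {v : Pt} :
    v ∈ Ball f s ↔ Vt v ∧ |lv v - lv f| < 3 * s ∧ |nn v - nn f| < 3 * s := by
  rw [Ball, mem_Ti, mem_PP]
  have h1 : Vt (v - (f - f0)) ↔ Vt v := by
    have := @tr_Vt (f - f0) (cl_sub_f0 hf) (v - (f - f0))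
    rw [sub_add_cancel] at this
    exact this.symm
  have h2 : lv (v - (f - f0)) - 1 = lv v - lv f := by
    unfold lv f0
    simp only [Prod.fst_sub, Prod.snd_sub]
    ring
  have h3 : nn (v - (f - f0)) - 1 = nn v - nn f := by
    unfold nn f0
    simp only [Prod.fst_sub, Prod.snd_sub]
    ring
  rw [h1, h2, h3]

theorem full_Ball {f : Pt} (hf : Fc f) (s : ℕ) : Full (Ball f s) :=
  full_tr (cl_sub_f0 hf) (SP_full s s _ _)

theorem Ball_mono {f : Pt} (hf : Fc f) {s s' : ℕ} (h : s ≤ s') : Ball f s ⊆ Ball f s' := by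
  intro v hv
  rw [mem_Ball hf] at hv ⊢
  have : (s : ℤ) ≤ s' := by exact_mod_cast h
  exact ⟨hv.1, by omega, by omega⟩

theorem Ball_zero {f : Pt} (hf : Fc f) : Ball f 0 = ∅ := by
  rw [Finset.eq_empty_iff_forall_notMem]
  intro v hv
  rw [mem_Ball hf] at hv
  have h := abs_nonneg (lv v - lv f)
  have h2 := hv.2.1
  push_cast at h2
  omega

/-- the ball is inside the box -/
theorem Ball_sub_Bx {f : Pt} (hf : Fc f) {s : ℕ} {v : Pt} (hv : v ∈ Ball f s) : Bx f (3 * s) v := by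
  rw [mem_Ball hf] at hv
  obtain ⟨_, h1, h2⟩ := hv
  unfold lv at h1
  unfold nn at h2
  rw [abs_lt] at h1 h2
  unfold Bx
  simp only [Prod.fst_sub, Prod.snd_sub, abs_le]
  push_cast
  omega

theorem Ball_sub_Bx' {f : Pt} (hf : Fc f) {s : ℕ} {v : Pt} (hv : v ∈ Ball f s) :
    Bx (f - f0) (3 * s) v := by
  rw [mem_Ball hf] at hv
  obtain ⟨_, h1, h2⟩ := hv
  unfold lv at h1
  unfold nn at h2
  rw [abs_lt] at h1 h2
  unfold Bx f0
  simp only [Prod.fst_sub, Prod.snd_sub, abs_le]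
  push_cast
  omega

/-- the box is inside the ball -/
theorem Bx_sub_Ball {f : Pt} (hf : Fc f) {e s : ℕ} (h : e + 1 ≤ s) {v : Pt} (hv : Vt v) (hb : Bx f e v) :
    v ∈ Ball f s := by
  rw [mem_Ball hf]
  unfold Bx at hb
  simp only [Prod.fst_sub, Prod.snd_sub, abs_le] at hb
  unfold lv nn
  rw [abs_lt, abs_lt]
  have : (e : ℤ) + 1 ≤ s := by exact_mod_cast h
  refine ⟨hv, ?_, ?_⟩ <;> omega

theorem Bx_sub_Ball' {f : Pt} (hf : Fc f) {e s : ℕ} (h : e + 1 ≤ s) {v : Pt} (hv : Vt v)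
    (hb : Bx (f - f0) e v) : v ∈ Ball f s := by
  rw [mem_Ball hf]
  unfold Bx f0 at hb
  simp only [Prod.fst_sub, Prod.snd_sub, abs_le] at hb
  unfold lv nn
  rw [abs_lt, abs_lt]
  have : (e : ℤ) + 1 ≤ s := by exact_mod_cast h
  refine ⟨hv, ?_, ?_⟩ <;> omega

theorem vt_of_VE {E : Finset (Pt × Pt)} (hE : IsPoly E) {v : Pt} (hv : v ∈ VE E) : Vt v := by
  obtain ⟨p, hp, rfl⟩ := Finset.mem_image.1 hv
  exact (isPoly_de hE hp).2.1

/-- a polygon around a vertex of the face is around the face -/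
theorem Nw_of_Ins {E : Finset (Pt × Pt)} (hE : IsPoly E) {f : Pt} (hf : Fc f) (h : Ins E (f + (-1, 0))) :
    Nw E f ≠ 0 := by
  obtain ⟨h1, _, h3, _⟩ := rf_ray hf
  have h4 := (ins_edge hE h1 h.2.1).1 h
  have h5 := h4.2.2
  simp only at h5
  rw [h3] at h5
  exact h5

/-- the radii -/
def rad (s0 R : ℕ) : ℕ → ℕ
  | 0 => 0
  | i + 1 => s0 * R ^ i

theorem rad_mono {s0 R : ℕ} (hR : 1 ≤ R) (i : ℕ) : rad s0 R i ≤ rad s0 R (i + 1) := by
  cases i with
  | zero => exact Nat.zero_le _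
  | succ i =>
    show s0 * R ^ i ≤ s0 * R ^ (i + 1)
    exact Nat.mul_le_mul_left _ (Nat.pow_le_pow_right (by omega) (Nat.le_succ i))

theorem rad_mono' {s0 R : ℕ} (hR : 1 ≤ R) : Monotone (rad s0 R) :=
  monotone_nat_of_le_succ (rad_mono hR)

/-- the crossing polygons meet the larger ball -/
theorem cross_meet {f : Pt} (hf : Fc f) {s : ℕ} {E : Pg} (hE : IsPoly E) (hN : Nw E f ≠ 0)
    (h : ¬ ∀ b ∈ pg f (Ball f s), b < E) : ∃ v ∈ VE E, v ∈ Ball f s := by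
  push Not at h
  obtain ⟨b, hb, hbE⟩ := h
  rw [mem_pg] at hb
  obtain ⟨b1, b2, b3⟩ := hb
  by_contra hcon
  push Not at hcon
  have hdis : ∀ w ∈ VE b, w ∉ VE E := fun w hw hw' => hcon w hw' (b2 hw)
  rcases nested_or b1 hE hdis hf b3 hN with h1 | h1
  · obtain ⟨v, hv⟩ := VE_nonempty hE
    exact hcon v hv ((full_Ball hf s).2 b b1 b2 v (h1 v hv))
  · exact hbE ⟨b1, hE, h1⟩

/-- the annulus constants around the faces -/
theorem ring_Ball : ∃ (s0 R : ℕ) (c : ℝ), 1 ≤ s0 ∧ 2 ≤ R ∧ 0 < c ∧ ∀ (f : Pt), Fc f → ∀ i : ℕ,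
    c ≤ ∑ E ∈ shell (fun i => pg f (Ball f (rad s0 R i))) i, xc ^ (Finset.card (α := Pt × Pt) E) := by
  obtain ⟨R, e0, c, hR, he0, hc, hring⟩ := ring
  refine ⟨R * e0 + 1, 3 * R + 1, c, by omega, by omega, hc, ?_⟩
  intro f hf i
  have hz := cl_sub_f0 hf
  have hvf : Vt (f + (-1, 0)) := (rf_ray hf).1.2.1
  obtain ⟨e, he, hin, hout⟩ : ∃ e : ℕ, e0 ≤ e ∧
      (∀ v ∈ Ball f (rad (R * e0 + 1) (3 * R + 1) i), Bx (f - f0) e v) ∧
      R * e + 1 ≤ rad (R * e0 + 1) (3 * R + 1) (i + 1) := by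
    cases i with
    | zero =>
      refine ⟨e0, le_rfl, ?_, ?_⟩
      · intro v hv
        rw [show rad (R * e0 + 1) (3 * R + 1) 0 = 0 from rfl, Ball_zero hf] at hv
        exact absurd hv (Finset.notMem_empty _)
      · show R * e0 + 1 ≤ (R * e0 + 1) * (3 * R + 1) ^ 0
        rw [pow_zero, mul_one]
    | succ i =>
      have hpos : 1 ≤ (3 * R + 1) ^ i := Nat.one_le_pow _ _ (by omega)
      refine ⟨3 * ((R * e0 + 1) * (3 * R + 1) ^ i), ?_, ?_, ?_⟩
      · have h1 : e0 ≤ R * e0 := Nat.le_mul_of_pos_left _ (by omega)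
        nlinarith
      · intro v hv
        exact Ball_sub_Bx' hf hv
      · show R * (3 * ((R * e0 + 1) * (3 * R + 1) ^ i)) + 1 ≤ (R * e0 + 1) * (3 * R + 1) ^ (i + 1)
        have h2 : 1 ≤ (R * e0 + 1) * (3 * R + 1) ^ i := Nat.one_le_iff_ne_zero.2 (by positivity)
        rw [pow_succ]
        nlinarith
  obtain ⟨𝓔, h1, h2⟩ : ∃ 𝓔 : Finset Pg, (∀ E ∈ 𝓔, IsPoly E ∧ (∀ v ∈ VE E, Bx (f - f0) (R * e) v) ∧
      ∀ v, Vt v → Bx (f - f0) e v → Ins E v) ∧ c ≤ ∑ E ∈ 𝓔, xc ^ (Finset.card (α := Pt × Pt) E) :=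
    hring e (f - f0) he hz
  refine h2.trans ?_
  apply Finset.sum_le_sum_of_subset_of_nonneg
  · intro E hE
    obtain ⟨p1, p2, p3⟩ := h1 E hE
    have hN : Nw E f ≠ 0 := by
      apply Nw_of_Ins p1 hf
      apply p3 _ hvf
      unfold Bx f0
      simp only [Prod.fst_sub, Prod.snd_sub, Prod.fst_add, Prod.snd_add, abs_le]
      have : 1 ≤ (e : ℤ) := by exact_mod_cast (he0.trans he)
      refine ⟨⟨?_, ?_⟩, ?_, ?_⟩ <;> omega
    unfold shell
    rw [Finset.mem_filter]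
    refine ⟨?_, ?_⟩
    · rw [mem_pg]
      exact ⟨p1, fun v hv => Bx_sub_Ball' hf hout (vt_of_VE p1 hv) (p2 v hv), hN⟩
    · intro b hb
      rw [mem_pg] at hb
      exact ⟨hb.1, p1, fun w hw => p3 w (vt_of_VE hb.1 hw) (hin w (hb.2.1 hw))⟩
  · intro E _ _
    exact pow_nonneg xc_pos.le _

end Pool.Agent.ZF
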