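import Mathlib

/-!
Chain sums `Zf v D = ∑ over chains C ⊆ D of ∏ l ∈ C, v l` in a partial order, and the
decomposition over the largest element inside a down set.
-/

namespace Pool.Agent.ZF

open Finset
open scoped Classical

variable {P : Type*} [PartialOrder P]

/-- chains contained in `D` -/
noncomputable def chains (D : Finset P) : Finset (Finset P) :=
  D.powerset.filter fun C => IsChain (· < ·) (C : Set P)

theorem mem_chains {D C : Finset P} : C ∈ chains D ↔ C ⊆ D ∧ IsChain (· < ·) (C : Set P) := by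
  simp [chains]

/-- chain sum -/
noncomputable def Zf {𝕜 : Type*} [CommSemiring 𝕜] (v : P → 𝕜) (D : Finset P) : 𝕜 :=
  ∑ C ∈ chains D, ∏ l ∈ C, v l

theorem chains_empty : chains (∅ : Finset P) = {∅} := by
  ext C
  simp only [mem_chains, subset_empty, mem_singleton]
  constructor
  · exact fun h => h.1
  · rintro rfl
    exact ⟨rfl, by simp⟩

theorem Zf_empty {𝕜 : Type*} [CommSemiring 𝕜] (v : P → 𝕜) : Zf v ∅ = 1 := by
  simp [Zf, chains_empty]

/-- chains with a given largest element inside `B` -/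
noncomputable def topAt (D B : Finset P) (l : P) : Finset (Finset P) :=
  (chains D).filter fun C => l ∈ C ∧ ∀ c ∈ C, c ∈ B → c ≤ l

theorem exists_top {C B : Finset P} (hC : IsChain (· < ·) (C : Set P)) (h : (C ∩ B).Nonempty) :
    ∃ l ∈ B, l ∈ C ∧ ∀ c ∈ C, c ∈ B → c ≤ l := by
  obtain ⟨l, hl⟩ := (C ∩ B).exists_maximal h
  have hl1 := hl.prop
  rw [mem_inter] at hl1
  refine ⟨l, hl1.2, hl1.1, fun c hc hcB => ?_⟩
  by_cases hcl : c = l
  · exact hcl.le
  · rcases hC hc hl1.1 hcl with h1 | h1
    · exact h1.le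
    · exact hl.le_of_ge (mem_inter.2 ⟨hc, hcB⟩) h1.le

theorem sum_topAt {𝕜 : Type*} [CommSemiring 𝕜] (v : P → 𝕜) (D B : Finset P) (hBD : B ⊆ D)
    (hlow : ∀ l ∈ B, ∀ l' ∈ D, l' < l → l' ∈ B) (l : P) (hl : l ∈ B) :
    ∑ C ∈ topAt D B l, ∏ c ∈ C, v c
      = v l * Zf v (B.filter (· < l)) * Zf v ((D \ B).filter (l < ·)) := by
  rw [Zf, Zf, mul_assoc, Finset.sum_mul_sum, ← Finset.sum_product', Finset.mul_sum]
  symm
  refine Finset.sum_nbij' (fun q => insert l (q.1 ∪ q.2))
    (fun C => (C.filter (· < l), C.filter (l < ·))) ?_ ?_ ?_ ?_ ?_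
  · rintro ⟨C1, C2⟩ hq
    rw [mem_product, mem_chains, mem_chains] at hq
    obtain ⟨⟨h1, c1⟩, ⟨h2, c2⟩⟩ := hq
    simp only at h1 c1 h2 c2
    have k1 : ∀ a ∈ C1, a ∈ B ∧ a < l := fun a ha => by
      have := h1 ha; rw [mem_filter] at this; exact this
    have k2 : ∀ a ∈ C2, a ∈ D ∧ a ∉ B ∧ l < a := fun a ha => by
      have := h2 ha; rw [mem_filter, mem_sdiff] at this; exact ⟨this.1.1, this.1.2, this.2⟩
    simp only [topAt, mem_filter, mem_chains]
    refine ⟨⟨?_, ?_⟩, mem_insert_self _ _, ?_⟩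
    · intro a ha
      rw [mem_insert, mem_union] at ha
      rcases ha with rfl | ha | ha
      · exact hBD hl
      · exact hBD (k1 a ha).1
      · exact (k2 a ha).1
    · intro a ha b hb hab
      rw [mem_coe, mem_insert, mem_union] at ha hb
      rcases ha with rfl | ha | ha <;> rcases hb with rfl | hb | hb
      · exact absurd rfl hab
      · exact Or.inr (k1 b hb).2
      · exact Or.inl (k2 b hb).2.2
      · exact Or.inl (k1 a ha).2
      · exact c1 ha hb hab
      · exact Or.inl ((k1 a ha).2.trans (k2 b hb).2.2)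
      · exact Or.inr (k2 a ha).2.2
      · exact Or.inr ((k1 b hb).2.trans (k2 a ha).2.2)
      · exact c2 ha hb hab
    · intro c hc hcB
      rw [mem_insert, mem_union] at hc
      rcases hc with rfl | hc | hc
      · exact le_rfl
      · exact (k1 c hc).2.le
      · exact absurd hcB (k2 c hc).2.1
  · intro C hC
    simp only [topAt, mem_filter, mem_chains] at hC
    obtain ⟨⟨hCD, hCc⟩, hlC, hmax⟩ := hC
    rw [mem_product, mem_chains, mem_chains]
    refine ⟨⟨?_, ?_⟩, ⟨?_, ?_⟩⟩
    · intro a ha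
      simp only [mem_filter] at ha ⊢
      exact ⟨hlow l hl a (hCD ha.1) ha.2, ha.2⟩
    · exact hCc.mono (by simp [Set.subset_def]; tauto)
    · intro a ha
      simp only [mem_filter, mem_sdiff] at ha ⊢
      exact ⟨⟨hCD ha.1, fun haB => absurd (hmax a ha.1 haB) (not_le_of_gt ha.2)⟩, ha.2⟩
    · exact hCc.mono (by simp [Set.subset_def]; tauto)
  · rintro ⟨C1, C2⟩ hq
    rw [mem_product, mem_chains, mem_chains] at hq
    obtain ⟨⟨h1, c1⟩, ⟨h2, c2⟩⟩ := hq
    simp only at h1 c1 h2 c2
    have k1 : ∀ a ∈ C1, a < l := fun a ha => by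
      have := h1 ha; rw [mem_filter] at this; exact this.2
    have k2 : ∀ a ∈ C2, l < a := fun a ha => by
      have := h2 ha; rw [mem_filter] at this; exact this.2
    simp only [Prod.mk.injEq]
    constructor
    · ext a
      simp only [mem_filter, mem_insert, mem_union]
      constructor
      · rintro ⟨rfl | ha | ha, hal⟩
        · exact absurd hal (lt_irrefl _)
        · exact ha
        · exact absurd hal (lt_asymm (k2 a ha))
      · intro ha
        exact ⟨Or.inr (Or.inl ha), k1 a ha⟩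
    · ext a
      simp only [mem_filter, mem_insert, mem_union]
      constructor
      · rintro ⟨rfl | ha | ha, hal⟩
        · exact absurd hal (lt_irrefl _)
        · exact absurd hal (lt_asymm (k1 a ha))
        · exact ha
      · intro ha
        exact ⟨Or.inr (Or.inr ha), k2 a ha⟩
  · intro C hC
    simp only [topAt, mem_filter, mem_chains] at hC
    obtain ⟨⟨hCD, hCc⟩, hlC, hmax⟩ := hC
    ext a
    simp only [mem_filter, mem_insert, mem_union]
    constructor
    · rintro (rfl | ha | ha)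
      · exact hlC
      · exact ha.1
      · exact ha.1
    · intro ha
      by_cases hal : a = l
      · exact Or.inl hal
      · rcases hCc ha hlC hal with h | h
        · exact Or.inr (Or.inl ⟨ha, h⟩)
        · exact Or.inr (Or.inr ⟨ha, h⟩)
  · rintro ⟨C1, C2⟩ hq
    rw [mem_product, mem_chains, mem_chains] at hq
    obtain ⟨⟨h1, c1⟩, ⟨h2, c2⟩⟩ := hq
    simp only at h1 c1 h2 c2
    have k1 : ∀ a ∈ C1, a < l := fun a ha => by
      have := h1 ha; rw [mem_filter] at this; exact this.2
    have k2 : ∀ a ∈ C2, l < a := fun a ha => by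
      have := h2 ha; rw [mem_filter] at this; exact this.2
    have hd : Disjoint C1 C2 := by
      rw [Finset.disjoint_left]
      intro a ha hb
      exact lt_asymm (k1 a ha) (k2 a hb)
    have hn : l ∉ C1 ∪ C2 := by
      rw [mem_union]
      rintro (h | h)
      · exact lt_irrefl _ (k1 l h)
      · exact lt_irrefl _ (k2 l h)
    simp only
    rw [Finset.prod_insert hn, Finset.prod_union hd]

/-- **Decomposition over the largest element inside the down set `B` of `D`.** -/
theorem Zf_decomp {𝕜 : Type*} [CommSemiring 𝕜] (v : P → 𝕜) (D B : Finset P) (hBD : B ⊆ D)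
    (hlow : ∀ l ∈ B, ∀ l' ∈ D, l' < l → l' ∈ B) :
    Zf v D = Zf v (D \ B)
      + ∑ l ∈ B, v l * Zf v (B.filter (· < l)) * Zf v ((D \ B).filter (l < ·)) := by
  have h1 : chains D = chains (D \ B) ∪ B.biUnion (topAt D B) := by
    ext C
    simp only [mem_union, mem_biUnion, topAt, mem_filter, mem_chains]
    constructor
    · rintro ⟨hCD, hCc⟩
      by_cases hne : (C ∩ B).Nonempty
      · obtain ⟨l, hlB, hlC, hmax⟩ := exists_top hCc hne
        exact Or.inr ⟨l, hlB, ⟨hCD, hCc⟩, hlC, hmax⟩
      · left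
        refine ⟨fun a ha => mem_sdiff.2 ⟨hCD ha, fun haB => hne ⟨a, mem_inter.2 ⟨ha, haB⟩⟩⟩, hCc⟩
    · rintro (⟨h, hc⟩ | ⟨l, _, h, _⟩)
      · exact ⟨h.trans sdiff_subset, hc⟩
      · exact h
  have h2 : Disjoint (chains (D \ B)) (B.biUnion (topAt D B)) := by
    rw [Finset.disjoint_left]
    intro C hC hC'
    rw [mem_chains] at hC
    simp only [mem_biUnion, topAt, mem_filter] at hC'
    obtain ⟨l, hlB, _, hlC, _⟩ := hC'
    exact (mem_sdiff.1 (hC.1 hlC)).2 hlB
  have h3 : ((B : Finset P) : Set P).PairwiseDisjoint (topAt D B) := by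
    intro l hl l' hl' hne
    rw [Function.onFun, Finset.disjoint_left]
    intro C hC hC'
    simp only [topAt, mem_filter] at hC hC'
    exact hne (le_antisymm (hC'.2.2 l hC.2.1 hl) (hC.2.2 l' hC'.2.1 hl'))
  rw [Zf, h1, Finset.sum_union h2, Finset.sum_biUnion h3]
  congr 1
  exact Finset.sum_congr rfl fun l hl => sum_topAt v D B hBD hlow l hl

/-- recursion over the outermost element -/
theorem Zf_rec {𝕜 : Type*} [CommSemiring 𝕜] (v : P → 𝕜) (D : Finset P) :
    Zf v D = 1 + ∑ l ∈ D, v l * Zf v (D.filter (· < l)) := by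
  have h := Zf_decomp v D D subset_rfl (fun l _ l' hl' _ => hl')
  simp only [_root_.sdiff_self, Finset.bot_eq_empty, Finset.filter_empty, Zf_empty,
    mul_one] at h
  exact h

section real
variable (v : P → ℝ)

theorem Zf_mono (hv : ∀ l, 0 ≤ v l) {D D' : Finset P} (h : D ⊆ D') : Zf v D ≤ Zf v D' := by
  refine Finset.sum_le_sum_of_subset_of_nonneg ?_ fun C _ _ => Finset.prod_nonneg fun l _ => hv l
  intro C hC
  rw [mem_chains] at hC ⊢
  exact ⟨hC.1.trans h, hC.2⟩

theorem one_le_Zf (hv : ∀ l, 0 ≤ v l) (D : Finset P) : 1 ≤ Zf v D := by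
  have := Zf_mono v hv (empty_subset D)
  rwa [Zf_empty] at this

theorem Zf_insert_le (hv : ∀ l, 0 ≤ v l) (Q : Finset P) (a : P) :
    Zf v (insert a Q) ≤ Zf v Q * (1 + v a) := by
  by_cases haQ : a ∈ Q
  · rw [insert_eq_of_mem haQ]
    have h1 := one_le_Zf v hv Q
    have h2 := hv a
    nlinarith
  have h1 : chains (insert a Q) = chains Q ∪
      ((chains Q).filter fun C => IsChain (· < ·) ((insert a C : Finset P) : Set P)).image
        (insert a) := by
    ext C
    simp only [mem_union, mem_image, mem_filter, mem_chains]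
    constructor
    · rintro ⟨hCD, hCc⟩
      by_cases haC : a ∈ C
      · right
        refine ⟨C.erase a, ⟨⟨?_, ?_⟩, ?_⟩, insert_erase haC⟩
        · intro b hb
          rw [mem_erase] at hb
          rcases mem_insert.1 (hCD hb.2) with h | h
          · exact absurd h hb.1
          · exact h
        · exact hCc.mono (by simp)
        · rw [insert_erase haC]; exact hCc
      · left
        refine ⟨fun b hb => ?_, hCc⟩
        rcases mem_insert.1 (hCD hb) with h | h
        · subst h; exact absurd hb haC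
        · exact h
    · rintro (⟨h, hc⟩ | ⟨C', ⟨⟨h, _⟩, hc⟩, rfl⟩)
      · exact ⟨h.trans (subset_insert _ _), hc⟩
      · exact ⟨insert_subset_insert _ h, hc⟩
  have h2 : Disjoint (chains Q)
      (((chains Q).filter fun C => IsChain (· < ·) ((insert a C : Finset P) : Set P)).image
        (insert a)) := by
    rw [Finset.disjoint_left]
    intro C hC hC'
    rw [mem_image] at hC'
    obtain ⟨C', _, rfl⟩ := hC'
    rw [mem_chains] at hC
    exact haQ (hC.1 (mem_insert_self _ _))
  rw [Zf, h1, Finset.sum_union h2, Finset.sum_image]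
  · have h3 : ∑ C ∈ (chains Q).filter fun C => IsChain (· < ·) ((insert a C : Finset P) : Set P),
        ∏ l ∈ insert a C, v l ≤ Zf v Q * v a := by
      rw [Zf, Finset.sum_mul]
      have h4 : ∀ C ∈ (chains Q).filter fun C => IsChain (· < ·) ((insert a C : Finset P) : Set P),
          ∏ l ∈ insert a C, v l = (∏ l ∈ C, v l) * v a := by
        intro C hC
        rw [mem_filter, mem_chains] at hC
        rw [Finset.prod_insert (fun h => haQ (hC.1.1 h)), mul_comm]
      rw [Finset.sum_congr rfl h4]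
      refine Finset.sum_le_sum_of_subset_of_nonneg (filter_subset _ _) fun C _ _ => ?_
      exact mul_nonneg (Finset.prod_nonneg fun l _ => hv l) (hv a)
    have h5 : ∑ C ∈ chains Q, ∏ l ∈ C, v l = Zf v Q := rfl
    rw [h5]
    linarith
  · intro C hC C' hC' hCC
    rw [mem_coe, mem_filter, mem_chains] at hC hC'
    have h3 : a ∉ C := fun h => haQ (hC.1.1 h)
    have h4 : a ∉ C' := fun h => haQ (hC'.1.1 h)
    have := congrArg (fun S => S.erase a) hCC
    simpa [erase_insert h3, erase_insert h4] using this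

theorem Zf_union_le (hv : ∀ l, 0 ≤ v l) (A S : Finset P) :
    Zf v (A ∪ S) ≤ Zf v A * Real.exp (∑ l ∈ S, v l) := by
  induction S using Finset.induction_on with
  | empty => simp
  | insert a S ha ih =>
    rw [union_insert, Finset.sum_insert ha, Real.exp_add]
    have h1 := Zf_insert_le v hv (A ∪ S) a
    have h2 : 1 + v a ≤ Real.exp (v a) := by linarith [Real.add_one_le_exp (v a)]
    have h3 : 0 ≤ Zf v (A ∪ S) := zero_le_one.trans (one_le_Zf v hv _)
    calc Zf v (insert a (A ∪ S)) ≤ Zf v (A ∪ S) * (1 + v a) := h1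
      _ ≤ (Zf v A * Real.exp (∑ l ∈ S, v l)) * Real.exp (v a) :=
          mul_le_mul ih h2 (by linarith [hv a]) (h3.trans ih)
      _ = _ := by ring

theorem Zf_le_of_subset (hv : ∀ l, 0 ≤ v l) {A Q S : Finset P} (h : Q ⊆ A ∪ S) :
    Zf v Q ≤ Zf v A * Real.exp (∑ l ∈ S, v l) :=
  (Zf_mono v hv h).trans (Zf_union_le v hv A S)

theorem Zf_growth (hv : ∀ l, 0 ≤ v l) {B B' S : Finset P} (hB : B ⊆ B') (hS : S ⊆ B')
    (hSB : ∀ l ∈ S, ∀ b ∈ B, b < l) :
    (1 + ∑ l ∈ S, v l) * Zf v B ≤ Zf v B' := by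
  have hdis : Disjoint B S := by
    rw [Finset.disjoint_left]
    intro a ha hb
    exact lt_irrefl _ (hSB a hb a ha)
  have h1 := Zf_rec v B'
  have h2 := Zf_rec v B
  have h3 : ∑ l ∈ B ∪ S, v l * Zf v (B'.filter (· < l)) ≤ ∑ l ∈ B', v l * Zf v (B'.filter (· < l)) := by
    refine Finset.sum_le_sum_of_subset_of_nonneg (union_subset hB hS) fun l _ _ => ?_
    exact mul_nonneg (hv l) (zero_le_one.trans (one_le_Zf v hv _))
  rw [Finset.sum_union hdis] at h3
  have h4 : ∑ l ∈ B, v l * Zf v (B.filter (· < l)) ≤ ∑ l ∈ B, v l * Zf v (B'.filter (· < l)) := by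
    refine Finset.sum_le_sum fun l _ => mul_le_mul_of_nonneg_left ?_ (hv l)
    exact Zf_mono v hv (filter_subset_filter _ hB)
  have h5 : (∑ l ∈ S, v l) * Zf v B ≤ ∑ l ∈ S, v l * Zf v (B'.filter (· < l)) := by
    rw [Finset.sum_mul]
    refine Finset.sum_le_sum fun l hl => mul_le_mul_of_nonneg_left ?_ (hv l)
    refine Zf_mono v hv fun b hb => ?_
    rw [mem_filter]
    exact ⟨hB hb, hSB l hl b hb⟩
  rw [h1, add_mul, one_mul]
  linarith

end real

end Pool.Agent.ZF
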