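import Mathlib

/-!
Contraction argument for ratios of partition functions of chains, abstract part.
-/

namespace Pool.Agent.ZF

open Finset

/-- convexity of the exponential: slope comparison -/
theorem exp_sub_one_le {t u b : ℝ} (ht : 0 ≤ t) (htu : t ≤ u) (hu : 0 < u) (_hb : 0 ≤ b) :
    Real.exp (t * b) - 1 ≤ (t / u) * (Real.exp (u * b) - 1) := by
  have ha : (0 : ℝ) ≤ t / u := by positivity
  have hb' : (0 : ℝ) ≤ 1 - t / u := by rw [sub_nonneg, div_le_one hu]; exact htu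
  have h := convexOn_exp.2 (Set.mem_univ (u * b)) (Set.mem_univ (0 : ℝ)) ha hb' (by ring)
  simp only [smul_eq_mul, mul_zero, add_zero, Real.exp_zero, mul_one] at h
  have e : t / u * (u * b) = t * b := by field_simp
  rw [e] at h
  linarith

/-- coupling inequality in analytic form -/
theorem mix {Ω : Type*} (O : Finset Ω) (p p' ν : Ω → ℝ) (R : Ω → ℂ) (M h0 : ℝ) (H : Ω → ℝ)
    (hM : 1 ≤ M) (hh0 : 0 ≤ h0) (hH : ∀ o ∈ O, 0 ≤ H o)
    (hR : ∀ o ∈ O, ∀ o' ∈ O, ‖R o - R o'‖ ≤ h0 + H o + H o')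
    (hν : ∀ o ∈ O, 0 ≤ ν o) (hν1 : ∑ o ∈ O, ν o = 1)
    (hp : ∀ o ∈ O, M⁻¹ * ν o ≤ p o ∧ p o ≤ M * ν o) (hp1 : ∑ o ∈ O, p o = 1)
    (hp' : ∀ o ∈ O, M⁻¹ * ν o ≤ p' o ∧ p' o ≤ M * ν o) (hp1' : ∑ o ∈ O, p' o = 1) :
    ‖∑ o ∈ O, ((p o : ℂ) - p' o) * R o‖ ≤ (1 - M⁻¹) * h0 + 2 * M * ∑ o ∈ O, ν o * H o := by
  classical
  have hM0 : 0 < M := by linarith
  set q : Ω → ℝ := fun o => p o - min (p o) (p' o) with hq
  set q' : Ω → ℝ := fun o => p' o - min (p o) (p' o) with hq'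
  set θ : ℝ := ∑ o ∈ O, q o with hθ
  have hp0 : ∀ o ∈ O, 0 ≤ p o := fun o ho =>
    le_trans (mul_nonneg (by positivity) (hν o ho)) (hp o ho).1
  have hp0' : ∀ o ∈ O, 0 ≤ p' o := fun o ho =>
    le_trans (mul_nonneg (by positivity) (hν o ho)) (hp' o ho).1
  have hq0 : ∀ o ∈ O, 0 ≤ q o := fun o _ => by
    simp only [hq]; linarith [min_le_left (p o) (p' o)]
  have hq0' : ∀ o ∈ O, 0 ≤ q' o := fun o _ => by
    simp only [hq']; linarith [min_le_right (p o) (p' o)]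
  have hqM : ∀ o ∈ O, q o ≤ M * ν o := fun o ho => by
    have h1 : 0 ≤ min (p o) (p' o) := le_min (hp0 o ho) (hp0' o ho)
    simp only [hq]; linarith [(hp o ho).2]
  have hqM' : ∀ o ∈ O, q' o ≤ M * ν o := fun o ho => by
    have h1 : 0 ≤ min (p o) (p' o) := le_min (hp0 o ho) (hp0' o ho)
    simp only [hq']; linarith [(hp' o ho).2]
  have hθ' : ∑ o ∈ O, q' o = θ := by
    simp only [hθ, hq, hq', Finset.sum_sub_distrib, hp1, hp1']
  have hθ0 : 0 ≤ θ := Finset.sum_nonneg hq0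
  have hθ1 : θ ≤ 1 - M⁻¹ := by
    have h1 : ∑ o ∈ O, M⁻¹ * ν o ≤ ∑ o ∈ O, min (p o) (p' o) :=
      Finset.sum_le_sum fun o ho => le_min (hp o ho).1 (hp' o ho).1
    rw [← Finset.mul_sum, hν1, mul_one] at h1
    simp only [hθ, hq, Finset.sum_sub_distrib, hp1]
    linarith
  have hdiff : ∀ o, ((p o : ℂ) - p' o) = (q o : ℂ) - q' o := fun o => by
    simp only [hq, hq']; push_cast; ring
  have hS : (θ : ℂ) * ∑ o ∈ O, ((p o : ℂ) - p' o) * R o
      = ∑ o ∈ O, ∑ o' ∈ O, ((q o : ℂ) * q' o') * (R o - R o') := by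
    have e1 : ∑ o ∈ O, ∑ o' ∈ O, ((q o : ℂ) * q' o') * (R o - R o')
        = (∑ o ∈ O, (q o : ℂ) * R o) * (∑ o' ∈ O, (q' o' : ℂ))
          - (∑ o ∈ O, (q o : ℂ)) * (∑ o' ∈ O, (q' o' : ℂ) * R o') := by
      rw [Finset.sum_mul_sum, Finset.sum_mul_sum, ← Finset.sum_sub_distrib]
      refine Finset.sum_congr rfl fun o _ => ?_
      rw [← Finset.sum_sub_distrib]
      refine Finset.sum_congr rfl fun o' _ => ?_
      ring
    have e2 : (∑ o' ∈ O, (q' o' : ℂ)) = θ := by rw [← hθ']; push_cast; rfl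
    have e3 : (∑ o ∈ O, (q o : ℂ)) = θ := by rw [hθ]; push_cast; rfl
    rw [e1, e2, e3]
    simp only [hdiff, sub_mul, Finset.sum_sub_distrib]
    ring
  have hνH : 0 ≤ ∑ o ∈ O, ν o * H o :=
    Finset.sum_nonneg fun o ho => mul_nonneg (hν o ho) (hH o ho)
  rcases hθ0.eq_or_lt with h0 | hpos
  · -- θ = 0
    have hz : ∀ o ∈ O, q o = 0 := (Finset.sum_eq_zero_iff_of_nonneg hq0).1 (by rw [← hθ]; exact h0.symm)
    have hz' : ∀ o ∈ O, q' o = 0 :=
      (Finset.sum_eq_zero_iff_of_nonneg hq0').1 (by rw [hθ']; exact h0.symm)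
    have : ∑ o ∈ O, ((p o : ℂ) - p' o) * R o = 0 :=
      Finset.sum_eq_zero fun o ho => by rw [hdiff, hz o ho, hz' o ho]; simp
    rw [this, norm_zero]
    have : 0 ≤ 1 - M⁻¹ := le_trans hθ0 hθ1
    positivity
  · have hb : ‖∑ o ∈ O, ∑ o' ∈ O, ((q o : ℂ) * q' o') * (R o - R o')‖
        ≤ θ * (θ * h0 + ∑ o ∈ O, q o * H o + ∑ o ∈ O, q' o * H o) := by
      calc ‖∑ o ∈ O, ∑ o' ∈ O, ((q o : ℂ) * q' o') * (R o - R o')‖
          ≤ ∑ o ∈ O, ∑ o' ∈ O, (q o * q' o') * (h0 + H o + H o') := by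
            refine (norm_sum_le _ _).trans (Finset.sum_le_sum fun o ho => ?_)
            refine (norm_sum_le _ _).trans (Finset.sum_le_sum fun o' ho' => ?_)
            rw [norm_mul]
            have e : ‖(q o : ℂ) * q' o'‖ = q o * q' o' := by
              rw [← Complex.ofReal_mul, Complex.norm_real, Real.norm_eq_abs,
                abs_of_nonneg (mul_nonneg (hq0 o ho) (hq0' o' ho'))]
            rw [e]
            exact mul_le_mul_of_nonneg_left (hR o ho o' ho')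
              (mul_nonneg (hq0 o ho) (hq0' o' ho'))
        _ = θ * (θ * h0 + ∑ o ∈ O, q o * H o + ∑ o ∈ O, q' o * H o) := by
            have e1 : ∑ o ∈ O, ∑ o' ∈ O, (q o * q' o') * (h0 + H o + H o')
                = (∑ o ∈ O, q o) * (∑ o' ∈ O, q' o') * h0
                  + (∑ o ∈ O, q o * H o) * (∑ o' ∈ O, q' o')
                  + (∑ o ∈ O, q o) * (∑ o' ∈ O, q' o' * H o') := by
              rw [Finset.sum_mul_sum, Finset.sum_mul_sum, Finset.sum_mul_sum, Finset.sum_mul,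
                ← Finset.sum_add_distrib, ← Finset.sum_add_distrib]
              refine Finset.sum_congr rfl fun o _ => ?_
              rw [Finset.sum_mul, ← Finset.sum_add_distrib, ← Finset.sum_add_distrib]
              refine Finset.sum_congr rfl fun o' _ => ?_
              ring
            rw [e1, hθ', ← hθ]; ring
    rw [← hS, norm_mul, Complex.norm_real, Real.norm_eq_abs, abs_of_pos hpos] at hb
    have hb2 := le_of_mul_le_mul_left hb hpos
    have h1 : ∑ o ∈ O, q o * H o ≤ M * ∑ o ∈ O, ν o * H o := by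
      rw [Finset.mul_sum]
      refine Finset.sum_le_sum fun o ho => ?_
      rw [← mul_assoc]
      exact mul_le_mul_of_nonneg_right (hqM o ho) (hH o ho)
    have h2 : ∑ o ∈ O, q' o * H o ≤ M * ∑ o ∈ O, ν o * H o := by
      rw [Finset.mul_sum]
      refine Finset.sum_le_sum fun o ho => ?_
      rw [← mul_assoc]
      exact mul_le_mul_of_nonneg_right (hqM' o ho) (hH o ho)
    have h3 : θ * h0 ≤ (1 - M⁻¹) * h0 := mul_le_mul_of_nonneg_right hθ1 hh0
    linarith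

end Pool.Agent.ZF
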