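import Pool.Agent.ZF.Contract

/-!
The induction over scales.
-/

namespace Pool.Agent.ZF

open Finset

/-- abstract system: domains `D` with a scale `k D`, ratios `r D`, balls `Bd j`, and one step
expansions over the first loop inside `Bd j`. -/
structure Sys (Δ Ω : Type*) (M E0 η0 s : ℝ) where
  adm : Set Δ
  k : Δ → ℕ
  r : Δ → ℂ
  Bd : ℕ → Δ
  J : ℕ
  O : ℕ → Finset Ω
  dom : Ω → Δ
  om : Ω → ℂ
  ν : ℕ → Ω → ℝ
  hB : ∀ j ≤ J, Bd j ∈ adm ∧ k (Bd j) = j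
  hkJ : ∀ D ∈ adm, k D ≤ J
  hdom : ∀ j ≤ J, ∀ o ∈ O j, dom o ∈ adm ∧ k (dom o) ≤ j
  hom : ∀ o, ‖om o - 1‖ ≤ s
  hν0 : ∀ j ≤ J, ∀ o ∈ O j, 0 ≤ ν j o
  hν1 : ∀ j ≤ J, ∑ o ∈ O j, ν j o = 1
  hmom : ∀ j ≤ J, ∑ o ∈ O j, ν j o * Real.exp (2 * η0 * ((j : ℝ) - k (dom o))) ≤ E0
  hexp : ∀ D ∈ adm, ∀ j, j + 1 ≤ k D → ∃ (p : Ω → ℝ) (ρ : Ω → ℂ),
    (∀ o ∈ O j, M⁻¹ * ν j o ≤ p o ∧ p o ≤ M * ν j o) ∧ ∑ o ∈ O j, p o = 1 ∧
    (∀ o ∈ O j, ‖ρ o - 1‖ ≤ Real.exp (s * ((k D : ℝ) - j + 1)) - 1) ∧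
    r D = ∑ o ∈ O j, (p o : ℂ) * ρ o * om o * r (dom o)
  hcr : ∀ D ∈ adm, ‖r D - 1‖ ≤ Real.exp (s * ((k D : ℝ) + 1)) - 1

theorem exp_le_of_small {x : ℝ} (h0 : 0 ≤ x) (h1 : x ≤ 1 / 2) : Real.exp x ≤ 1 + 2 * x := by
  have h := Real.exp_bound_div_one_sub_of_interval h0 (by linarith : x < 1)
  refine h.trans ?_
  rw [div_le_iff₀ (by linarith)]
  nlinarith

set_option maxHeartbeats 4000000 in
/-- the scalar inequality at the end of the induction step -/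
theorem scalar_ineq {M E0 η0 s ε x y : ℝ} (hM : 1 ≤ M) (hE : 1 ≤ E0) (hη0 : 0 < η0)
    (hη1 : η0 ≤ 1) (hε : ε * (1000 * M ^ 2 * E0) = η0) (hs : 0 ≤ s) (hs1 : s ≤ ε ^ 3)
    (hx : 0 ≤ x) (hy : y ≤ (s / ε ^ 2) * x) (hy0 : 0 ≤ y) :
    (1 + 4 * ε) * ((1 - M⁻¹) * ((1 + ε) * ε) + 2 * M * (((1 + ε) * ((4 * ε ^ 2 + ε ^ 2) / η0 + s)) * E0)
      + ((Real.exp (2 * s) - 1) + Real.exp (2 * s) * y + (Real.exp (2 * s) - 1))
        * ((1 + s) * (1 + ε) * (M * E0))) ≤ ε + x := by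
  have hM0 : 0 < M := by linarith
  have hE0 : 0 < E0 := by linarith
  have hX : 0 < 1000 * M ^ 2 * E0 := by positivity
  have hεpos : 0 < ε := by
    by_contra hcon
    push Not at hcon
    have : ε * (1000 * M ^ 2 * E0) ≤ 0 := mul_nonpos_of_nonpos_of_nonneg hcon hX.le
    linarith
  have hM2 : 1 ≤ M ^ 2 := by nlinarith
  have hε1 : ε ≤ 1 / 1000 := by
    have h1 : 1000 ≤ 1000 * M ^ 2 * E0 := by nlinarith
    have h2 : ε * 1000 ≤ ε * (1000 * M ^ 2 * E0) := mul_le_mul_of_nonneg_left h1 hεpos.le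
    linarith
  -- δ = c / 1000 with c = 1/M
  set c := M⁻¹ with hc
  have hcpos : 0 < c := by positivity
  have hc1 : c ≤ 1 := by rw [hc]; exact inv_le_one_of_one_le₀ hM
  have hMc : M * c = 1 := by rw [hc]; field_simp
  -- M E0 ε / η0 = c/1000
  have hkey : M * E0 * ε / η0 = c / 1000 := by
    rw [div_eq_div_iff hη0.ne' (by norm_num)]
    have : c * η0 = c * (ε * (1000 * M ^ 2 * E0)) := by rw [hε]
    rw [this]
    have : c * (ε * (1000 * M ^ 2 * E0)) = (M * c) * (ε * 1000 * M * E0) := by ring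
    rw [this, hMc]; ring
  have hkey2 : M * E0 * ε ≤ c / 1000 := by
    rw [← hkey]
    rw [le_div_iff₀ hη0]
    have : 0 ≤ M * E0 * ε := by positivity
    nlinarith
  have hsε : s ≤ ε ^ 2 := by
    refine hs1.trans ?_
    have : 0 ≤ ε ^ 2 := by positivity
    nlinarith
  have hs2 : s ≤ 1 / 1000 := by nlinarith
  have hexp2 : Real.exp (2 * s) ≤ 1 + 4 * s := by
    have := exp_le_of_small (x := 2 * s) (by linarith) (by linarith)
    linarith
  have hexp1 : 1 ≤ Real.exp (2 * s) := Real.one_le_exp (by linarith)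
  have hME : 0 < M * E0 := by positivity
  -- second term
  have t2 : 2 * M * (((1 + ε) * ((4 * ε ^ 2 + ε ^ 2) / η0 + s)) * E0)
      ≤ (1 + ε) * (12 * (ε * (c / 1000))) := by
    have h1 : M * E0 * (ε ^ 2 / η0) = ε * (c / 1000) := by
      rw [← hkey]; ring
    have h2 : M * E0 * s ≤ ε * (c / 1000) := by
      calc M * E0 * s ≤ M * E0 * ε ^ 2 := mul_le_mul_of_nonneg_left hsε hME.le
        _ = ε * (M * E0 * ε) := by ring
        _ ≤ ε * (c / 1000) := mul_le_mul_of_nonneg_left hkey2 hεpos.le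
    have h3 : 2 * M * (((1 + ε) * ((4 * ε ^ 2 + ε ^ 2) / η0 + s)) * E0)
        = (1 + ε) * (10 * (M * E0 * (ε ^ 2 / η0)) + 2 * (M * E0 * s)) := by ring
    rw [h3, h1]
    refine mul_le_mul_of_nonneg_left ?_ (by linarith)
    linarith
  -- third term
  have t3 : ((Real.exp (2 * s) - 1) + Real.exp (2 * s) * y + (Real.exp (2 * s) - 1))
        * ((1 + s) * (1 + ε) * (M * E0)) ≤ (1 + s) * (1 + ε) * (8 * (ε * (c / 1000)) + 2 * (c / 1000) * x) := by
    have h1 : (Real.exp (2 * s) - 1) + Real.exp (2 * s) * y + (Real.exp (2 * s) - 1)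
        ≤ 8 * s + 2 * y := by
      have : Real.exp (2 * s) * y ≤ 2 * y := mul_le_mul_of_nonneg_right (by linarith) hy0
      linarith
    have h2 : y ≤ ε * x := by
      refine hy.trans (mul_le_mul_of_nonneg_right ?_ hx)
      rw [div_le_iff₀ (by positivity)]
      calc s ≤ ε ^ 3 := hs1
        _ = ε * ε ^ 2 := by ring
    have h3 : M * E0 * (8 * s + 2 * y) ≤ 8 * (ε * (c / 1000)) + 2 * (c / 1000) * x := by
      have h4 : M * E0 * s ≤ ε * (c / 1000) := by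
        calc M * E0 * s ≤ M * E0 * ε ^ 2 := mul_le_mul_of_nonneg_left hsε hME.le
          _ = ε * (M * E0 * ε) := by ring
          _ ≤ ε * (c / 1000) := mul_le_mul_of_nonneg_left hkey2 hεpos.le
      have h5 : M * E0 * y ≤ (c / 1000) * x := by
        calc M * E0 * y ≤ M * E0 * (ε * x) := mul_le_mul_of_nonneg_left h2 hME.le
          _ = (M * E0 * ε) * x := by ring
          _ ≤ (c / 1000) * x := mul_le_mul_of_nonneg_right hkey2 hx
      linarith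
    calc ((Real.exp (2 * s) - 1) + Real.exp (2 * s) * y + (Real.exp (2 * s) - 1))
        * ((1 + s) * (1 + ε) * (M * E0))
        ≤ (8 * s + 2 * y) * ((1 + s) * (1 + ε) * (M * E0)) :=
          mul_le_mul_of_nonneg_right h1 (by positivity)
      _ = (1 + s) * (1 + ε) * (M * E0 * (8 * s + 2 * y)) := by ring
      _ ≤ _ := mul_le_mul_of_nonneg_left h3 (by positivity)
  have g1 : (1 + 4 * ε) * (1 + ε) * (1 + s) ≤ 2 := by
    have h1 : (1 + 4 * ε) * (1 + ε) ≤ 1 + 6 * ε := by nlinarith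
    have h2 : (1 + 4 * ε) * (1 + ε) * (1 + s) ≤ (1 + 6 * ε) * (1 + s) :=
      mul_le_mul_of_nonneg_right h1 (by linarith)
    nlinarith
  have g0 : (1 + 4 * ε) * (1 + ε) ≤ 1 + 6 * ε := by nlinarith
  have hεc : ε ≤ c / 1000 := by
    have : ε ≤ M * E0 * ε := by
      have : 1 ≤ M * E0 := by nlinarith
      nlinarith
    linarith
  -- first
  have f1 : (1 + 4 * ε) * ((1 - c) * ((1 + ε) * ε)) ≤ (1 - c / 2) * ε := by
    have h1 : (1 - c) * ((1 + 4 * ε) * (1 + ε)) ≤ (1 - c) * (1 + 6 * ε) :=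
      mul_le_mul_of_nonneg_left g0 (by linarith)
    have h2 : (1 - c) * (1 + 6 * ε) ≤ 1 - c / 2 := by nlinarith
    calc (1 + 4 * ε) * ((1 - c) * ((1 + ε) * ε)) = ((1 - c) * ((1 + 4 * ε) * (1 + ε))) * ε := by ring
      _ ≤ (1 - c / 2) * ε := mul_le_mul_of_nonneg_right (h1.trans h2) hεpos.le
  have f2 : (1 + 4 * ε) * (2 * M * (((1 + ε) * ((4 * ε ^ 2 + ε ^ 2) / η0 + s)) * E0))
      ≤ 24 * (ε * (c / 1000)) := by
    calc (1 + 4 * ε) * (2 * M * (((1 + ε) * ((4 * ε ^ 2 + ε ^ 2) / η0 + s)) * E0))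
        ≤ (1 + 4 * ε) * ((1 + ε) * (12 * (ε * (c / 1000)))) :=
          mul_le_mul_of_nonneg_left t2 (by linarith)
      _ = ((1 + 4 * ε) * (1 + ε)) * (12 * (ε * (c / 1000))) := by ring
      _ ≤ 2 * (12 * (ε * (c / 1000))) := by
          refine mul_le_mul_of_nonneg_right ?_ (by positivity)
          linarith
      _ = _ := by ring
  have f3 : (1 + 4 * ε) * (((Real.exp (2 * s) - 1) + Real.exp (2 * s) * y + (Real.exp (2 * s) - 1))
        * ((1 + s) * (1 + ε) * (M * E0))) ≤ 16 * (ε * (c / 1000)) + 4 * (c / 1000) * x := by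
    calc (1 + 4 * ε) * (((Real.exp (2 * s) - 1) + Real.exp (2 * s) * y + (Real.exp (2 * s) - 1))
        * ((1 + s) * (1 + ε) * (M * E0)))
        ≤ (1 + 4 * ε) * ((1 + s) * (1 + ε) * (8 * (ε * (c / 1000)) + 2 * (c / 1000) * x)) :=
          mul_le_mul_of_nonneg_left t3 (by linarith)
      _ = ((1 + 4 * ε) * (1 + ε) * (1 + s)) * (8 * (ε * (c / 1000)) + 2 * (c / 1000) * x) := by ring
      _ ≤ 2 * (8 * (ε * (c / 1000)) + 2 * (c / 1000) * x) := by
          refine mul_le_mul_of_nonneg_right g1 (by positivity)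
      _ = _ := by ring
  have hcx : c * x ≤ x := by nlinarith
  have hcε : 0 ≤ ε * c := by positivity
  rw [mul_add, mul_add]
  nlinarith [f1, f2, f3, hcx, hcε]

end Pool.Agent.ZF
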