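import Pool.Agent.ZF.Contract2

/-!
The induction over scales, main step.
-/

namespace Pool.Agent.ZF

open Finset

theorem consts {M E0 η0 s ε : ℝ} (hM : 1 ≤ M) (hE : 1 ≤ E0) (hη0 : 0 < η0)
    (hη1 : η0 ≤ 1) (hε : ε * (1000 * M ^ 2 * E0) = η0) (_hs : 0 ≤ s) (hs1 : s ≤ ε ^ 3) :
    0 < ε ∧ ε ≤ 1 / 1000 ∧ 4 * ε ≤ η0 ∧ ε ^ 2 ≤ η0 ∧ s ≤ ε ^ 2 ∧ s ≤ ε / 1000000 ∧ s / ε ^ 2 ≤ ε := by
  have hM0 : 0 < M := by linarith
  have hE0 : 0 < E0 := by linarith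
  have hX : 0 < 1000 * M ^ 2 * E0 := by positivity
  have hεpos : 0 < ε := by
    by_contra hcon
    push Not at hcon
    have : ε * (1000 * M ^ 2 * E0) ≤ 0 := mul_nonpos_of_nonpos_of_nonneg hcon hX.le
    linarith
  have hM2 : 1 ≤ M ^ 2 := by nlinarith
  have h1 : 1000 ≤ 1000 * M ^ 2 * E0 := by nlinarith
  have h2 : ε * 1000 ≤ ε * (1000 * M ^ 2 * E0) := mul_le_mul_of_nonneg_left h1 hεpos.le
  have hε1 : ε ≤ 1 / 1000 := by linarith
  have h4 : 4 * ε ≤ η0 := by linarith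
  have h5 : ε ^ 2 ≤ η0 := by nlinarith
  have h6 : s ≤ ε ^ 2 := by
    refine hs1.trans ?_
    have : 0 ≤ ε ^ 2 := by positivity
    nlinarith
  have h7 : s ≤ ε / 1000000 := by
    have h8 : ε ^ 2 ≤ 1 / 1000000 := by nlinarith
    calc s ≤ ε ^ 3 := hs1
      _ = ε * ε ^ 2 := by ring
      _ ≤ ε * (1 / 1000000) := mul_le_mul_of_nonneg_left h8 hεpos.le
      _ = _ := by ring
  have h8 : s / ε ^ 2 ≤ ε := by
    rw [div_le_iff₀ (by positivity)]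
    calc s ≤ ε ^ 3 := hs1
      _ = _ := by ring
  exact ⟨hεpos, hε1, h4, h5, h6, h7, h8⟩

/-- growth function estimate -/
theorem growth_bound {η0 ε b : ℝ} (hη0 : 0 < η0) (hε : 0 < ε) (h4 : 4 * ε ≤ η0)
    (h5 : ε ^ 2 ≤ η0) (hb : 0 ≤ b) :
    (ε + (Real.exp (ε ^ 2 * b) - 1)) * Real.exp (4 * ε * b)
      ≤ ε + (4 * ε ^ 2 + ε ^ 2) / η0 * Real.exp (2 * η0 * b) := by
  have e1 := exp_sub_one_le (t := 4 * ε) (u := η0) (b := b) (by positivity) h4 hη0 hb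
  have e2 := exp_sub_one_le (t := ε ^ 2) (u := η0) (b := b) (by positivity) h5 hη0 hb
  have e3 : Real.exp (4 * ε * b) ≤ Real.exp (η0 * b) :=
    Real.exp_le_exp.2 (mul_le_mul_of_nonneg_right h4 hb)
  have e4 : Real.exp (2 * η0 * b) = Real.exp (η0 * b) * Real.exp (η0 * b) := by
    rw [← Real.exp_add]; congr 1; ring
  have e5 : 1 ≤ Real.exp (η0 * b) := Real.one_le_exp (by positivity)
  have e6 : (Real.exp (ε ^ 2 * b) - 1) * Real.exp (4 * ε * b)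
      ≤ (ε ^ 2 / η0 * Real.exp (η0 * b)) * Real.exp (η0 * b) := by
    have h0 : Real.exp (ε ^ 2 * b) - 1 ≤ ε ^ 2 / η0 * Real.exp (η0 * b) := by
      refine e2.trans (mul_le_mul_of_nonneg_left (by linarith) (by positivity))
    have h1 : 0 ≤ Real.exp (ε ^ 2 * b) - 1 := by
      linarith [Real.one_le_exp (x := ε ^ 2 * b) (by positivity)]
    exact mul_le_mul h0 e3 (Real.exp_pos _).le (h1.trans h0)
  have e7 : ε * Real.exp (4 * ε * b) ≤ ε + (4 * ε ^ 2) / η0 * (Real.exp (η0 * b) * Real.exp (η0 * b)) := by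
    have h1 : Real.exp (4 * ε * b) ≤ 1 + 4 * ε / η0 * (Real.exp (η0 * b) - 1) := by linarith
    have h2 : Real.exp (η0 * b) - 1 ≤ Real.exp (η0 * b) * Real.exp (η0 * b) := by nlinarith
    have h3 : 4 * ε / η0 * (Real.exp (η0 * b) - 1) ≤ 4 * ε / η0 * (Real.exp (η0 * b) * Real.exp (η0 * b)) :=
      mul_le_mul_of_nonneg_left h2 (by positivity)
    calc ε * Real.exp (4 * ε * b) ≤ ε * (1 + 4 * ε / η0 * (Real.exp (η0 * b) * Real.exp (η0 * b))) :=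
          mul_le_mul_of_nonneg_left (by linarith) hε.le
      _ = _ := by ring
  rw [e4]
  calc (ε + (Real.exp (ε ^ 2 * b) - 1)) * Real.exp (4 * ε * b)
      = ε * Real.exp (4 * ε * b) + (Real.exp (ε ^ 2 * b) - 1) * Real.exp (4 * ε * b) := by ring
    _ ≤ (ε + (4 * ε ^ 2) / η0 * (Real.exp (η0 * b) * Real.exp (η0 * b)))
        + (ε ^ 2 / η0 * Real.exp (η0 * b)) * Real.exp (η0 * b) := add_le_add e7 e6
    _ = _ := by ring

/-- the conclusion at scale `m` -/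
def Good {Δ Ω : Type*} {M E0 η0 s : ℝ} (S : Sys Δ Ω M E0 η0 s) (ε : ℝ) (m : ℕ) : Prop :=
  ∀ D ∈ S.adm, ∀ D' ∈ S.adm, S.k D' = m → m ≤ S.k D →
    S.r D' ≠ 0 ∧
    ‖S.r D - S.r D'‖ ≤ (ε + (Real.exp (ε ^ 2 * ((S.k D : ℝ) - m)) - 1)) * ‖S.r D'‖

section
variable {Δ Ω : Type*} {M E0 η0 s ε : ℝ} (S : Sys Δ Ω M E0 η0 s)

theorem good_zero (hM : 1 ≤ M) (hE : 1 ≤ E0) (hη0 : 0 < η0)
    (hη1 : η0 ≤ 1) (hε : ε * (1000 * M ^ 2 * E0) = η0) (hs : 0 ≤ s) (hs1 : s ≤ ε ^ 3) :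
    Good S ε 0 := by
  obtain ⟨hε0, hε1, h4, h5, h6, h7, h8⟩ := consts hM hE hη0 hη1 hε hs hs1
  intro D hD D' hD' hk' _
  have ha := S.hcr D' hD'
  have hb := S.hcr D hD
  rw [hk'] at ha
  push_cast at ha
  set n : ℝ := (S.k D : ℝ) with hn
  have hn0 : 0 ≤ n := by positivity
  have hs3 : s ≤ 1 / 1000 := by linarith
  have es : Real.exp s ≤ 1 + 2 * s := exp_le_of_small hs (by linarith)
  have ha' : ‖S.r D' - 1‖ ≤ 2 * s := by
    refine ha.trans ?_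
    have : s * (0 + 1) = s := by ring
    rw [this]; linarith
  have hx := exp_sub_one_le (t := s) (u := ε ^ 2) (b := n) hs h6 (by positivity) hn0
  set x : ℝ := Real.exp (ε ^ 2 * n) - 1 with hxdef
  have hx0 : 0 ≤ x := by
    have := Real.one_le_exp (x := ε ^ 2 * n) (by positivity)
    linarith
  have hx1 : Real.exp (s * n) - 1 ≤ ε * x := hx.trans (mul_le_mul_of_nonneg_right h8 hx0)
  have hb' : ‖S.r D - 1‖ ≤ 2 * s + 2 * (ε * x) := by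
    refine hb.trans ?_
    have e : Real.exp (s * (n + 1)) = Real.exp (s * n) * Real.exp s := by
      rw [← Real.exp_add]; congr 1; ring
    rw [e]
    have h1 : 1 ≤ Real.exp (s * n) := Real.one_le_exp (by positivity)
    have h2 : Real.exp (s * n) * Real.exp s ≤ Real.exp (s * n) * (1 + 2 * s) :=
      mul_le_mul_of_nonneg_left es (by positivity)
    have h3 : Real.exp (s * n) * (1 + 2 * s) = (Real.exp (s * n) - 1) * (1 + 2 * s) + (1 + 2 * s) := by ring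
    have h4 : (Real.exp (s * n) - 1) * (1 + 2 * s) ≤ (ε * x) * (1 + 2 * s) :=
      mul_le_mul_of_nonneg_right hx1 (by linarith)
    have h5 : 0 ≤ ε * x := by positivity
    nlinarith
  have hlow : 1 - 2 * s ≤ ‖S.r D'‖ := by
    have h1 : ‖(1 : ℂ)‖ ≤ ‖S.r D'‖ + ‖S.r D' - 1‖ := by
      have := norm_sub_le (S.r D') (S.r D' - 1)
      simpa using this
    rw [norm_one] at h1
    linarith
  refine ⟨?_, ?_⟩
  · intro h0
    rw [h0, norm_zero] at hlow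
    linarith
  · have h1 : ‖S.r D - S.r D'‖ ≤ ‖S.r D - 1‖ + ‖S.r D' - 1‖ := by
      have : S.r D - S.r D' = (S.r D - 1) - (S.r D' - 1) := by ring
      rw [this]; exact norm_sub_le _ _
    have h2 : (ε + x) * (1 - 2 * s) ≤ (ε + x) * ‖S.r D'‖ :=
      mul_le_mul_of_nonneg_left hlow (by positivity)
    have e0 : ε + (Real.exp (ε ^ 2 * (n - (0 : ℕ))) - 1) = ε + x := by
      simp only [hxdef, Nat.cast_zero, sub_zero]
    rw [e0]
    refine h1.trans (le_trans ?_ h2)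
    have h3 : 2 * s + 2 * (ε * x) + 2 * s ≤ (ε + x) * (1 - 2 * s) := by
      have : 0 ≤ ε * x := by positivity
      nlinarith
    linarith

theorem ball_bound (hε0 : 0 < ε) (hε1 : ε ≤ 1 / 1000) {j : ℕ} (hj : j ≤ S.J)
    (IH : ∀ i ≤ j, Good S ε i) :
    ∀ d i : ℕ, i + d = j →
      ‖S.r (S.Bd i)‖ ≤ Real.exp (4 * ε * d) * ‖S.r (S.Bd j)‖ := by
  intro d
  induction d with
  | zero =>
    intro i hi
    have : i = j := by omega
    subst this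
    simp
  | succ d ih =>
    intro i hi
    have h1 := ih (i + 1) (by omega)
    obtain ⟨hB1, hk1⟩ := S.hB (i + 1) (by omega)
    obtain ⟨hB0, hk0⟩ := S.hB i (by omega)
    obtain ⟨_, h2⟩ := IH i (by omega) (S.Bd (i + 1)) hB1 (S.Bd i) hB0 hk0 (by omega)
    rw [hk1] at h2
    have e : (((i + 1 : ℕ) : ℝ) - (i : ℕ)) = 1 := by push_cast; ring
    rw [e, mul_one] at h2
    have h3 : Real.exp (ε ^ 2) ≤ 1 + 2 * ε ^ 2 := exp_le_of_small (by positivity) (by nlinarith)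
    have h4 : ‖S.r (S.Bd (i + 1)) - S.r (S.Bd i)‖ ≤ (2 * ε) * ‖S.r (S.Bd i)‖ := by
      refine h2.trans (mul_le_mul_of_nonneg_right ?_ (norm_nonneg _))
      nlinarith
    have h5 : ‖S.r (S.Bd i)‖ ≤ ‖S.r (S.Bd (i + 1))‖ + ‖S.r (S.Bd (i + 1)) - S.r (S.Bd i)‖ := by
      have := norm_sub_le (S.r (S.Bd (i + 1))) (S.r (S.Bd (i + 1)) - S.r (S.Bd i))
      simpa using this
    have h6 : 1 + 4 * ε ≤ Real.exp (4 * ε) := by linarith [Real.add_one_le_exp (4 * ε)]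
    have h7 : ‖S.r (S.Bd i)‖ ≤ Real.exp (4 * ε) * ‖S.r (S.Bd (i + 1))‖ := by
      have h8 : (1 - 2 * ε) * ‖S.r (S.Bd i)‖ ≤ ‖S.r (S.Bd (i + 1))‖ := by linarith
      have h9 : (1 + 4 * ε) * ((1 - 2 * ε) * ‖S.r (S.Bd i)‖) ≤ Real.exp (4 * ε) * ‖S.r (S.Bd (i + 1))‖ :=
        mul_le_mul h6 h8 (mul_nonneg (by linarith) (norm_nonneg _)) (Real.exp_pos _).le
      have h10 : 1 ≤ (1 + 4 * ε) * (1 - 2 * ε) := by nlinarith
      have h11 : 1 * ‖S.r (S.Bd i)‖ ≤ ((1 + 4 * ε) * (1 - 2 * ε)) * ‖S.r (S.Bd i)‖ :=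
        mul_le_mul_of_nonneg_right h10 (norm_nonneg _)
      linarith
    refine h7.trans ?_
    have e2 : Real.exp (4 * ε * ((d + 1 : ℕ) : ℝ)) = Real.exp (4 * ε) * Real.exp (4 * ε * d) := by
      rw [← Real.exp_add]; congr 1; push_cast; ring
    rw [e2, mul_assoc]
    exact mul_le_mul_of_nonneg_left h1 (Real.exp_pos _).le

theorem dom_bound (hε0 : 0 < ε) (hε1 : ε ≤ 1 / 1000) {j : ℕ} (hj : j ≤ S.J)
    (IH : ∀ i ≤ j, Good S ε i) (E : Δ) (hE : E ∈ S.adm) (hk : S.k E ≤ j) :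
    ‖S.r E‖ ≤ (1 + ε) * Real.exp (4 * ε * ((j : ℝ) - S.k E)) * ‖S.r (S.Bd j)‖ := by
  obtain ⟨hB0, hk0⟩ := S.hB (S.k E) (by omega)
  have h1 := ball_bound S hε0 hε1 hj IH (j - S.k E) (S.k E) (by omega)
  obtain ⟨_, h2⟩ := IH (S.k E) hk E hE (S.Bd (S.k E)) hB0 hk0 le_rfl
  rw [sub_self, mul_zero, Real.exp_zero, sub_self, add_zero] at h2
  have h3 : ‖S.r E‖ ≤ ‖S.r (S.Bd (S.k E))‖ + ‖S.r E - S.r (S.Bd (S.k E))‖ := by
    have := norm_add_le (S.r (S.Bd (S.k E))) (S.r E - S.r (S.Bd (S.k E)))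
    simpa using this
  have h4 : ‖S.r E‖ ≤ (1 + ε) * ‖S.r (S.Bd (S.k E))‖ := by linarith
  refine h4.trans ?_
  rw [mul_assoc]
  refine mul_le_mul_of_nonneg_left ?_ (by linarith)
  rw [Nat.cast_sub hk] at h1
  exact h1

theorem diff_bound (hη0 : 0 < η0) (h4 : 4 * ε ≤ η0) (h5 : ε ^ 2 ≤ η0)
    (hε0 : 0 < ε) (hε1 : ε ≤ 1 / 1000) {j : ℕ} (hj : j ≤ S.J)
    (IH : ∀ i ≤ j, Good S ε i) (E E' : Δ) (hE : E ∈ S.adm) (hE' : E' ∈ S.adm)
    (hk : S.k E ≤ j) (hkk : S.k E' ≤ S.k E) :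
    ‖S.r E - S.r E'‖ ≤ (1 + ε) * (ε + (4 * ε ^ 2 + ε ^ 2) / η0
      * Real.exp (2 * η0 * ((j : ℝ) - S.k E'))) * ‖S.r (S.Bd j)‖ := by
  obtain ⟨_, h1⟩ := IH (S.k E') (by omega) E hE E' hE' rfl hkk
  have h2 := dom_bound S hε0 hε1 hj IH E' hE' (by omega)
  set b : ℝ := (j : ℝ) - S.k E' with hb
  have hkj : (S.k E : ℝ) ≤ j := by exact_mod_cast hk
  have hb0 : 0 ≤ b := by
    have : (S.k E' : ℝ) ≤ S.k E := by exact_mod_cast hkk
    simp only [hb]; linarith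
  have h3 := growth_bound hη0 hε0 h4 h5 hb0
  have h6 : ε + (Real.exp (ε ^ 2 * ((S.k E : ℝ) - S.k E')) - 1) ≤ ε + (Real.exp (ε ^ 2 * b) - 1) := by
    have : Real.exp (ε ^ 2 * ((S.k E : ℝ) - S.k E')) ≤ Real.exp (ε ^ 2 * b) := by
      refine Real.exp_le_exp.2 (mul_le_mul_of_nonneg_left ?_ (by positivity))
      simp only [hb]; linarith
    linarith
  have h7 : 0 ≤ ε + (Real.exp (ε ^ 2 * b) - 1) := by
    have := Real.one_le_exp (x := ε ^ 2 * b) (by positivity)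
    linarith
  calc ‖S.r E - S.r E'‖ ≤ (ε + (Real.exp (ε ^ 2 * ((S.k E : ℝ) - S.k E')) - 1)) * ‖S.r E'‖ := h1
    _ ≤ (ε + (Real.exp (ε ^ 2 * b) - 1)) * ((1 + ε) * Real.exp (4 * ε * b) * ‖S.r (S.Bd j)‖) :=
        mul_le_mul h6 h2 (norm_nonneg _) h7
    _ = (1 + ε) * ((ε + (Real.exp (ε ^ 2 * b) - 1)) * Real.exp (4 * ε * b)) * ‖S.r (S.Bd j)‖ := by ring
    _ ≤ _ := by
        refine mul_le_mul_of_nonneg_right ?_ (norm_nonneg _)
        exact mul_le_mul_of_nonneg_left h3 (by linarith)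

end

end Pool.Agent.ZF
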