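import Pool.Agent.ZF.Contract3

/-!
The induction over scales, final step.
-/

namespace Pool.Agent.ZF

open Finset

section
variable {Δ Ω : Type*} {M E0 η0 s ε : ℝ} (S : Sys Δ Ω M E0 η0 s)

/-- the weighted loop ratio -/
def Sys.R (o : Ω) : ℂ := S.om o * S.r (S.dom o)

theorem R_bound (hs : 0 ≤ s) (hε0 : 0 < ε) (hε1 : ε ≤ 1 / 1000) {j : ℕ} (hj : j ≤ S.J)
    (IH : ∀ i ≤ j, Good S ε i) (o : Ω) (ho : o ∈ S.O j) :
    ‖S.R o‖ ≤ (1 + s) * (1 + ε) * Real.exp (4 * ε * ((j : ℝ) - S.k (S.dom o))) * ‖S.r (S.Bd j)‖ := by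
  obtain ⟨hd, hk⟩ := S.hdom j hj o ho
  have h1 := dom_bound S hε0 hε1 hj IH (S.dom o) hd hk
  have h2 : ‖S.om o‖ ≤ 1 + s := by
    have h3 : ‖S.om o‖ ≤ ‖(1 : ℂ)‖ + ‖S.om o - 1‖ := by
      have := norm_add_le (1 : ℂ) (S.om o - 1)
      simpa using this
    rw [norm_one] at h3
    linarith [S.hom o]
  rw [Sys.R, norm_mul]
  calc ‖S.om o‖ * ‖S.r (S.dom o)‖ ≤ (1 + s) * ((1 + ε) * Real.exp (4 * ε * ((j : ℝ) - S.k (S.dom o))) * ‖S.r (S.Bd j)‖) :=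
        mul_le_mul h2 h1 (norm_nonneg _) (by linarith)
    _ = _ := by ring

theorem R_diff (hs : 0 ≤ s) (hη0 : 0 < η0) (h4 : 4 * ε ≤ η0) (h5 : ε ^ 2 ≤ η0)
    (hε0 : 0 < ε) (hε1 : ε ≤ 1 / 1000) {j : ℕ} (hj : j ≤ S.J)
    (IH : ∀ i ≤ j, Good S ε i) (o o' : Ω) (ho : o ∈ S.O j) (ho' : o' ∈ S.O j) :
    ‖S.R o - S.R o'‖ ≤ (1 + ε) * ε * ‖S.r (S.Bd j)‖
      + (1 + ε) * ((4 * ε ^ 2 + ε ^ 2) / η0 + s) * ‖S.r (S.Bd j)‖
          * Real.exp (2 * η0 * ((j : ℝ) - S.k (S.dom o)))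
      + (1 + ε) * ((4 * ε ^ 2 + ε ^ 2) / η0 + s) * ‖S.r (S.Bd j)‖
          * Real.exp (2 * η0 * ((j : ℝ) - S.k (S.dom o'))) := by
  obtain ⟨hd, hk⟩ := S.hdom j hj o ho
  obtain ⟨hd', hk'⟩ := S.hdom j hj o' ho'
  have b1 := dom_bound S hε0 hε1 hj IH (S.dom o) hd hk
  have b2 := dom_bound S hε0 hε1 hj IH (S.dom o') hd' hk'
  set a : ℝ := (j : ℝ) - S.k (S.dom o) with ha
  set b : ℝ := (j : ℝ) - S.k (S.dom o') with hb
  have ha0 : 0 ≤ a := by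
    have : (S.k (S.dom o) : ℝ) ≤ j := by exact_mod_cast hk
    simp only [ha]; linarith
  have hb0 : 0 ≤ b := by
    have : (S.k (S.dom o') : ℝ) ≤ j := by exact_mod_cast hk'
    simp only [hb]; linarith
  set Ea := Real.exp (2 * η0 * a) with hEa
  set Eb := Real.exp (2 * η0 * b) with hEb
  set ρ := ‖S.r (S.Bd j)‖ with hρ
  have hρ0 : 0 ≤ ρ := norm_nonneg _
  have hexa : Real.exp (4 * ε * a) ≤ Ea := by
    refine Real.exp_le_exp.2 (mul_le_mul_of_nonneg_right ?_ ha0)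
    linarith
  have hexb : Real.exp (4 * ε * b) ≤ Eb := by
    refine Real.exp_le_exp.2 (mul_le_mul_of_nonneg_right ?_ hb0)
    linarith
  have c1 : ‖S.r (S.dom o)‖ ≤ (1 + ε) * Ea * ρ :=
    b1.trans (mul_le_mul_of_nonneg_right (mul_le_mul_of_nonneg_left hexa (by linarith)) hρ0)
  have c2 : ‖S.r (S.dom o')‖ ≤ (1 + ε) * Eb * ρ :=
    b2.trans (mul_le_mul_of_nonneg_right (mul_le_mul_of_nonneg_left hexb (by linarith)) hρ0)
  have hEa0 : 0 < Ea := Real.exp_pos _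
  have hEb0 : 0 < Eb := Real.exp_pos _
  have hq : 0 ≤ (4 * ε ^ 2 + ε ^ 2) / η0 := by positivity
  have d1 : ‖S.r (S.dom o) - S.r (S.dom o')‖
      ≤ (1 + ε) * (ε + (4 * ε ^ 2 + ε ^ 2) / η0 * (Ea + Eb)) * ρ := by
    rcases le_total (S.k (S.dom o')) (S.k (S.dom o)) with h | h
    · refine (diff_bound S hη0 h4 h5 hε0 hε1 hj IH _ _ hd hd' hk h).trans ?_
      refine mul_le_mul_of_nonneg_right (mul_le_mul_of_nonneg_left ?_ (by linarith)) hρ0
      have : (4 * ε ^ 2 + ε ^ 2) / η0 * Eb ≤ (4 * ε ^ 2 + ε ^ 2) / η0 * (Ea + Eb) :=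
        mul_le_mul_of_nonneg_left (by linarith) hq
      linarith
    · rw [norm_sub_rev]
      refine (diff_bound S hη0 h4 h5 hε0 hε1 hj IH _ _ hd' hd hk' h).trans ?_
      refine mul_le_mul_of_nonneg_right (mul_le_mul_of_nonneg_left ?_ (by linarith)) hρ0
      have : (4 * ε ^ 2 + ε ^ 2) / η0 * Ea ≤ (4 * ε ^ 2 + ε ^ 2) / η0 * (Ea + Eb) :=
        mul_le_mul_of_nonneg_left (by linarith) hq
      linarith
  have d2 : ‖S.R o - S.R o'‖ ≤ ‖S.r (S.dom o) - S.r (S.dom o')‖ + s * ‖S.r (S.dom o)‖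
      + s * ‖S.r (S.dom o')‖ := by
    have e : S.R o - S.R o' = (S.r (S.dom o) - S.r (S.dom o')) + (S.om o - 1) * S.r (S.dom o)
        - (S.om o' - 1) * S.r (S.dom o') := by
      simp only [Sys.R]; ring
    rw [e]
    refine (norm_sub_le _ _).trans (add_le_add ((norm_add_le _ _).trans (add_le_add le_rfl ?_)) ?_)
    · rw [norm_mul]; exact mul_le_mul_of_nonneg_right (S.hom o) (norm_nonneg _)
    · rw [norm_mul]; exact mul_le_mul_of_nonneg_right (S.hom o') (norm_nonneg _)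
  have e1 : s * ‖S.r (S.dom o)‖ ≤ s * ((1 + ε) * Ea * ρ) := mul_le_mul_of_nonneg_left c1 hs
  have e2 : s * ‖S.r (S.dom o')‖ ≤ s * ((1 + ε) * Eb * ρ) := mul_le_mul_of_nonneg_left c2 hs
  calc ‖S.R o - S.R o'‖ ≤ _ := d2
    _ ≤ (1 + ε) * (ε + (4 * ε ^ 2 + ε ^ 2) / η0 * (Ea + Eb)) * ρ + s * ((1 + ε) * Ea * ρ)
        + s * ((1 + ε) * Eb * ρ) := add_le_add (add_le_add d1 e1) e2
    _ = _ := by ring

theorem err_bound (hM : 1 ≤ M) (hs : 0 ≤ s) (h4 : 4 * ε ≤ η0)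
    (hε0 : 0 < ε) (hε1 : ε ≤ 1 / 1000) {j : ℕ} (hj : j ≤ S.J)
    (IH : ∀ i ≤ j, Good S ε i) (p : Ω → ℝ) (ρ : Ω → ℂ) (e : ℝ) (he : 0 ≤ e)
    (hp : ∀ o ∈ S.O j, M⁻¹ * S.ν j o ≤ p o ∧ p o ≤ M * S.ν j o)
    (hρ : ∀ o ∈ S.O j, ‖ρ o - 1‖ ≤ e) :
    ‖∑ o ∈ S.O j, (p o : ℂ) * (ρ o - 1) * S.R o‖
      ≤ e * ((1 + s) * (1 + ε) * (M * E0)) * ‖S.r (S.Bd j)‖ := by
  have hM0 : 0 < M := by linarith
  refine (norm_sum_le _ _).trans ?_
  have h1 : ∀ o ∈ S.O j, ‖(p o : ℂ) * (ρ o - 1) * S.R o‖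
      ≤ (e * ((1 + s) * (1 + ε) * M) * ‖S.r (S.Bd j)‖)
        * (S.ν j o * Real.exp (2 * η0 * ((j : ℝ) - S.k (S.dom o)))) := by
    intro o ho
    have hR := R_bound S hs hε0 hε1 hj IH o ho
    obtain ⟨hd, hk⟩ := S.hdom j hj o ho
    have hν := S.hν0 j hj o ho
    have hp0 : 0 ≤ p o := le_trans (mul_nonneg (by positivity) hν) (hp o ho).1
    have ha0 : 0 ≤ (j : ℝ) - S.k (S.dom o) := by
      have : (S.k (S.dom o) : ℝ) ≤ j := by exact_mod_cast hk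
      linarith
    have hexa : Real.exp (4 * ε * ((j : ℝ) - S.k (S.dom o)))
        ≤ Real.exp (2 * η0 * ((j : ℝ) - S.k (S.dom o))) := by
      refine Real.exp_le_exp.2 (mul_le_mul_of_nonneg_right ?_ ha0)
      linarith
    rw [norm_mul, norm_mul, Complex.norm_real, Real.norm_eq_abs, abs_of_nonneg hp0]
    have h2 : p o * ‖ρ o - 1‖ ≤ (M * S.ν j o) * e :=
      mul_le_mul (hp o ho).2 (hρ o ho) (norm_nonneg _) (mul_nonneg hM0.le hν)
    have h3 : ‖S.R o‖ ≤ (1 + s) * (1 + ε) * Real.exp (2 * η0 * ((j : ℝ) - S.k (S.dom o)))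
        * ‖S.r (S.Bd j)‖ := by
      refine hR.trans (mul_le_mul_of_nonneg_right ?_ (norm_nonneg _))
      exact mul_le_mul_of_nonneg_left hexa (by positivity)
    calc p o * ‖ρ o - 1‖ * ‖S.R o‖ ≤ ((M * S.ν j o) * e) *
          ((1 + s) * (1 + ε) * Real.exp (2 * η0 * ((j : ℝ) - S.k (S.dom o))) * ‖S.r (S.Bd j)‖) :=
          mul_le_mul h2 h3 (norm_nonneg _) (by positivity)
      _ = _ := by ring
  refine (Finset.sum_le_sum h1).trans ?_
  rw [← Finset.mul_sum]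
  have h5 := S.hmom j hj
  calc (e * ((1 + s) * (1 + ε) * M) * ‖S.r (S.Bd j)‖) * ∑ o ∈ S.O j, S.ν j o * Real.exp (2 * η0 * ((j : ℝ) - S.k (S.dom o)))
      ≤ (e * ((1 + s) * (1 + ε) * M) * ‖S.r (S.Bd j)‖) * E0 :=
        mul_le_mul_of_nonneg_left h5 (by positivity)
    _ = _ := by ring

theorem good_succ (hM : 1 ≤ M) (hE : 1 ≤ E0) (hη0 : 0 < η0)
    (hη1 : η0 ≤ 1) (hε : ε * (1000 * M ^ 2 * E0) = η0) (hs : 0 ≤ s) (hs1 : s ≤ ε ^ 3)
    (j : ℕ) (IH : ∀ i ≤ j, Good S ε i) : Good S ε (j + 1) := by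
  obtain ⟨hε0, hε1, h4, h5, h6, h7, h8⟩ := consts hM hE hη0 hη1 hε hs hs1
  intro D hD D' hD' hk' hmk
  have hM0 : 0 < M := by linarith
  have hE0 : 0 < E0 := by linarith
  have hjJ : j + 1 ≤ S.J := by rw [← hk']; exact S.hkJ D' hD'
  have hj : j ≤ S.J := by omega
  obtain ⟨hBj, hkBj⟩ := S.hB j hj
  -- comparison of D' and Bd j
  obtain ⟨hBne, hc⟩ := IH j le_rfl D' hD' (S.Bd j) hBj hkBj (by omega)
  rw [hk'] at hc
  have e1 : (((j + 1 : ℕ) : ℝ) - (j : ℕ)) = 1 := by push_cast; ring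
  rw [e1, mul_one] at hc
  set ρ := ‖S.r (S.Bd j)‖ with hρ
  have hρ0 : 0 < ρ := norm_pos_iff.2 hBne
  have h9 : Real.exp (ε ^ 2) ≤ 1 + 2 * ε ^ 2 := exp_le_of_small (by positivity) (by nlinarith)
  have hc2 : ‖S.r D' - S.r (S.Bd j)‖ ≤ (2 * ε) * ρ := by
    refine hc.trans (mul_le_mul_of_nonneg_right ?_ (norm_nonneg _))
    nlinarith
  have hlow : (1 - 2 * ε) * ρ ≤ ‖S.r D'‖ := by
    have : ρ ≤ ‖S.r D'‖ + ‖S.r D' - S.r (S.Bd j)‖ := by
      have := norm_sub_le (S.r D') (S.r D' - S.r (S.Bd j))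
      simpa using this
    linarith
  have hlow2 : ρ ≤ (1 + 4 * ε) * ‖S.r D'‖ := by
    have h10 : 1 ≤ (1 + 4 * ε) * (1 - 2 * ε) := by nlinarith
    have h11 : (1 + 4 * ε) * ((1 - 2 * ε) * ρ) ≤ (1 + 4 * ε) * ‖S.r D'‖ :=
      mul_le_mul_of_nonneg_left hlow (by linarith)
    have h12 : 1 * ρ ≤ ((1 + 4 * ε) * (1 - 2 * ε)) * ρ := mul_le_mul_of_nonneg_right h10 hρ0.le
    linarith
  refine ⟨?_, ?_⟩
  · intro h0
    rw [h0, norm_zero] at hlow2
    linarith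
  · obtain ⟨p, σ, hp, hp1, hσ, hr⟩ := S.hexp D hD j hmk
    obtain ⟨p', σ', hp', hp1', hσ', hr'⟩ := S.hexp D' hD' j (by omega)
    set n : ℝ := (S.k D : ℝ) - (j + 1 : ℕ) with hn
    have hn0 : 0 ≤ n := by
      have : ((j + 1 : ℕ) : ℝ) ≤ S.k D := by exact_mod_cast hmk
      simp only [hn]; linarith
    have eD : (S.k D : ℝ) - j + 1 = n + 2 := by simp only [hn]; push_cast; ring
    have eD' : (S.k D' : ℝ) - j + 1 = 2 := by rw [hk']; push_cast; ring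
    have hsplit : S.r D - S.r D' = ∑ o ∈ S.O j, ((p o : ℂ) - p' o) * S.R o
        + ∑ o ∈ S.O j, (p o : ℂ) * (σ o - 1) * S.R o
        - ∑ o ∈ S.O j, (p' o : ℂ) * (σ' o - 1) * S.R o := by
      rw [hr, hr', ← Finset.sum_sub_distrib, ← Finset.sum_add_distrib, ← Finset.sum_sub_distrib]
      refine Finset.sum_congr rfl fun o _ => ?_
      simp only [Sys.R]; ring
    have hx0 : 0 ≤ Real.exp (ε ^ 2 * n) - 1 := by
      have := Real.one_le_exp (x := ε ^ 2 * n) (by positivity)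
      linarith
    have hy0 : 0 ≤ Real.exp (s * n) - 1 := by
      have := Real.one_le_exp (x := s * n) (by positivity)
      linarith
    have hy : Real.exp (s * n) - 1 ≤ (s / ε ^ 2) * (Real.exp (ε ^ 2 * n) - 1) :=
      exp_sub_one_le hs h6 (by positivity) hn0
    have h2s : 0 ≤ Real.exp (2 * s) - 1 := by
      have := Real.one_le_exp (x := 2 * s) (by positivity)
      linarith
    -- the three bounds
    have B1 : ‖∑ o ∈ S.O j, ((p o : ℂ) - p' o) * S.R o‖ ≤ (1 - M⁻¹) * ((1 + ε) * ε * ρ)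
        + 2 * M * ∑ o ∈ S.O j, S.ν j o * ((1 + ε) * ((4 * ε ^ 2 + ε ^ 2) / η0 + s) * ρ
          * Real.exp (2 * η0 * ((j : ℝ) - S.k (S.dom o)))) := by
      refine mix (S.O j) p p' (S.ν j) S.R M _ _ hM (by positivity) ?_ ?_ (S.hν0 j hj) (S.hν1 j hj)
        hp hp1 hp' hp1'
      · intro o _
        positivity
      · intro o ho o' ho'
        exact R_diff S hs hη0 h4 h5 hε0 hε1 hj IH o o' ho ho'
    have B1' : ∑ o ∈ S.O j, S.ν j o * ((1 + ε) * ((4 * ε ^ 2 + ε ^ 2) / η0 + s) * ρ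
          * Real.exp (2 * η0 * ((j : ℝ) - S.k (S.dom o))))
        ≤ ((1 + ε) * ((4 * ε ^ 2 + ε ^ 2) / η0 + s) * ρ) * E0 := by
      have e : ∑ o ∈ S.O j, S.ν j o * ((1 + ε) * ((4 * ε ^ 2 + ε ^ 2) / η0 + s) * ρ
          * Real.exp (2 * η0 * ((j : ℝ) - S.k (S.dom o))))
          = ((1 + ε) * ((4 * ε ^ 2 + ε ^ 2) / η0 + s) * ρ)
            * ∑ o ∈ S.O j, S.ν j o * Real.exp (2 * η0 * ((j : ℝ) - S.k (S.dom o))) := by
        rw [Finset.mul_sum]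
        refine Finset.sum_congr rfl fun o _ => ?_
        ring
      rw [e]
      exact mul_le_mul_of_nonneg_left (S.hmom j hj) (by positivity)
    have hye : Real.exp (s * (n + 2)) - 1
        = (Real.exp (2 * s) - 1) + Real.exp (2 * s) * (Real.exp (s * n) - 1) := by
      have : Real.exp (s * (n + 2)) = Real.exp (2 * s) * Real.exp (s * n) := by
        rw [← Real.exp_add]; congr 1; ring
      rw [this]; ring
    have B2 : ‖∑ o ∈ S.O j, (p o : ℂ) * (σ o - 1) * S.R o‖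
        ≤ ((Real.exp (2 * s) - 1) + Real.exp (2 * s) * (Real.exp (s * n) - 1))
          * ((1 + s) * (1 + ε) * (M * E0)) * ρ := by
      refine err_bound S hM hs h4 hε0 hε1 hj IH p σ _ ?_ hp ?_
      · have : 0 ≤ Real.exp (2 * s) * (Real.exp (s * n) - 1) := mul_nonneg (Real.exp_pos _).le hy0
        linarith
      · intro o ho
        have := hσ o ho
        rw [eD, hye] at this
        exact this
    have B3 : ‖∑ o ∈ S.O j, (p' o : ℂ) * (σ' o - 1) * S.R o‖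
        ≤ (Real.exp (2 * s) - 1) * ((1 + s) * (1 + ε) * (M * E0)) * ρ := by
      refine err_bound S hM hs h4 hε0 hε1 hj IH p' σ' _ h2s hp' ?_
      intro o ho
      have := hσ' o ho
      rw [eD'] at this
      have e : s * 2 = 2 * s := by ring
      rw [e] at this
      exact this
    have hT := scalar_ineq (x := Real.exp (ε ^ 2 * n) - 1) (y := Real.exp (s * n) - 1)
      hM hE hη0 hη1 hε hs hs1 hx0 hy hy0
    have htot : ‖S.r D - S.r D'‖ ≤ ((1 - M⁻¹) * ((1 + ε) * ε)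
        + 2 * M * (((1 + ε) * ((4 * ε ^ 2 + ε ^ 2) / η0 + s)) * E0)
        + ((Real.exp (2 * s) - 1) + Real.exp (2 * s) * (Real.exp (s * n) - 1)
          + (Real.exp (2 * s) - 1)) * ((1 + s) * (1 + ε) * (M * E0))) * ρ := by
      rw [hsplit]
      refine (norm_sub_le _ _).trans ?_
      refine (add_le_add ((norm_add_le _ _).trans (add_le_add B1 B2)) B3).trans ?_
      have : 2 * M * ∑ o ∈ S.O j, S.ν j o * ((1 + ε) * ((4 * ε ^ 2 + ε ^ 2) / η0 + s) * ρ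
          * Real.exp (2 * η0 * ((j : ℝ) - S.k (S.dom o))))
          ≤ 2 * M * (((1 + ε) * ((4 * ε ^ 2 + ε ^ 2) / η0 + s) * ρ) * E0) :=
        mul_le_mul_of_nonneg_left B1' (by linarith)
      calc _ ≤ (1 - M⁻¹) * ((1 + ε) * ε * ρ)
            + 2 * M * (((1 + ε) * ((4 * ε ^ 2 + ε ^ 2) / η0 + s) * ρ) * E0)
            + ((Real.exp (2 * s) - 1) + Real.exp (2 * s) * (Real.exp (s * n) - 1))
              * ((1 + s) * (1 + ε) * (M * E0)) * ρ
            + (Real.exp (2 * s) - 1) * ((1 + s) * (1 + ε) * (M * E0)) * ρ := by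
              linarith
        _ = _ := by ring
    have hTpos : 0 ≤ (1 - M⁻¹) * ((1 + ε) * ε)
        + 2 * M * (((1 + ε) * ((4 * ε ^ 2 + ε ^ 2) / η0 + s)) * E0)
        + ((Real.exp (2 * s) - 1) + Real.exp (2 * s) * (Real.exp (s * n) - 1)
          + (Real.exp (2 * s) - 1)) * ((1 + s) * (1 + ε) * (M * E0)) := by
      have : 0 ≤ 1 - M⁻¹ := by
        have := inv_le_one_of_one_le₀ hM
        linarith
      have h3 : 0 ≤ Real.exp (2 * s) * (Real.exp (s * n) - 1) := mul_nonneg (Real.exp_pos _).le hy0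
      have h4' : 0 ≤ (Real.exp (2 * s) - 1) + Real.exp (2 * s) * (Real.exp (s * n) - 1)
          + (Real.exp (2 * s) - 1) := by linarith
      positivity
    calc ‖S.r D - S.r D'‖ ≤ _ := htot
      _ ≤ ((1 - M⁻¹) * ((1 + ε) * ε)
        + 2 * M * (((1 + ε) * ((4 * ε ^ 2 + ε ^ 2) / η0 + s)) * E0)
        + ((Real.exp (2 * s) - 1) + Real.exp (2 * s) * (Real.exp (s * n) - 1)
          + (Real.exp (2 * s) - 1)) * ((1 + s) * (1 + ε) * (M * E0))) * ((1 + 4 * ε) * ‖S.r D'‖) :=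
          mul_le_mul_of_nonneg_left hlow2 hTpos
      _ = ((1 + 4 * ε) * ((1 - M⁻¹) * ((1 + ε) * ε)
        + 2 * M * (((1 + ε) * ((4 * ε ^ 2 + ε ^ 2) / η0 + s)) * E0)
        + ((Real.exp (2 * s) - 1) + Real.exp (2 * s) * (Real.exp (s * n) - 1)
          + (Real.exp (2 * s) - 1)) * ((1 + s) * (1 + ε) * (M * E0)))) * ‖S.r D'‖ := by ring
      _ ≤ (ε + (Real.exp (ε ^ 2 * n) - 1)) * ‖S.r D'‖ :=
          mul_le_mul_of_nonneg_right hT (norm_nonneg _)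

/-- **Main estimate**: the ratio `r` varies slowly with the scale and never vanishes. -/
theorem good_all (hM : 1 ≤ M) (hE : 1 ≤ E0) (hη0 : 0 < η0)
    (hη1 : η0 ≤ 1) (hε : ε * (1000 * M ^ 2 * E0) = η0) (hs : 0 ≤ s) (hs1 : s ≤ ε ^ 3) (m : ℕ) :
    Good S ε m := by
  induction m using Nat.strong_induction_on with
  | _ m ih =>
    rcases m with _ | j
    · exact good_zero S hM hE hη0 hη1 hε hs hs1
    · exact good_succ S hM hE hη0 hη1 hε hs hs1 j fun i hi => ih i (by omega)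

end

end Pool.Agent.ZF
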