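import Pool.Agent.ZF.Main

/-!
Zero-freeness of chain sums with levels, near the positive real axis: final statement.
-/

namespace Pool.Agent.ZF

open Finset
open scoped Classical

variable {P : Type*} [PartialOrder P]
variable {J : ℕ} {B : ℕ → Finset P} {w : P → ℝ} {C0 c0 : ℝ}

/-- factor of the decomposition -/
noncomputable def omf (P : Type*) (z : ℂ) (x : ℝ) : Option P → ℂ
  | none => 1
  | some _ => z / x

namespace Lev

set_option linter.unusedSectionVars false
variable (L : Lev J B w C0 c0)

section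
variable {x a X : ℝ}

theorem uu_nonneg (L : Lev J B w C0 c0) (hx : 0 ≤ x) (o : Option P) :
    0 ≤ uu (fun l => x * w l) B J o := by
  rcases o with _ | l
  · simp [uu]
  · simp only [uu]
    exact mul_nonneg (L.vnn hx l) (zero_le_one.trans (one_le_Zf _ (L.vnn hx) _))

theorem low_dm (L : Lev J B w C0 c0) (o : Option P) : Low B J (dm B J o) := by
  rcases o with _ | l
  · exact L.low_empty
  · exact L.low_int l

theorem ratio_bound (L : Lev J B w C0 c0) (hx : 0 < x) {z : ℂ} {t : ℝ} (ht0 : 0 ≤ t)
    (ht : ‖z - x‖ ≤ t) (Q : Finset P) :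
    ‖Zf (fun l => z * (w l : ℂ)) Q / ((Zf (fun l => x * w l) Q : ℝ) : ℂ) - 1‖
      ≤ Real.exp (t * ∑ l ∈ Q, w l) - 1 := by
  have hZ : 0 < Zf (fun l => x * w l) Q := zero_lt_one.trans_le (one_le_Zf _ (L.vnn hx.le) _)
  have hZc : ((Zf (fun l => x * w l) Q : ℝ) : ℂ) ≠ 0 := by exact_mod_cast hZ.ne'
  have h1 := norm_Zf_sub_le (fun l => z * (w l : ℂ)) (fun l => x * w l) (fun l => t * w l)
    (L.vnn hx.le) (L.vnn ht0) (fun l => by
      have e : z * (w l : ℂ) - ((x * w l : ℝ) : ℂ) = (z - x) * (w l : ℂ) := by push_cast; ring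
      rw [e, norm_mul, Complex.norm_real, Real.norm_eq_abs, abs_of_nonneg (L.w0 l)]
      exact mul_le_mul_of_nonneg_right ht (L.w0 l)) Q
  have e : Zf (fun l => z * (w l : ℂ)) Q / ((Zf (fun l => x * w l) Q : ℝ) : ℂ) - 1
      = (Zf (fun l => z * (w l : ℂ)) Q - ((Zf (fun l => x * w l) Q : ℝ) : ℂ))
        / ((Zf (fun l => x * w l) Q : ℝ) : ℂ) := by
    field_simp
  rw [e, norm_div, Complex.norm_real, Real.norm_eq_abs, abs_of_pos hZ, div_le_iff₀ hZ,
    Finset.mul_sum]
  exact h1

theorem expansion (L : Lev J B w C0 c0) (hx : 0 < x) {z : ℂ} {D : Finset P} (hD : Low B J D)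
    {j : ℕ} (hj : j + 1 ≤ sc B J D) :
    Zf (fun l => z * (w l : ℂ)) D / ((Zf (fun l => x * w l) D : ℝ) : ℂ)
      = ∑ o ∈ insertNone (B j),
        (((uu (fun l => x * w l) B J o * Zf (fun l => x * w l) (ab D (B j) o)
            / Zf (fun l => x * w l) D : ℝ) : ℂ)
          * (Zf (fun l => z * (w l : ℂ)) (ab D (B j) o)
              / ((Zf (fun l => x * w l) (ab D (B j) o) : ℝ) : ℂ))
          * omf P z x o
          * (Zf (fun l => z * (w l : ℂ)) (dm B J o) / ((Zf (fun l => x * w l) (dm B J o) : ℝ) : ℂ))) := by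
  have hpos : ∀ Q : Finset P, 0 < Zf (fun l => x * w l) Q := fun Q =>
    zero_lt_one.trans_le (one_le_Zf _ (L.vnn hx.le) _)
  have hne : ∀ Q : Finset P, ((Zf (fun l => x * w l) Q : ℝ) : ℂ) ≠ 0 := fun Q => by
    exact_mod_cast (hpos Q).ne'
  have hxc : (x : ℂ) ≠ 0 := by exact_mod_cast hx.ne'
  rw [L.decomp (fun l => z * (w l : ℂ)) hD (j := j) (by omega), Finset.sum_div]
  refine Finset.sum_congr rfl fun o _ => ?_
  rcases o with _ | l
  · simp only [uu, dm, omf, Zf_empty, one_mul, mul_one, Complex.ofReal_one, div_one]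
    have h1 := hne D
    have h2 := hne (ab D (B j) none)
    push_cast
    field_simp
  · simp only [uu, dm, omf]
    have h1 := hne D
    have h2 := hne (ab D (B j) (some l))
    have h3 := hne (int B J l)
    push_cast
    field_simp

/-- the abstract system attached to levels and to `z` near `x` -/
noncomputable def sys (L : Lev J B w C0 c0) (hc0 : 0 < c0) (ha : 0 < a) (hax : a ≤ x)
    (hxX : x ≤ X) {η0 θ : ℝ} (hθ0 : 0 ≤ θ) (hθ1 : θ < 1)
    (hη : Real.exp (2 * η0) = θ * (1 + a * c0)) (hη0 : 0 < η0)
    {z : ℂ} {t s : ℝ} (ht0 : 0 ≤ t) (ht : ‖z - x‖ ≤ t) (hs1 : t * C0 ≤ s) (hs2 : t / a ≤ s) :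
    Sys (Finset P) (Option P) (Real.exp (X * C0))
      (1 + X * C0 * Real.exp (X * C0) * (1 / (1 - θ))) η0 s where
  adm := {D | Low B J D}
  k := sc B J
  r := fun D => Zf (fun l => z * (w l : ℂ)) D / ((Zf (fun l => x * w l) D : ℝ) : ℂ)
  Bd := B
  J := J
  O := fun j => insertNone (B j)
  dom := dm B J
  om := omf P z x
  ν := fun j o => uu (fun l => x * w l) B J o / Zf (fun l => x * w l) (B j)
  hB := fun j hj => ⟨L.low_B hj, L.sc_B hc0 hj⟩
  hkJ := fun D _ => L.sc_le D
  hdom := by
    intro j hj o ho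
    refine ⟨L.low_dm o, ?_⟩
    rcases o with _ | l
    · -- scale of the empty set
      have h1 : B (sc B J (∅ : Finset P)) ⊆ B j := (L.sc_spec ∅).trans (empty_subset _)
      have h2 := L.le_sc (L.sc_le ∅) h1
      rw [L.sc_B hc0 hj] at h2
      exact h2
    · have hl : l ∈ B j := by simpa using ho
      exact (L.sc_int_lt hj hl).le
  hom := by
    intro o
    have hx : 0 < x := ha.trans_le hax
    have hs : 0 ≤ s := le_trans (div_nonneg ht0 ha.le) hs2
    rcases o with _ | l
    · simpa [omf] using hs
    · simp only [omf]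
      have hxc : (x : ℂ) ≠ 0 := by exact_mod_cast hx.ne'
      have e : z / (x : ℂ) - 1 = (z - x) / x := by field_simp
      rw [e, norm_div, Complex.norm_real, Real.norm_eq_abs, abs_of_pos hx]
      refine le_trans ?_ hs2
      exact div_le_div₀ ht0 ht ha hax
  hν0 := by
    intro j _ o _
    have hx : 0 < x := ha.trans_le hax
    exact div_nonneg (L.uu_nonneg hx.le o) (zero_le_one.trans (one_le_Zf _ (L.vnn hx.le) _))
  hν1 := by
    intro j hj
    have hx : 0 < x := ha.trans_le hax
    have hZ : 0 < Zf (fun l => x * w l) (B j) := zero_lt_one.trans_le (one_le_Zf _ (L.vnn hx.le) _)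
    rw [← Finset.sum_div, L.sum_uu _ hj, div_self hZ.ne']
  hmom := fun j hj => L.moment ha hax hxX hc0 hθ0 hθ1 hη hη0 hj
  hexp := by
    intro D hD j hj
    have hx : 0 < x := ha.trans_le hax
    have hjJ : j + 1 ≤ J := hj.trans (L.sc_le D)
    have hX : 0 ≤ X := hx.le.trans hxX
    have hpos : ∀ Q : Finset P, 0 < Zf (fun l => x * w l) Q := fun Q =>
      zero_lt_one.trans_le (one_le_Zf _ (L.vnn hx.le) _)
    have hA : 0 < AA (fun l => x * w l) B D j := hpos _
    have hE : 0 < Real.exp (X * C0) := Real.exp_pos _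
    -- bounds for the total
    have hdec := L.decomp (fun l => x * w l) hD (j := j) (by omega)
    have hlow : AA (fun l => x * w l) B D j * Zf (fun l => x * w l) (B j)
        ≤ Zf (fun l => x * w l) D := by
      rw [hdec, ← L.sum_uu (fun l => x * w l) (j := j) (by omega), Finset.mul_sum]
      refine Finset.sum_le_sum fun o ho => ?_
      rw [mul_comm]
      exact mul_le_mul_of_nonneg_left (L.G_low hx.le hjJ ho) (L.uu_nonneg hx.le o)
    have hup : Zf (fun l => x * w l) D
        ≤ AA (fun l => x * w l) B D j * Real.exp (X * C0) * Zf (fun l => x * w l) (B j) := by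
      rw [hdec, ← L.sum_uu (fun l => x * w l) (j := j) (by omega), Finset.mul_sum]
      refine Finset.sum_le_sum fun o ho => ?_
      rw [mul_comm]
      exact mul_le_mul_of_nonneg_right (L.G_up hx.le hxX hD hjJ o) (L.uu_nonneg hx.le o)
    refine ⟨fun o => uu (fun l => x * w l) B J o * Zf (fun l => x * w l) (ab D (B j) o)
            / Zf (fun l => x * w l) D,
      fun o => Zf (fun l => z * (w l : ℂ)) (ab D (B j) o)
              / ((Zf (fun l => x * w l) (ab D (B j) o) : ℝ) : ℂ), ?_, ?_, ?_, ?_⟩
    · intro o ho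
      have hu := L.uu_nonneg hx.le o
      have g1 := L.G_low (D := D) hx.le hjJ ho
      have g2 := L.G_up hx.le hxX hD hjJ o
      have hD' := hpos D
      have hBj := hpos (B j)
      constructor
      · rw [inv_mul_le_iff₀ hE, div_le_iff₀ hBj]
        have h1 : uu (fun l => x * w l) B J o * Zf (fun l => x * w l) D
            ≤ uu (fun l => x * w l) B J o
              * (Zf (fun l => x * w l) (ab D (B j) o) * Real.exp (X * C0) * Zf (fun l => x * w l) (B j)) := by
          refine mul_le_mul_of_nonneg_left (hup.trans ?_) hu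
          exact mul_le_mul_of_nonneg_right (mul_le_mul_of_nonneg_right g1 hE.le) hBj.le
        have h2 : Real.exp (X * C0) * (uu (fun l => x * w l) B J o
            * Zf (fun l => x * w l) (ab D (B j) o) / Zf (fun l => x * w l) D)
            * Zf (fun l => x * w l) (B j)
            = uu (fun l => x * w l) B J o
              * (Zf (fun l => x * w l) (ab D (B j) o) * Real.exp (X * C0) * Zf (fun l => x * w l) (B j))
                / Zf (fun l => x * w l) D := by ring
        rw [h2, le_div_iff₀ hD']
        exact h1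
      · rw [div_le_iff₀ hD']
        have h1 : uu (fun l => x * w l) B J o * Zf (fun l => x * w l) (ab D (B j) o)
            * Zf (fun l => x * w l) (B j)
            ≤ uu (fun l => x * w l) B J o * Real.exp (X * C0) * Zf (fun l => x * w l) D := by
          calc uu (fun l => x * w l) B J o * Zf (fun l => x * w l) (ab D (B j) o)
              * Zf (fun l => x * w l) (B j)
              ≤ uu (fun l => x * w l) B J o * (AA (fun l => x * w l) B D j * Real.exp (X * C0))
                * Zf (fun l => x * w l) (B j) :=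
                mul_le_mul_of_nonneg_right (mul_le_mul_of_nonneg_left g2 hu) hBj.le
            _ = uu (fun l => x * w l) B J o * Real.exp (X * C0)
                * (AA (fun l => x * w l) B D j * Zf (fun l => x * w l) (B j)) := by ring
            _ ≤ _ := mul_le_mul_of_nonneg_left hlow (by positivity)
        have h2 : Real.exp (X * C0) * (uu (fun l => x * w l) B J o / Zf (fun l => x * w l) (B j))
            * Zf (fun l => x * w l) D
            = (uu (fun l => x * w l) B J o * Real.exp (X * C0) * Zf (fun l => x * w l) D)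
              / Zf (fun l => x * w l) (B j) := by ring
        rw [h2, le_div_iff₀ hBj]
        exact h1
    · rw [← Finset.sum_div, ← hdec, div_self (hpos D).ne']
    · intro o _
      refine (L.ratio_bound hx ht0 ht _).trans ?_
      have h1 : ∑ l ∈ ab D (B j) o, w l ≤ C0 * ((sc B J D : ℝ) - j + 1) := by
        refine le_trans ?_ (L.cross_sum hD (j := j) (by omega))
        refine Finset.sum_le_sum_of_subset_of_nonneg ?_ fun l _ _ => L.w0 l
        rcases o with _ | l
        · exact subset_rfl
        · exact filter_subset _ _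
      have h2 : t * ∑ l ∈ ab D (B j) o, w l ≤ s * ((sc B J D : ℝ) - j + 1) := by
        calc t * ∑ l ∈ ab D (B j) o, w l ≤ t * (C0 * ((sc B J D : ℝ) - j + 1)) :=
              mul_le_mul_of_nonneg_left h1 ht0
          _ = (t * C0) * ((sc B J D : ℝ) - j + 1) := by ring
          _ ≤ s * ((sc B J D : ℝ) - j + 1) := by
              refine mul_le_mul_of_nonneg_right hs1 ?_
              have : ((j + 1 : ℕ) : ℝ) ≤ sc B J D := by exact_mod_cast hj
              push_cast at this
              linarith
      linarith [Real.exp_le_exp.2 h2]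
    · exact L.expansion hx hD hj
  hcr := by
    intro D hD
    have hx : 0 < x := ha.trans_le hax
    refine (L.ratio_bound hx ht0 ht D).trans ?_
    have h1 := L.cross_sum hD (j := 0) (Nat.zero_le _)
    rw [L.B0, sdiff_empty, Nat.cast_zero, sub_zero] at h1
    have h2 : t * ∑ l ∈ D, w l ≤ s * ((sc B J D : ℝ) + 1) := by
      calc t * ∑ l ∈ D, w l ≤ t * (C0 * ((sc B J D : ℝ) + 1)) :=
            mul_le_mul_of_nonneg_left h1 ht0
        _ = (t * C0) * ((sc B J D : ℝ) + 1) := by ring
        _ ≤ s * ((sc B J D : ℝ) + 1) := mul_le_mul_of_nonneg_right hs1 (by positivity)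
    linarith [Real.exp_le_exp.2 h2]

end

end Lev

end Pool.Agent.ZF
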