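import Pool.Agent.ZF.Perturb

/-!
Levels: nested down sets `B 0 = ∅ ⊆ B 1 ⊆ ... ⊆ B J`, weights, conditions (E1) and (E2).
-/

namespace Pool.Agent.ZF

open Finset
open scoped Classical

variable {P : Type*} [PartialOrder P]

theorem sum_biUnion_le' {ι α : Type*} (I : Finset ι) (T : ι → Finset α) (w : α → ℝ)
    (hw : ∀ l, 0 ≤ w l) : ∑ l ∈ I.biUnion T, w l ≤ ∑ i ∈ I, ∑ l ∈ T i, w l := by
  induction I using Finset.induction_on with
  | empty => simp
  | insert a I ha ih =>
    rw [Finset.biUnion_insert, Finset.sum_insert ha]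
    have h1 := Finset.sum_union_inter (s₁ := T a) (s₂ := I.biUnion T) (f := w)
    have h2 : 0 ≤ ∑ l ∈ T a ∩ I.biUnion T, w l := Finset.sum_nonneg fun l _ => hw l
    linarith

/-- elements of `B J` crossing level `i`: neither inside `B i` nor above all of `B (i+1)` -/
noncomputable def cross (B : ℕ → Finset P) (J i : ℕ) : Finset P :=
  (B J).filter fun l => l ∉ B i ∧ ¬ ∀ b ∈ B (i + 1), b < l

/-- elements of the shell between `B i` and `B (i+1)`: inside `B (i+1)`, above all of `B i` -/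
noncomputable def shell (B : ℕ → Finset P) (i : ℕ) : Finset P :=
  (B (i + 1)).filter fun l => ∀ b ∈ B i, b < l

/-- A system of levels. -/
structure Lev (J : ℕ) (B : ℕ → Finset P) (w : P → ℝ) (C0 c0 : ℝ) : Prop where
  hC0 : 0 ≤ C0
  w0 : ∀ l, 0 ≤ w l
  B0 : B 0 = ∅
  mono : ∀ i < J, B i ⊆ B (i + 1)
  low : ∀ i ≤ J, ∀ l ∈ B i, ∀ l' ∈ B J, l' < l → l' ∈ B i
  E1 : ∀ i < J, ∑ l ∈ cross B J i, w l ≤ C0
  E2 : ∀ i < J, c0 ≤ ∑ l ∈ shell B i, w l

/-- down sets inside `B J` -/
def Low (B : ℕ → Finset P) (J : ℕ) (D : Finset P) : Prop :=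
  D ⊆ B J ∧ ∀ l ∈ D, ∀ l' ∈ B J, l' < l → l' ∈ D

/-- the inside of `l` -/
noncomputable def int (B : ℕ → Finset P) (J : ℕ) (l : P) : Finset P := (B J).filter (· < l)

/-- the scale of a set: the largest `k ≤ J` with `B k ⊆ D` -/
noncomputable def sc (B : ℕ → Finset P) (J : ℕ) (D : Finset P) : ℕ :=
  Nat.findGreatest (fun i => B i ⊆ D) J

variable {J : ℕ} {B : ℕ → Finset P} {w : P → ℝ} {C0 c0 : ℝ}

namespace Lev

set_option linter.unusedSectionVars false
variable (L : Lev J B w C0 c0)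
include L

theorem mono' {i i' : ℕ} (h : i ≤ i') (h' : i' ≤ J) : B i ⊆ B i' := by
  induction i', h using Nat.le_induction with
  | base => exact subset_rfl
  | succ n _ ih => exact (ih (by omega)).trans (L.mono n (by omega))

theorem sc_le (D : Finset P) : sc B J D ≤ J := Nat.findGreatest_le _

theorem sc_spec (D : Finset P) : B (sc B J D) ⊆ D := by
  have : (fun i => B i ⊆ D) 0 := by simp [L.B0]
  exact Nat.findGreatest_spec (P := fun i => B i ⊆ D) (Nat.zero_le J) this

theorem le_sc {D : Finset P} {i : ℕ} (hi : i ≤ J) (h : B i ⊆ D) : i ≤ sc B J D :=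
  Nat.le_findGreatest hi h

theorem low_B {i : ℕ} (hi : i ≤ J) : Low B J (B i) :=
  ⟨L.mono' hi le_rfl, fun l hl l' hl' h => L.low i hi l hl l' hl' h⟩

theorem low_int (l : P) : Low B J (int B J l) := by
  refine ⟨filter_subset _ _, fun a ha b hb hba => ?_⟩
  simp only [int, mem_filter] at ha ⊢
  exact ⟨hb, hba.trans ha.2⟩

theorem low_empty : Low B J (∅ : Finset P) := ⟨empty_subset _, by simp⟩

theorem int_eq {i : ℕ} (hi : i ≤ J) {l : P} (hl : l ∈ B i) : (B i).filter (· < l) = int B J l := by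
  ext a
  simp only [int, mem_filter]
  constructor
  · rintro ⟨h1, h2⟩
    exact ⟨L.mono' hi le_rfl h1, h2⟩
  · rintro ⟨h1, h2⟩
    exact ⟨L.low i hi l hl a h1 h2, h2⟩

theorem sc_B (hc0 : 0 < c0) {i : ℕ} (hi : i ≤ J) : sc B J (B i) = i := by
  refine le_antisymm ?_ (L.le_sc hi subset_rfl)
  by_contra hcon
  push Not at hcon
  have h1 := L.sc_spec (B i)
  have h2 : B (i + 1) ⊆ B i := (L.mono' (by omega) (L.sc_le _)).trans h1
  have h3 := L.E2 i (by have := L.sc_le (B i); omega)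
  have h4 : shell B i = ∅ := by
    rw [Finset.eq_empty_iff_forall_notMem]
    intro l hl
    simp only [shell, mem_filter] at hl
    exact lt_irrefl _ (hl.2 l (h2 hl.1))
  rw [h4, Finset.sum_empty] at h3
  linarith

/-- every element of a down set `D` outside `B j` crosses a level between `j` and the scale -/
theorem exists_cross {D : Finset P} (hD : Low B J D) {j : ℕ} (_hj : j ≤ sc B J D) {l : P}
    (hl : l ∈ D \ B j) : ∃ i, j ≤ i ∧ i ≤ sc B J D ∧ i < J ∧ l ∈ cross B J i := by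
  rw [mem_sdiff] at hl
  obtain ⟨hlD, hlj⟩ := hl
  have hlJ : l ∈ B J := hD.1 hlD
  by_cases hk : l ∈ B (sc B J D)
  · -- find the level
    have hex : ∃ i, l ∈ B i := ⟨_, hk⟩
    have hjlt : ∀ i ≤ j, i ≤ J → l ∉ B i := fun i hi hiJ hli =>
      hlj (L.mono' hi (_hj.trans (L.sc_le D)) hli)
    set i := Nat.find hex with hi
    have hi1 : l ∈ B i := Nat.find_spec hex
    have hi2 : i ≤ sc B J D := Nat.find_min' hex hk
    have hi3 : j < i := by
      by_contra hcon
      push Not at hcon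
      exact hjlt i hcon (hi2.trans (L.sc_le D)) hi1
    have hi4 : l ∉ B (i - 1) := Nat.find_min hex (by omega)
    have := L.sc_le D
    refine ⟨i - 1, by omega, by omega, by omega, ?_⟩
    simp only [cross, mem_filter]
    refine ⟨hlJ, hi4, fun hall => ?_⟩
    have e : i - 1 + 1 = i := by omega
    rw [e] at hall
    exact lt_irrefl _ (hall l hi1)
  · have hkJ : sc B J D < J := by
      refine lt_of_le_of_ne (L.sc_le D) fun h => hk ?_
      rw [h]; exact hlJ
    refine ⟨sc B J D, _hj, le_rfl, hkJ, ?_⟩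
    simp only [cross, mem_filter]
    refine ⟨hlJ, hk, fun hall => ?_⟩
    have h1 : B (sc B J D + 1) ⊆ D := fun b hb =>
      hD.2 l hlD b (L.mono' (by omega) le_rfl hb) (hall b hb)
    have := L.le_sc (by omega) h1
    omega

theorem cross_sum {D : Finset P} (hD : Low B J D) {j : ℕ} (hj : j ≤ sc B J D) :
    ∑ l ∈ D \ B j, w l ≤ C0 * ((sc B J D : ℝ) - j + 1) := by
  have h1 : D \ B j ⊆ ((Finset.Icc j (sc B J D)).filter (· < J)).biUnion (cross B J) := by
    intro l hl
    obtain ⟨i, h1, h2, h3, h4⟩ := L.exists_cross hD hj hl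
    rw [mem_biUnion]
    exact ⟨i, by rw [mem_filter, mem_Icc]; exact ⟨⟨h1, h2⟩, h3⟩, h4⟩
  have h2 : ∑ l ∈ D \ B j, w l ≤ ∑ i ∈ (Finset.Icc j (sc B J D)).filter (· < J), C0 := by
    calc ∑ l ∈ D \ B j, w l
        ≤ ∑ l ∈ ((Finset.Icc j (sc B J D)).filter (· < J)).biUnion (cross B J), w l :=
          Finset.sum_le_sum_of_subset_of_nonneg h1 fun l _ _ => L.w0 l
      _ ≤ ∑ i ∈ (Finset.Icc j (sc B J D)).filter (· < J), ∑ l ∈ cross B J i, w l :=
          sum_biUnion_le' _ _ _ L.w0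
      _ ≤ _ := Finset.sum_le_sum fun i hi => L.E1 i (mem_filter.1 hi).2
  refine h2.trans ?_
  rw [Finset.sum_const, nsmul_eq_mul]
  rw [mul_comm]
  refine mul_le_mul_of_nonneg_left ?_ L.hC0
  have h3 : ((Finset.Icc j (sc B J D)).filter (· < J)).card ≤ sc B J D + 1 - j := by
    refine (card_filter_le _ _).trans ?_
    rw [Nat.card_Icc]
  have h4 : (((Finset.Icc j (sc B J D)).filter (· < J)).card : ℝ) ≤ ((sc B J D + 1 - j : ℕ) : ℝ) := by
    exact_mod_cast h3
  rw [Nat.cast_sub (by omega)] at h4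
  push_cast at h4
  linarith

end Lev

end Pool.Agent.ZF
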