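import Pool.Agent.ZF.Levels
import Pool.Agent.ZF.Contract4

/-!
Zero-freeness of chain sums with levels, near the positive real axis.
-/

namespace Pool.Agent.ZF

open Finset
open scoped Classical

variable {P : Type*} [PartialOrder P]

/-- elements of `D \ Bj` above `o` -/
noncomputable def ab (D Bj : Finset P) : Option P → Finset P
  | none => D \ Bj
  | some l => (D \ Bj).filter (l < ·)

/-- weight of the part inside -/
noncomputable def uu {𝕜 : Type*} [CommSemiring 𝕜] (v : P → 𝕜) (B : ℕ → Finset P) (J : ℕ) :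
    Option P → 𝕜
  | none => 1
  | some l => v l * Zf v (int B J l)

/-- inner domain -/
noncomputable def dm (B : ℕ → Finset P) (J : ℕ) : Option P → Finset P
  | none => ∅
  | some l => int B J l

/-- elements of `D` outside `B j` and above all of `B (j+1)` -/
noncomputable def tp (B : ℕ → Finset P) (D : Finset P) (j : ℕ) : Finset P :=
  (D \ B j).filter fun l => ∀ b ∈ B (j + 1), b < l

/-- the part above level `j` that does not see the inside -/
noncomputable def AA (v : P → ℝ) (B : ℕ → Finset P) (D : Finset P) (j : ℕ) : ℝ :=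
  Zf v (tp B D j)

theorem mem_tp {B : ℕ → Finset P} {D : Finset P} {j : ℕ} {l : P} :
    l ∈ tp B D j ↔ l ∈ D \ B j ∧ ∀ b ∈ B (j + 1), b < l := by
  simp only [tp, mem_filter]

variable {J : ℕ} {B : ℕ → Finset P} {w : P → ℝ} {C0 c0 : ℝ}

namespace Lev

set_option linter.unusedSectionVars false
variable (L : Lev J B w C0 c0)
include L

theorem decomp {𝕜 : Type*} [CommSemiring 𝕜] (v : P → 𝕜) {D : Finset P} (hD : Low B J D) {j : ℕ}
    (hj : j ≤ sc B J D) :
    Zf v D = ∑ o ∈ insertNone (B j), uu v B J o * Zf v (ab D (B j) o) := by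
  have hjJ : j ≤ J := hj.trans (L.sc_le D)
  rw [Finset.sum_insertNone]
  have h := Zf_decomp v D (B j) ((L.mono' hj (L.sc_le D)).trans (L.sc_spec D))
    (fun l hl l' hl' hlt => L.low j hjJ l hl l' (hD.1 hl') hlt)
  rw [h]
  simp only [uu, ab, one_mul]
  congr 1
  exact Finset.sum_congr rfl fun l hl => by rw [L.int_eq hjJ hl]

theorem sum_uu {𝕜 : Type*} [CommSemiring 𝕜] (v : P → 𝕜) {j : ℕ} (hj : j ≤ J) :
    ∑ o ∈ insertNone (B j), uu v B J o = Zf v (B j) := by
  rw [Finset.sum_insertNone, Zf_rec v (B j)]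
  simp only [uu]
  congr 1
  exact Finset.sum_congr rfl fun l hl => by rw [L.int_eq hj hl]

section real
variable {x a X : ℝ}

theorem vnn (hx : 0 ≤ x) (l : P) : 0 ≤ x * w l := mul_nonneg hx (L.w0 l)

theorem cross_weight (hx : 0 ≤ x) (hxX : x ≤ X) {i : ℕ} (hi : i < J) :
    ∑ l ∈ cross B J i, x * w l ≤ X * C0 := by
  rw [← Finset.mul_sum]
  exact mul_le_mul hxX (L.E1 i hi) (Finset.sum_nonneg fun l _ => L.w0 l) (hx.trans hxX)

theorem G_low (hx : 0 ≤ x) {D : Finset P} {j : ℕ} (hj : j + 1 ≤ J)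
    {o : Option P} (ho : o ∈ insertNone (B j)) :
    AA (fun l => x * w l) B D j ≤ Zf (fun l => x * w l) (ab D (B j) o) := by
  refine Zf_mono _ (L.vnn hx) ?_
  rcases o with _ | l
  · intro a ha
    exact (mem_tp.1 ha).1
  · have hl : l ∈ B j := by simpa using ho
    intro a ha
    rw [mem_tp] at ha
    simp only [ab, mem_filter]
    exact ⟨ha.1, ha.2 l (L.mono j (by omega) hl)⟩

theorem G_up (hx : 0 ≤ x) (hxX : x ≤ X) {D : Finset P} (hD : Low B J D) {j : ℕ}
    (hj : j + 1 ≤ J) (o : Option P) :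
    Zf (fun l => x * w l) (ab D (B j) o) ≤ AA (fun l => x * w l) B D j * Real.exp (X * C0) := by
  have h1 : ab D (B j) o ⊆ tp B D j ∪ cross B J j := by
    intro a ha
    have ha' : a ∈ D \ B j := by
      rcases o with _ | l
      · exact ha
      · exact (mem_filter.1 ha).1
    rw [mem_union]
    by_cases hall : ∀ b ∈ B (j + 1), b < a
    · exact Or.inl (mem_tp.2 ⟨ha', hall⟩)
    · right
      rw [mem_sdiff] at ha'
      simp only [cross, mem_filter]
      exact ⟨hD.1 ha'.1, ha'.2, hall⟩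
  refine (Zf_le_of_subset _ (L.vnn hx) h1).trans ?_
  refine mul_le_mul_of_nonneg_left ?_ (zero_le_one.trans (one_le_Zf _ (L.vnn hx) _))
  exact Real.exp_le_exp.2 (L.cross_weight hx hxX (by omega))

theorem growth_one (hx : 0 ≤ x) {i : ℕ} (hi : i < J) :
    (1 + x * c0) * Zf (fun l => x * w l) (B i) ≤ Zf (fun l => x * w l) (B (i + 1)) := by
  have h := Zf_growth (fun l => x * w l) (L.vnn hx) (L.mono i hi) (S := shell B i)
    (filter_subset _ _) (fun l hl => (mem_filter.1 hl).2)
  refine le_trans (mul_le_mul_of_nonneg_right ?_ (zero_le_one.trans (one_le_Zf _ (L.vnn hx) _))) h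
  rw [← Finset.mul_sum]
  have := mul_le_mul_of_nonneg_left (L.E2 i hi) hx
  linarith

theorem growth (ha : 0 < a) (hax : a ≤ x) (hc0 : 0 < c0) {i j : ℕ} (hij : i ≤ j) (hj : j ≤ J) :
    (1 + a * c0) ^ (j - i) * Zf (fun l => x * w l) (B i) ≤ Zf (fun l => x * w l) (B j) := by
  have hx : 0 ≤ x := ha.le.trans hax
  induction j, hij using Nat.le_induction with
  | base => simp
  | succ n hn ih =>
    have h1 := ih (by omega)
    have h2 := L.growth_one hx (i := n) (by omega)
    have e : n + 1 - i = (n - i) + 1 := by omega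
    rw [e, pow_succ]
    have h3 : 1 + a * c0 ≤ 1 + x * c0 := by nlinarith
    have h4 : 0 ≤ Zf (fun l => x * w l) (B n) := zero_le_one.trans (one_le_Zf _ (L.vnn hx) _)
    calc (1 + a * c0) ^ (n - i) * (1 + a * c0) * Zf (fun l => x * w l) (B i)
        = (1 + a * c0) * ((1 + a * c0) ^ (n - i) * Zf (fun l => x * w l) (B i)) := by ring
      _ ≤ (1 + x * c0) * Zf (fun l => x * w l) (B n) :=
          mul_le_mul h3 h1 (mul_nonneg (by positivity) (zero_le_one.trans (one_le_Zf _ (L.vnn hx) _)))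
            (by positivity)
      _ ≤ _ := h2

theorem sc_int_lt {j : ℕ} (hj : j ≤ J) {l : P} (hl : l ∈ B j) : sc B J (int B J l) < j := by
  by_contra hcon
  push Not at hcon
  have h1 := (L.mono' hcon (L.sc_le _)).trans (L.sc_spec (int B J l)) hl
  simp only [int, mem_filter] at h1
  exact lt_irrefl _ h1.2

theorem Z_int_le (hx : 0 ≤ x) (hxX : x ≤ X) {l : P} (hl : sc B J (int B J l) < J) :
    Zf (fun l => x * w l) (int B J l)
      ≤ Zf (fun l => x * w l) (B (sc B J (int B J l))) * Real.exp (X * C0) := by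
  have h1 : int B J l ⊆ B (sc B J (int B J l)) ∪ cross B J (sc B J (int B J l)) := by
    intro b hb
    rw [mem_union]
    by_cases hbB : b ∈ B (sc B J (int B J l))
    · exact Or.inl hbB
    · right
      obtain ⟨i, h1, h2, _, h4⟩ := L.exists_cross (L.low_int l) le_rfl (mem_sdiff.2 ⟨hb, hbB⟩)
      have : i = sc B J (int B J l) := le_antisymm h2 h1
      rw [this] at h4
      exact h4
  refine (Zf_le_of_subset _ (L.vnn hx) h1).trans ?_
  refine mul_le_mul_of_nonneg_left ?_ (zero_le_one.trans (one_le_Zf _ (L.vnn hx) _))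
  exact Real.exp_le_exp.2 (L.cross_weight hx hxX hl)

theorem fiber_sub {j i : ℕ} (hj : j ≤ J) :
    (B j).filter (fun l => sc B J (int B J l) = i) ⊆ cross B J i := by
  intro l hl
  rw [mem_filter] at hl
  obtain ⟨hlj, hsc⟩ := hl
  have hlt := L.sc_int_lt hj hlj
  simp only [cross, mem_filter]
  refine ⟨L.mono' hj le_rfl hlj, ?_, ?_⟩
  · intro hli
    have h1 := L.sc_int_lt (by omega) hli
    omega
  · intro hall
    have h1 : B (i + 1) ⊆ int B J l := fun b hb => by
      simp only [int, mem_filter]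
      exact ⟨L.mono' (by omega) le_rfl hb, hall b hb⟩
    have h2 := L.le_sc (by omega) h1
    omega

theorem geom_le {θ : ℝ} (h0 : 0 ≤ θ) (h1 : θ < 1) (j : ℕ) :
    ∑ i ∈ range j, θ ^ (j - i) ≤ 1 / (1 - θ) := by
  have e : ∑ i ∈ range j, θ ^ (j - i) = ∑ i ∈ range j, θ ^ (i + 1) := by
    rw [← Finset.sum_range_reflect]
    refine Finset.sum_congr rfl fun i hi => ?_
    rw [mem_range] at hi
    congr 1
    omega
  have h2 : ∑ i ∈ range j, θ ^ (i + 1) ≤ ∑ i ∈ range j, θ ^ i := by
    refine Finset.sum_le_sum fun i _ => ?_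
    rw [pow_succ]
    have : 0 ≤ θ ^ i := pow_nonneg h0 i
    nlinarith
  rw [e]
  refine h2.trans ?_
  rw [le_div_iff₀ (by linarith), geom_sum_mul_neg]
  linarith [pow_nonneg h0 j]

theorem moment (ha : 0 < a) (hax : a ≤ x) (hxX : x ≤ X) (hc0 : 0 < c0) {η0 θ : ℝ}
    (hθ0 : 0 ≤ θ) (hθ1 : θ < 1) (hη : Real.exp (2 * η0) = θ * (1 + a * c0)) (hη0 : 0 < η0)
    {j : ℕ} (hj : j ≤ J) :
    ∑ o ∈ insertNone (B j), (uu (fun l => x * w l) B J o / Zf (fun l => x * w l) (B j))
      * Real.exp (2 * η0 * ((j : ℝ) - sc B J (dm B J o)))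
      ≤ 1 + X * C0 * Real.exp (X * C0) * (1 / (1 - θ)) := by
  have hx : 0 ≤ x := ha.le.trans hax
  set v : P → ℝ := fun l => x * w l with hv
  have hv0 : ∀ l, 0 ≤ v l := L.vnn hx
  have hq : 0 < 1 + a * c0 := by positivity
  have hZ : 0 < Zf v (B j) := zero_lt_one.trans_le (one_le_Zf v hv0 _)
  have hpow : ∀ n : ℕ, Real.exp (2 * η0 * n) = θ ^ n * (1 + a * c0) ^ n := fun n => by
    rw [mul_comm (2 * η0) (n : ℝ), Real.exp_nat_mul, hη, mul_pow]
  rw [Finset.sum_insertNone]
  refine add_le_add ?_ ?_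
  · -- none
    simp only [uu, dm]
    have h1 : Real.exp (2 * η0 * ((j : ℝ) - sc B J ∅)) ≤ Real.exp (2 * η0 * j) := by
      refine Real.exp_le_exp.2 (mul_le_mul_of_nonneg_left ?_ (by positivity))
      have : (0 : ℝ) ≤ sc B J (∅ : Finset P) := by positivity
      linarith
    have h2 := L.growth ha hax hc0 (Nat.zero_le j) hj
    rw [L.B0, Zf_empty, mul_one, Nat.sub_zero] at h2
    have h3 : θ ^ j ≤ 1 := pow_le_one₀ hθ0 hθ1.le
    rw [one_div, inv_mul_le_iff₀ hZ, mul_one]
    calc Real.exp (2 * η0 * ((j : ℝ) - sc B J ∅)) ≤ θ ^ j * (1 + a * c0) ^ j := by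
          rw [← hpow]; exact h1
      _ ≤ 1 * (1 + a * c0) ^ j := mul_le_mul_of_nonneg_right h3 (by positivity)
      _ ≤ Zf v (B j) := by rw [one_mul]; exact h2
  · have hterm : ∀ l ∈ B j, (uu v B J (some l) / Zf v (B j))
        * Real.exp (2 * η0 * ((j : ℝ) - sc B J (dm B J (some l))))
        ≤ (Real.exp (X * C0) * θ ^ (j - sc B J (int B J l))) * v l := by
      intro l hl
      have hlt := L.sc_int_lt hj hl
      set i := sc B J (int B J l) with hi
      have h1 := L.Z_int_le hx hxX (l := l) (by omega)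
      rw [← hi] at h1
      have h2 := L.growth ha hax hc0 (i := i) (j := j) (by omega) hj
      simp only [uu, dm, ← hi]
      have e1 : Real.exp (2 * η0 * ((j : ℝ) - i)) = θ ^ (j - i) * (1 + a * c0) ^ (j - i) := by
        rw [← hpow, Nat.cast_sub hlt.le]
      rw [e1]
      have h3 : v l * Zf v (int B J l) / Zf v (B j) * (θ ^ (j - i) * (1 + a * c0) ^ (j - i))
          = v l * θ ^ (j - i) * ((1 + a * c0) ^ (j - i) * Zf v (int B J l)) / Zf v (B j) := by ring
      rw [h3, div_le_iff₀ hZ]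
      have h4 : (1 + a * c0) ^ (j - i) * Zf v (int B J l) ≤ Real.exp (X * C0) * Zf v (B j) := by
        calc (1 + a * c0) ^ (j - i) * Zf v (int B J l)
            ≤ (1 + a * c0) ^ (j - i) * (Zf v (B i) * Real.exp (X * C0)) :=
              mul_le_mul_of_nonneg_left h1 (by positivity)
          _ = Real.exp (X * C0) * ((1 + a * c0) ^ (j - i) * Zf v (B i)) := by ring
          _ ≤ _ := mul_le_mul_of_nonneg_left h2 (Real.exp_pos _).le
      calc v l * θ ^ (j - i) * ((1 + a * c0) ^ (j - i) * Zf v (int B J l))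
          ≤ v l * θ ^ (j - i) * (Real.exp (X * C0) * Zf v (B j)) :=
            mul_le_mul_of_nonneg_left h4 (mul_nonneg (hv0 l) (pow_nonneg hθ0 _))
        _ = _ := by ring
    refine (Finset.sum_le_sum hterm).trans ?_
    have hmaps : ∀ l ∈ B j, sc B J (int B J l) ∈ range j := fun l hl =>
      mem_range.2 (L.sc_int_lt hj hl)
    rw [← Finset.sum_fiberwise_of_maps_to hmaps]
    have h5 : ∀ i ∈ range j, ∑ l ∈ (B j).filter (fun l => sc B J (int B J l) = i),
        (Real.exp (X * C0) * θ ^ (j - sc B J (int B J l))) * v l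
        ≤ (X * C0 * Real.exp (X * C0)) * θ ^ (j - i) := by
      intro i hi
      rw [mem_range] at hi
      have e : ∀ l ∈ (B j).filter (fun l => sc B J (int B J l) = i),
          (Real.exp (X * C0) * θ ^ (j - sc B J (int B J l))) * v l
          = (Real.exp (X * C0) * θ ^ (j - i)) * v l := by
        intro l hl
        rw [(mem_filter.1 hl).2]
      rw [Finset.sum_congr rfl e, ← Finset.mul_sum]
      have h6 : ∑ l ∈ (B j).filter (fun l => sc B J (int B J l) = i), v l ≤ X * C0 :=
        (Finset.sum_le_sum_of_subset_of_nonneg (L.fiber_sub hj) fun l _ _ => hv0 l).trans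
          (L.cross_weight hx hxX (by omega))
      calc (Real.exp (X * C0) * θ ^ (j - i)) * _ ≤ (Real.exp (X * C0) * θ ^ (j - i)) * (X * C0) :=
            mul_le_mul_of_nonneg_left h6 (mul_nonneg (Real.exp_pos _).le (pow_nonneg hθ0 _))
        _ = _ := by ring
    refine (Finset.sum_le_sum h5).trans ?_
    rw [← Finset.mul_sum]
    have hX : 0 ≤ X := hx.trans hxX
    have := L.hC0
    exact mul_le_mul_of_nonneg_left (L.geom_le hθ0 hθ1 j) (by positivity)

end real

end Lev

end Pool.Agent.ZF
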