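import Pool.Agent.ZF.Chain

/-!
Complex perturbation of chain sums.
-/

namespace Pool.Agent.ZF

open Finset
open scoped Classical

variable {P : Type*} [PartialOrder P]

theorem Zf_add_le (b d : P → ℝ) (hb : ∀ l, 0 ≤ b l) (hd : ∀ l, 0 ≤ d l) (Q : Finset P) :
    Zf (fun l => b l + d l) Q ≤ Zf b Q * Real.exp (∑ l ∈ Q, d l) := by
  have h0 : Zf (fun l => b l + d l) Q
      = ∑ C ∈ chains Q, ∑ S ∈ C.powerset, (∏ l ∈ S, b l) * ∏ l ∈ C \ S, d l := by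
    rw [Zf]
    refine Finset.sum_congr rfl fun C _ => ?_
    rw [Finset.prod_add]
  have h1 : ∑ C ∈ chains Q, ∑ S ∈ C.powerset, (∏ l ∈ S, b l) * ∏ l ∈ C \ S, d l
      = ∑ S ∈ chains Q, ∑ C ∈ (chains Q).filter (fun C => S ⊆ C),
          (∏ l ∈ S, b l) * ∏ l ∈ C \ S, d l := by
    refine Finset.sum_comm' fun C S => ?_
    simp only [mem_powerset, mem_filter, mem_chains]
    constructor
    · rintro ⟨⟨h1, h2⟩, h3⟩
      exact ⟨⟨⟨h1, h2⟩, h3⟩, h3.trans h1, h2.mono (by exact_mod_cast h3)⟩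
    · rintro ⟨⟨⟨h1, h2⟩, h3⟩, _, _⟩
      exact ⟨⟨h1, h2⟩, h3⟩
  have h2 : ∀ S ∈ chains Q, ∑ C ∈ (chains Q).filter (fun C => S ⊆ C),
          (∏ l ∈ S, b l) * ∏ l ∈ C \ S, d l ≤ (∏ l ∈ S, b l) * Real.exp (∑ l ∈ Q, d l) := by
    intro S _
    rw [← Finset.mul_sum]
    refine mul_le_mul_of_nonneg_left ?_ (Finset.prod_nonneg fun l _ => hb l)
    have h3 : ∑ C ∈ (chains Q).filter (fun C => S ⊆ C), ∏ l ∈ C \ S, d l
        = ∑ T ∈ ((chains Q).filter (fun C => S ⊆ C)).image (fun C => C \ S), ∏ l ∈ T, d l := by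
      rw [Finset.sum_image]
      intro C hC C' hC' hCC
      rw [mem_coe, mem_filter] at hC hC'
      simp only at hCC
      rw [← Finset.sdiff_union_of_subset hC.2, ← Finset.sdiff_union_of_subset hC'.2, hCC]
    have h4 : ∑ T ∈ ((chains Q).filter (fun C => S ⊆ C)).image (fun C => C \ S), ∏ l ∈ T, d l
        ≤ ∑ T ∈ Q.powerset, ∏ l ∈ T, d l := by
      refine Finset.sum_le_sum_of_subset_of_nonneg ?_ fun T _ _ =>
        Finset.prod_nonneg fun l _ => hd l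
      intro T hT
      rw [mem_image] at hT
      obtain ⟨C, hC, rfl⟩ := hT
      rw [mem_filter, mem_chains] at hC
      rw [mem_powerset]
      exact sdiff_subset.trans hC.1.1
    have h5 : ∑ T ∈ Q.powerset, ∏ l ∈ T, d l ≤ Real.exp (∑ l ∈ Q, d l) := by
      rw [← Finset.prod_one_add, Real.exp_sum]
      refine Finset.prod_le_prod (fun l _ => by linarith [hd l]) fun l _ => ?_
      linarith [Real.add_one_le_exp (d l)]
    rw [h3]
    exact h4.trans h5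
  rw [h0, h1, Zf, Finset.sum_mul]
  exact Finset.sum_le_sum h2

theorem norm_prod_sub_le {ι : Type*} (C : Finset ι) (a : ι → ℂ) (b d : ι → ℝ)
    (hb : ∀ l, 0 ≤ b l) (_hd : ∀ l, 0 ≤ d l) (h : ∀ l, ‖a l - b l‖ ≤ d l) :
    ‖∏ l ∈ C, a l - ∏ l ∈ C, (b l : ℂ)‖ ≤ ∏ l ∈ C, (b l + d l) - ∏ l ∈ C, b l := by
  induction C using Finset.induction_on with
  | empty => simp
  | insert x C hx ih =>
    rw [Finset.prod_insert hx, Finset.prod_insert hx, Finset.prod_insert hx, Finset.prod_insert hx]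
    have hax : ‖a x‖ ≤ b x + d x := by
      have h1 : ‖a x‖ ≤ ‖(b x : ℂ)‖ + ‖a x - b x‖ := by
        have := norm_add_le (b x : ℂ) (a x - b x)
        simpa using this
      rw [Complex.norm_real, Real.norm_eq_abs, abs_of_nonneg (hb x)] at h1
      linarith [h x]
    have hB : ‖∏ l ∈ C, (b l : ℂ)‖ = ∏ l ∈ C, b l := by
      rw [← Complex.ofReal_prod, Complex.norm_real, Real.norm_eq_abs,
        abs_of_nonneg (Finset.prod_nonneg fun l _ => hb l)]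
    have e : a x * ∏ l ∈ C, a l - b x * ∏ l ∈ C, (b l : ℂ)
        = a x * (∏ l ∈ C, a l - ∏ l ∈ C, (b l : ℂ)) + (a x - b x) * ∏ l ∈ C, (b l : ℂ) := by ring
    rw [e]
    refine (norm_add_le _ _).trans ?_
    rw [norm_mul, norm_mul, hB]
    have hP : 0 ≤ ∏ l ∈ C, b l := Finset.prod_nonneg fun l _ => hb l
    have h2 : ‖a x‖ * ‖∏ l ∈ C, a l - ∏ l ∈ C, (b l : ℂ)‖
        ≤ (b x + d x) * (∏ l ∈ C, (b l + d l) - ∏ l ∈ C, b l) :=
      mul_le_mul hax ih (norm_nonneg _) ((norm_nonneg _).trans hax)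
    have h3 : ‖a x - b x‖ * ∏ l ∈ C, b l ≤ d x * ∏ l ∈ C, b l :=
      mul_le_mul_of_nonneg_right (h x) hP
    linarith

theorem norm_Zf_sub_le (a : P → ℂ) (b d : P → ℝ) (hb : ∀ l, 0 ≤ b l) (hd : ∀ l, 0 ≤ d l)
    (h : ∀ l, ‖a l - b l‖ ≤ d l) (Q : Finset P) :
    ‖Zf a Q - (Zf b Q : ℝ)‖ ≤ (Real.exp (∑ l ∈ Q, d l) - 1) * Zf b Q := by
  have h1 : ‖Zf a Q - (Zf b Q : ℝ)‖ ≤ Zf (fun l => b l + d l) Q - Zf b Q := by
    have e : (Zf a Q - (Zf b Q : ℝ) : ℂ)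
        = ∑ C ∈ chains Q, (∏ l ∈ C, a l - ∏ l ∈ C, (b l : ℂ)) := by
      rw [Finset.sum_sub_distrib]
      simp only [Zf]
      push_cast
      rfl
    rw [e]
    refine (norm_sum_le _ _).trans ?_
    have e2 : Zf (fun l => b l + d l) Q - Zf b Q
        = ∑ C ∈ chains Q, (∏ l ∈ C, (b l + d l) - ∏ l ∈ C, b l) := by
      rw [Finset.sum_sub_distrib]; rfl
    rw [e2]
    exact Finset.sum_le_sum fun C _ => norm_prod_sub_le C a b d hb hd h
  have h2 := Zf_add_le b d hb hd Q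
  linarith

end Pool.Agent.ZF
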