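import Pool.Agent.ZF.Levels

/-!
Chain sums: decomposition over the outermost element of an arbitrary subset, product formula.
-/

namespace Pool.Agent.ZF

open Finset
open scoped Classical

variable {P : Type*} [PartialOrder P]

/-- chains whose largest element inside `Cr` is `l` -/
noncomputable def topIn (D Cr : Finset P) (l : P) : Finset (Finset P) :=
  (chains D).filter fun C => l ∈ C ∧ ∀ c ∈ C, c ∈ Cr → c ≤ l

theorem sum_topIn {𝕜 : Type*} [CommSemiring 𝕜] (v : P → 𝕜) (D Cr : Finset P) (hBD : Cr ⊆ D)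
    (l : P) (hl : l ∈ Cr) :
    ∑ C ∈ topIn D Cr l, ∏ c ∈ C, v c
      = v l * Zf v (D.filter (· < l)) * Zf v ((D \ Cr).filter (l < ·)) := by
  rw [Zf, Zf, mul_assoc, Finset.sum_mul_sum, ← Finset.sum_product', Finset.mul_sum]
  symm
  refine Finset.sum_nbij' (fun q => insert l (q.1 ∪ q.2))
    (fun C => (C.filter (· < l), C.filter (l < ·))) ?_ ?_ ?_ ?_ ?_
  · rintro ⟨C1, C2⟩ hq
    rw [mem_product, mem_chains, mem_chains] at hq
    obtain ⟨⟨h1, c1⟩, ⟨h2, c2⟩⟩ := hq
    simp only at h1 c1 h2 c2
    have k1 : ∀ a ∈ C1, a ∈ D ∧ a < l := fun a ha => by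
      have := h1 ha; rw [mem_filter] at this; exact this
    have k2 : ∀ a ∈ C2, a ∈ D ∧ a ∉ Cr ∧ l < a := fun a ha => by
      have := h2 ha; rw [mem_filter, mem_sdiff] at this; exact ⟨this.1.1, this.1.2, this.2⟩
    simp only [topIn, mem_filter, mem_chains]
    refine ⟨⟨?_, ?_⟩, mem_insert_self _ _, ?_⟩
    · intro a ha
      rw [mem_insert, mem_union] at ha
      rcases ha with rfl | ha | ha
      · exact hBD hl
      · exact (k1 a ha).1
      · exact (k2 a ha).1
    · intro a ha b hb hab
      rw [mem_coe, mem_insert, mem_union] at ha hb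
      rcases ha with rfl | ha | ha <;> rcases hb with rfl | hb | hb
      · exact absurd rfl hab
      · exact Or.inr (k1 b hb).2
      · exact Or.inl (k2 b hb).2.2
      · exact Or.inl (k1 a ha).2
      · exact c1 ha hb hab
      · exact Or.inl ((k1 a ha).2.trans (k2 b hb).2.2)
      · exact Or.inr (k2 a ha).2.2
      · exact Or.inr ((k1 b hb).2.trans (k2 a ha).2.2)
      · exact c2 ha hb hab
    · intro c hc hcB
      rw [mem_insert, mem_union] at hc
      rcases hc with rfl | hc | hc
      · exact le_rfl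
      · exact (k1 c hc).2.le
      · exact absurd hcB (k2 c hc).2.1
  · intro C hC
    simp only [topIn, mem_filter, mem_chains] at hC
    obtain ⟨⟨hCD, hCc⟩, hlC, hmax⟩ := hC
    rw [mem_product, mem_chains, mem_chains]
    refine ⟨⟨?_, ?_⟩, ⟨?_, ?_⟩⟩
    · intro a ha
      simp only [mem_filter] at ha ⊢
      exact ⟨hCD ha.1, ha.2⟩
    · exact hCc.mono (by simp [Set.subset_def]; tauto)
    · intro a ha
      simp only [mem_filter, mem_sdiff] at ha ⊢
      exact ⟨⟨hCD ha.1, fun haB => absurd (hmax a ha.1 haB) (not_le_of_gt ha.2)⟩, ha.2⟩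
    · exact hCc.mono (by simp [Set.subset_def]; tauto)
  · rintro ⟨C1, C2⟩ hq
    rw [mem_product, mem_chains, mem_chains] at hq
    obtain ⟨⟨h1, c1⟩, ⟨h2, c2⟩⟩ := hq
    simp only at h1 c1 h2 c2
    have k1 : ∀ a ∈ C1, a < l := fun a ha => by
      have := h1 ha; rw [mem_filter] at this; exact this.2
    have k2 : ∀ a ∈ C2, l < a := fun a ha => by
      have := h2 ha; rw [mem_filter] at this; exact this.2
    simp only [Prod.mk.injEq]
    constructor
    · ext a
      simp only [mem_filter, mem_insert, mem_union]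
      constructor
      · rintro ⟨rfl | ha | ha, hal⟩
        · exact absurd hal (lt_irrefl _)
        · exact ha
        · exact absurd hal (lt_asymm (k2 a ha))
      · intro ha
        exact ⟨Or.inr (Or.inl ha), k1 a ha⟩
    · ext a
      simp only [mem_filter, mem_insert, mem_union]
      constructor
      · rintro ⟨rfl | ha | ha, hal⟩
        · exact absurd hal (lt_irrefl _)
        · exact absurd hal (lt_asymm (k1 a ha))
        · exact ha
      · intro ha
        exact ⟨Or.inr (Or.inr ha), k2 a ha⟩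
  · intro C hC
    simp only [topIn, mem_filter, mem_chains] at hC
    obtain ⟨⟨hCD, hCc⟩, hlC, hmax⟩ := hC
    ext a
    simp only [mem_filter, mem_insert, mem_union]
    constructor
    · rintro (rfl | ha | ha)
      · exact hlC
      · exact ha.1
      · exact ha.1
    · intro ha
      by_cases hal : a = l
      · exact Or.inl hal
      · rcases hCc ha hlC hal with h | h
        · exact Or.inr (Or.inl ⟨ha, h⟩)
        · exact Or.inr (Or.inr ⟨ha, h⟩)
  · rintro ⟨C1, C2⟩ hq
    rw [mem_product, mem_chains, mem_chains] at hq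
    obtain ⟨⟨h1, c1⟩, ⟨h2, c2⟩⟩ := hq
    simp only at h1 c1 h2 c2
    have k1 : ∀ a ∈ C1, a < l := fun a ha => by
      have := h1 ha; rw [mem_filter] at this; exact this.2
    have k2 : ∀ a ∈ C2, l < a := fun a ha => by
      have := h2 ha; rw [mem_filter] at this; exact this.2
    have hd : Disjoint C1 C2 := by
      rw [Finset.disjoint_left]
      intro a ha hb
      exact lt_asymm (k1 a ha) (k2 a hb)
    have hn : l ∉ C1 ∪ C2 := by
      rw [mem_union]
      rintro (h | h)
      · exact lt_irrefl _ (k1 l h)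
      · exact lt_irrefl _ (k2 l h)
    simp only
    rw [Finset.prod_insert hn, Finset.prod_union hd]

/-- **Decomposition over the largest element inside an arbitrary subset `Cr` of `D`.** -/
theorem Zf_decomp_any {𝕜 : Type*} [CommSemiring 𝕜] (v : P → 𝕜) (D Cr : Finset P) (hBD : Cr ⊆ D) :
    Zf v D = Zf v (D \ Cr)
      + ∑ l ∈ Cr, v l * Zf v (D.filter (· < l)) * Zf v ((D \ Cr).filter (l < ·)) := by
  have h1 : chains D = chains (D \ Cr) ∪ Cr.biUnion (topIn D Cr) := by
    ext C
    simp only [mem_union, mem_biUnion, topIn, mem_filter, mem_chains]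
    constructor
    · rintro ⟨hCD, hCc⟩
      by_cases hne : (C ∩ Cr).Nonempty
      · obtain ⟨l, hlB, hlC, hmax⟩ := exists_top hCc hne
        exact Or.inr ⟨l, hlB, ⟨hCD, hCc⟩, hlC, hmax⟩
      · left
        refine ⟨fun a ha => mem_sdiff.2 ⟨hCD ha, fun haB => hne ⟨a, mem_inter.2 ⟨ha, haB⟩⟩⟩, hCc⟩
    · rintro (⟨h, hc⟩ | ⟨l, _, h, _⟩)
      · exact ⟨h.trans sdiff_subset, hc⟩
      · exact h
  have h2 : Disjoint (chains (D \ Cr)) (Cr.biUnion (topIn D Cr)) := by
    rw [Finset.disjoint_left]
    intro C hC hC'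
    rw [mem_chains] at hC
    simp only [mem_biUnion, topIn, mem_filter] at hC'
    obtain ⟨l, hlB, _, hlC, _⟩ := hC'
    exact (mem_sdiff.1 (hC.1 hlC)).2 hlB
  have h3 : ((Cr : Finset P) : Set P).PairwiseDisjoint (topIn D Cr) := by
    intro l hl l' hl' hne
    rw [Function.onFun, Finset.disjoint_left]
    intro C hC hC'
    simp only [topIn, mem_filter] at hC hC'
    exact hne (le_antisymm (hC'.2.2 l hC.2.1 hl) (hC.2.2 l' hC'.2.1 hl'))
  rw [Zf, h1, Finset.sum_union h2, Finset.sum_biUnion h3]
  congr 1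
  exact Finset.sum_congr rfl fun l hl => sum_topIn v D Cr hBD l hl

/-- product formula for ordered blocks -/
theorem Zf_mul {𝕜 : Type*} [CommSemiring 𝕜] (v : P → 𝕜) (B : Finset P) :
    ∀ (n : ℕ) (A : Finset P), A.card = n → (∀ b ∈ B, ∀ a ∈ A, b < a) →
      Zf v (B ∪ A) = Zf v B * Zf v A := by
  intro n
  induction n using Nat.strong_induction_on with
  | _ n ih =>
    intro A hA hBA
    have hdis : Disjoint B A := by
      rw [Finset.disjoint_left]
      intro a ha hb
      exact lt_irrefl _ (hBA a ha a hb)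
    rw [Zf_rec v (B ∪ A), Finset.sum_union hdis]
    have h1 : ∑ l ∈ B, v l * Zf v ((B ∪ A).filter (· < l))
        = ∑ l ∈ B, v l * Zf v (B.filter (· < l)) := by
      refine Finset.sum_congr rfl fun l hl => ?_
      congr 2
      ext a
      simp only [mem_filter, mem_union]
      constructor
      · rintro ⟨h | h, hal⟩
        · exact ⟨h, hal⟩
        · exact absurd hal (lt_asymm (hBA l hl a h))
      · rintro ⟨h, hal⟩
        exact ⟨Or.inl h, hal⟩
    have h2 : ∑ l ∈ A, v l * Zf v ((B ∪ A).filter (· < l))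
        = Zf v B * ∑ l ∈ A, v l * Zf v (A.filter (· < l)) := by
      rw [Finset.mul_sum]
      refine Finset.sum_congr rfl fun l hl => ?_
      have e : (B ∪ A).filter (· < l) = B ∪ A.filter (· < l) := by
        ext a
        simp only [mem_filter, mem_union]
        constructor
        · rintro ⟨h | h, hal⟩
          · exact Or.inl h
          · exact Or.inr ⟨h, hal⟩
        · rintro (h | ⟨h, hal⟩)
          · exact ⟨Or.inl h, hBA a h l hl⟩
          · exact ⟨Or.inr h, hal⟩
      have hcard : (A.filter (· < l)).card < n := by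
        rw [← hA]
        refine Finset.card_lt_card ⟨filter_subset _ _, fun h => ?_⟩
        have := h hl
        rw [mem_filter] at this
        exact lt_irrefl _ this.2
      rw [e, ih _ hcard _ rfl fun b hb a ha => hBA b hb a (mem_filter.1 ha).1]
      ring
    rw [h1, h2, Zf_rec v A]
    have h3 := Zf_rec v B
    calc 1 + (∑ l ∈ B, v l * Zf v (B.filter (· < l)) + Zf v B * ∑ l ∈ A, v l * Zf v (A.filter (· < l)))
        = (1 + ∑ l ∈ B, v l * Zf v (B.filter (· < l)))
          + Zf v B * ∑ l ∈ A, v l * Zf v (A.filter (· < l)) := by ring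
      _ = Zf v B + Zf v B * ∑ l ∈ A, v l * Zf v (A.filter (· < l)) := by rw [← h3]
      _ = _ := by ring

end Pool.Agent.ZF
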