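import Pool.Agent.ZF.Contract3

/-!
Contraction argument, version with a distinguished clean state of mass at least `c`.
-/

namespace Pool.Agent.ZF

open Finset

/-- coupling inequality for two different index sets -/
theorem mix2 {Ω : Type*} (O O' : Finset Ω) (q q' : Ω → ℝ) (R R' : Ω → ℂ) (θ h0 : ℝ)
    (H H' : Ω → ℝ) (hθ0 : 0 ≤ θ) (hh0 : 0 ≤ h0) (hH : ∀ o ∈ O, 0 ≤ H o) (hH' : ∀ o ∈ O', 0 ≤ H' o)
    (hR : ∀ o ∈ O, ∀ o' ∈ O', ‖R o - R' o'‖ ≤ h0 + H o + H' o')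
    (hq : ∀ o ∈ O, 0 ≤ q o) (hq1 : ∑ o ∈ O, q o = θ)
    (hq' : ∀ o ∈ O', 0 ≤ q' o) (hq1' : ∑ o ∈ O', q' o = θ) :
    ‖∑ o ∈ O, (q o : ℂ) * R o - ∑ o ∈ O', (q' o : ℂ) * R' o‖
      ≤ θ * h0 + ∑ o ∈ O, q o * H o + ∑ o ∈ O', q' o * H' o := by
  classical
  have hS : (θ : ℂ) * (∑ o ∈ O, (q o : ℂ) * R o - ∑ o ∈ O', (q' o : ℂ) * R' o)
      = ∑ o ∈ O, ∑ o' ∈ O', ((q o : ℂ) * q' o') * (R o - R' o') := by
    have e1 : ∑ o ∈ O, ∑ o' ∈ O', ((q o : ℂ) * q' o') * (R o - R' o')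
        = (∑ o ∈ O, (q o : ℂ) * R o) * (∑ o' ∈ O', (q' o' : ℂ))
          - (∑ o ∈ O, (q o : ℂ)) * (∑ o' ∈ O', (q' o' : ℂ) * R' o') := by
      rw [Finset.sum_mul_sum, Finset.sum_mul_sum, ← Finset.sum_sub_distrib]
      refine Finset.sum_congr rfl fun o _ => ?_
      rw [← Finset.sum_sub_distrib]
      refine Finset.sum_congr rfl fun o' _ => ?_
      ring
    have e2 : (∑ o' ∈ O', (q' o' : ℂ)) = θ := by rw [← hq1']; push_cast; rfl
    have e3 : (∑ o ∈ O, (q o : ℂ)) = θ := by rw [← hq1]; push_cast; rfl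
    rw [e1, e2, e3]
    ring
  have hA : 0 ≤ ∑ o ∈ O, q o * H o := Finset.sum_nonneg fun o ho => mul_nonneg (hq o ho) (hH o ho)
  have hB : 0 ≤ ∑ o ∈ O', q' o * H' o :=
    Finset.sum_nonneg fun o ho => mul_nonneg (hq' o ho) (hH' o ho)
  rcases hθ0.eq_or_lt with h0 | hpos
  · have hz : ∀ o ∈ O, q o = 0 := (Finset.sum_eq_zero_iff_of_nonneg hq).1 (by rw [hq1]; exact h0.symm)
    have hz' : ∀ o ∈ O', q' o = 0 :=
      (Finset.sum_eq_zero_iff_of_nonneg hq').1 (by rw [hq1']; exact h0.symm)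
    have e1 : ∑ o ∈ O, (q o : ℂ) * R o = 0 := Finset.sum_eq_zero fun o ho => by rw [hz o ho]; simp
    have e2 : ∑ o ∈ O', (q' o : ℂ) * R' o = 0 :=
      Finset.sum_eq_zero fun o ho => by rw [hz' o ho]; simp
    rw [e1, e2, sub_zero, norm_zero]
    positivity
  · have hb : ‖∑ o ∈ O, ∑ o' ∈ O', ((q o : ℂ) * q' o') * (R o - R' o')‖
        ≤ θ * (θ * h0 + ∑ o ∈ O, q o * H o + ∑ o ∈ O', q' o * H' o) := by
      calc ‖∑ o ∈ O, ∑ o' ∈ O', ((q o : ℂ) * q' o') * (R o - R' o')‖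
          ≤ ∑ o ∈ O, ∑ o' ∈ O', (q o * q' o') * (h0 + H o + H' o') := by
            refine (norm_sum_le _ _).trans (Finset.sum_le_sum fun o ho => ?_)
            refine (norm_sum_le _ _).trans (Finset.sum_le_sum fun o' ho' => ?_)
            rw [norm_mul]
            have e : ‖(q o : ℂ) * q' o'‖ = q o * q' o' := by
              rw [← Complex.ofReal_mul, Complex.norm_real, Real.norm_eq_abs,
                abs_of_nonneg (mul_nonneg (hq o ho) (hq' o' ho'))]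
            rw [e]
            exact mul_le_mul_of_nonneg_left (hR o ho o' ho')
              (mul_nonneg (hq o ho) (hq' o' ho'))
        _ = θ * (θ * h0 + ∑ o ∈ O, q o * H o + ∑ o ∈ O', q' o * H' o) := by
            have e1 : ∑ o ∈ O, ∑ o' ∈ O', (q o * q' o') * (h0 + H o + H' o')
                = (∑ o ∈ O, q o) * (∑ o' ∈ O', q' o') * h0
                  + (∑ o ∈ O, q o * H o) * (∑ o' ∈ O', q' o')
                  + (∑ o ∈ O, q o) * (∑ o' ∈ O', q' o' * H' o') := by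
              rw [Finset.sum_mul_sum, Finset.sum_mul_sum, Finset.sum_mul_sum, Finset.sum_mul,
                ← Finset.sum_add_distrib, ← Finset.sum_add_distrib]
              refine Finset.sum_congr rfl fun o _ => ?_
              rw [Finset.sum_mul, ← Finset.sum_add_distrib, ← Finset.sum_add_distrib]
              refine Finset.sum_congr rfl fun o' _ => ?_
              ring
            rw [e1, hq1', hq1]; ring
    rw [← hS, norm_mul, Complex.norm_real, Real.norm_eq_abs, abs_of_pos hpos] at hb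
    exact le_of_mul_le_mul_left hb hpos

/-- abstract system, clean-level version -/
structure Sys2 (Δ Ω : Type*) (M E0 η0 s : ℝ) where
  adm : Set Δ
  k : Δ → ℕ
  r : Δ → ℂ
  Bd : ℕ → Δ
  J : ℕ
  o0 : Ω
  hB : ∀ j ≤ J, Bd j ∈ adm ∧ k (Bd j) = j
  hkJ : ∀ D ∈ adm, k D ≤ J
  hexp : ∀ D ∈ adm, ∀ m, m ≤ k D → ∃ (O : Finset Ω) (p : Ω → ℝ) (ρ om : Ω → ℂ) (dom : Ω → Δ),
    o0 ∈ O ∧ (∀ o ∈ O, 0 ≤ p o) ∧ ∑ o ∈ O, p o = 1 ∧ M⁻¹ ≤ p o0 ∧ dom o0 = Bd m ∧ om o0 = 1 ∧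
    (∀ o ∈ O, o ≠ o0 → dom o ∈ adm ∧ k (dom o) < m) ∧
    (∀ o ∈ O, ‖om o - 1‖ ≤ s) ∧
    (∀ o ∈ O, ‖ρ o - 1‖ ≤ Real.exp (s * ((k D : ℝ) - m + 1)) - 1) ∧
    ∑ o ∈ O, p o * Real.exp (2 * η0 * ((m : ℝ) - k (dom o))) ≤ E0 ∧
    r D = ∑ o ∈ O, (p o : ℂ) * ρ o * om o * r (dom o)
  hcr : ∀ D ∈ adm, ‖r D - 1‖ ≤ Real.exp (s * ((k D : ℝ) + 1)) - 1

/-- the conclusion at scale `m` -/
def Good2 {Δ Ω : Type*} {M E0 η0 s : ℝ} (S : Sys2 Δ Ω M E0 η0 s) (ε : ℝ) (m : ℕ) : Prop :=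
  ∀ D ∈ S.adm, ∀ D' ∈ S.adm, S.k D' = m → m ≤ S.k D →
    S.r D' ≠ 0 ∧
    ‖S.r D - S.r D'‖ ≤ (ε + (Real.exp (ε ^ 2 * ((S.k D : ℝ) - m)) - 1)) * ‖S.r D'‖

section
variable {Δ Ω : Type*} {M E0 η0 s ε : ℝ} (S : Sys2 Δ Ω M E0 η0 s)

theorem good2_zero (hM : 1 ≤ M) (hE : 1 ≤ E0) (hη0 : 0 < η0)
    (hη1 : η0 ≤ 1) (hε : ε * (1000 * M ^ 2 * E0) = η0) (hs : 0 ≤ s) (hs1 : s ≤ ε ^ 3) :
    Good2 S ε 0 := by
  obtain ⟨hε0, hε1, h4, h5, h6, h7, h8⟩ := consts hM hE hη0 hη1 hε hs hs1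
  intro D hD D' hD' hk' _
  have ha := S.hcr D' hD'
  have hb := S.hcr D hD
  rw [hk'] at ha
  push_cast at ha
  set n : ℝ := (S.k D : ℝ) with hn
  have hn0 : 0 ≤ n := by positivity
  have hs3 : s ≤ 1 / 1000 := by linarith
  have es : Real.exp s ≤ 1 + 2 * s := exp_le_of_small hs (by linarith)
  have ha' : ‖S.r D' - 1‖ ≤ 2 * s := by
    refine ha.trans ?_
    have : s * (0 + 1) = s := by ring
    rw [this]; linarith
  have hx := exp_sub_one_le (t := s) (u := ε ^ 2) (b := n) hs h6 (by positivity) hn0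
  set x : ℝ := Real.exp (ε ^ 2 * n) - 1 with hxdef
  have hx0 : 0 ≤ x := by
    have := Real.one_le_exp (x := ε ^ 2 * n) (by positivity)
    linarith
  have hx1 : Real.exp (s * n) - 1 ≤ ε * x := hx.trans (mul_le_mul_of_nonneg_right h8 hx0)
  have hb' : ‖S.r D - 1‖ ≤ 2 * s + 2 * (ε * x) := by
    refine hb.trans ?_
    have e : Real.exp (s * (n + 1)) = Real.exp (s * n) * Real.exp s := by
      rw [← Real.exp_add]; congr 1; ring
    rw [e]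
    have h1 : 1 ≤ Real.exp (s * n) := Real.one_le_exp (by positivity)
    have h2 : Real.exp (s * n) * Real.exp s ≤ Real.exp (s * n) * (1 + 2 * s) :=
      mul_le_mul_of_nonneg_left es (by positivity)
    have h3 : Real.exp (s * n) * (1 + 2 * s) = (Real.exp (s * n) - 1) * (1 + 2 * s) + (1 + 2 * s) := by ring
    have h4 : (Real.exp (s * n) - 1) * (1 + 2 * s) ≤ (ε * x) * (1 + 2 * s) :=
      mul_le_mul_of_nonneg_right hx1 (by linarith)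
    have h5 : 0 ≤ ε * x := by positivity
    nlinarith
  have hlow : 1 - 2 * s ≤ ‖S.r D'‖ := by
    have h1 : ‖(1 : ℂ)‖ ≤ ‖S.r D'‖ + ‖S.r D' - 1‖ := by
      have := norm_sub_le (S.r D') (S.r D' - 1)
      simpa using this
    rw [norm_one] at h1
    linarith
  refine ⟨?_, ?_⟩
  · intro h0
    rw [h0, norm_zero] at hlow
    linarith
  · have h1 : ‖S.r D - S.r D'‖ ≤ ‖S.r D - 1‖ + ‖S.r D' - 1‖ := by
      have : S.r D - S.r D' = (S.r D - 1) - (S.r D' - 1) := by ring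
      rw [this]; exact norm_sub_le _ _
    have h2 : (ε + x) * (1 - 2 * s) ≤ (ε + x) * ‖S.r D'‖ :=
      mul_le_mul_of_nonneg_left hlow (by positivity)
    have e0 : ε + (Real.exp (ε ^ 2 * (n - (0 : ℕ))) - 1) = ε + x := by
      simp only [hxdef, Nat.cast_zero, sub_zero]
    rw [e0]
    refine h1.trans (le_trans ?_ h2)
    have h3 : 2 * s + 2 * (ε * x) + 2 * s ≤ (ε + x) * (1 - 2 * s) := by
      have : 0 ≤ ε * x := by positivity
      nlinarith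
    linarith

theorem ball_bound2 (hε0 : 0 < ε) (hε1 : ε ≤ 1 / 1000) {j : ℕ} (hj : j ≤ S.J)
    (IH : ∀ i < j, Good2 S ε i) :
    ∀ d i : ℕ, i + d = j →
      ‖S.r (S.Bd i)‖ ≤ Real.exp (4 * ε * d) * ‖S.r (S.Bd j)‖ := by
  intro d
  induction d with
  | zero =>
    intro i hi
    have : i = j := by omega
    subst this
    simp
  | succ d ih =>
    intro i hi
    have h1 := ih (i + 1) (by omega)
    obtain ⟨hB1, hk1⟩ := S.hB (i + 1) (by omega)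
    obtain ⟨hB0, hk0⟩ := S.hB i (by omega)
    obtain ⟨_, h2⟩ := IH i (by omega) (S.Bd (i + 1)) hB1 (S.Bd i) hB0 hk0 (by omega)
    rw [hk1] at h2
    have e : (((i + 1 : ℕ) : ℝ) - (i : ℕ)) = 1 := by push_cast; ring
    rw [e, mul_one] at h2
    have h3 : Real.exp (ε ^ 2) ≤ 1 + 2 * ε ^ 2 := exp_le_of_small (by positivity) (by nlinarith)
    have h4 : ‖S.r (S.Bd (i + 1)) - S.r (S.Bd i)‖ ≤ (2 * ε) * ‖S.r (S.Bd i)‖ := by
      refine h2.trans (mul_le_mul_of_nonneg_right ?_ (norm_nonneg _))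
      nlinarith
    have h5 : ‖S.r (S.Bd i)‖ ≤ ‖S.r (S.Bd (i + 1))‖ + ‖S.r (S.Bd (i + 1)) - S.r (S.Bd i)‖ := by
      have := norm_sub_le (S.r (S.Bd (i + 1))) (S.r (S.Bd (i + 1)) - S.r (S.Bd i))
      simpa using this
    have h6 : 1 + 4 * ε ≤ Real.exp (4 * ε) := by linarith [Real.add_one_le_exp (4 * ε)]
    have h7 : ‖S.r (S.Bd i)‖ ≤ Real.exp (4 * ε) * ‖S.r (S.Bd (i + 1))‖ := by
      have h8 : (1 - 2 * ε) * ‖S.r (S.Bd i)‖ ≤ ‖S.r (S.Bd (i + 1))‖ := by linarith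
      have h9 : (1 + 4 * ε) * ((1 - 2 * ε) * ‖S.r (S.Bd i)‖) ≤ Real.exp (4 * ε) * ‖S.r (S.Bd (i + 1))‖ :=
        mul_le_mul h6 h8 (mul_nonneg (by linarith) (norm_nonneg _)) (Real.exp_pos _).le
      have h10 : 1 ≤ (1 + 4 * ε) * (1 - 2 * ε) := by nlinarith
      have h11 : 1 * ‖S.r (S.Bd i)‖ ≤ ((1 + 4 * ε) * (1 - 2 * ε)) * ‖S.r (S.Bd i)‖ :=
        mul_le_mul_of_nonneg_right h10 (norm_nonneg _)
      linarith
    refine h7.trans ?_
    have e2 : Real.exp (4 * ε * ((d + 1 : ℕ) : ℝ)) = Real.exp (4 * ε) * Real.exp (4 * ε * d) := by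
      rw [← Real.exp_add]; congr 1; push_cast; ring
    rw [e2, mul_assoc]
    exact mul_le_mul_of_nonneg_left h1 (Real.exp_pos _).le

/-- a set which is either the ball of scale `j` or of smaller scale -/
def Below (j : ℕ) (E : Δ) : Prop := E = S.Bd j ∨ (E ∈ S.adm ∧ S.k E < j)

theorem Below.kle {j : ℕ} (hj : j ≤ S.J) {E : Δ} (h : Below S j E) : E ∈ S.adm ∧ S.k E ≤ j := by
  rcases h with h | h
  · rw [h]; exact ⟨(S.hB j hj).1, (S.hB j hj).2.le⟩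
  · exact ⟨h.1, h.2.le⟩

theorem dom_bound2 (hε0 : 0 < ε) (hε1 : ε ≤ 1 / 1000) {j : ℕ} (hj : j ≤ S.J)
    (IH : ∀ i < j, Good2 S ε i) (E : Δ) (hE : Below S j E) :
    ‖S.r E‖ ≤ (1 + ε) * Real.exp (4 * ε * ((j : ℝ) - S.k E)) * ‖S.r (S.Bd j)‖ := by
  rcases hE with rfl | ⟨hE, hk⟩
  · rw [(S.hB j hj).2, sub_self, mul_zero, Real.exp_zero, mul_one]
    nlinarith [norm_nonneg (S.r (S.Bd j))]
  obtain ⟨hB0, hk0⟩ := S.hB (S.k E) (by omega)
  have h1 := ball_bound2 S hε0 hε1 hj IH (j - S.k E) (S.k E) (by omega)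
  obtain ⟨_, h2⟩ := IH (S.k E) hk E hE (S.Bd (S.k E)) hB0 hk0 le_rfl
  rw [sub_self, mul_zero, Real.exp_zero, sub_self, add_zero] at h2
  have h3 : ‖S.r E‖ ≤ ‖S.r (S.Bd (S.k E))‖ + ‖S.r E - S.r (S.Bd (S.k E))‖ := by
    have := norm_add_le (S.r (S.Bd (S.k E))) (S.r E - S.r (S.Bd (S.k E)))
    simpa using this
  have h4 : ‖S.r E‖ ≤ (1 + ε) * ‖S.r (S.Bd (S.k E))‖ := by linarith
  refine h4.trans ?_
  rw [mul_assoc]
  refine mul_le_mul_of_nonneg_left ?_ (by linarith)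
  rw [Nat.cast_sub hk.le] at h1
  exact h1

theorem diff_bound2 (hη0 : 0 < η0) (h4 : 4 * ε ≤ η0) (h5 : ε ^ 2 ≤ η0)
    (hε0 : 0 < ε) (hε1 : ε ≤ 1 / 1000) {j : ℕ} (hj : j ≤ S.J)
    (IH : ∀ i < j, Good2 S ε i) (E E' : Δ) (hE : Below S j E) (hE' : Below S j E')
    (hkk : S.k E' ≤ S.k E) :
    ‖S.r E - S.r E'‖ ≤ (1 + ε) * (ε + (4 * ε ^ 2 + ε ^ 2) / η0
      * Real.exp (2 * η0 * ((j : ℝ) - S.k E'))) * ‖S.r (S.Bd j)‖ := by
  have hkj := (hE.kle S hj).2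
  rcases hE' with hE' | ⟨hE', hk'⟩
  · -- both are the ball
    have hkE : S.k E = j := by
      rw [hE', (S.hB j hj).2] at hkk
      omega
    have hEB : E = S.Bd j := by
      rcases hE with h | ⟨_, h⟩
      · exact h
      · omega
    rw [hEB, hE', sub_self, norm_zero]
    positivity
  obtain ⟨_, h1⟩ := IH (S.k E') hk' E (hE.kle S hj).1 E' hE' rfl hkk
  have h2 := dom_bound2 S hε0 hε1 hj IH E' (Or.inr ⟨hE', hk'⟩)
  set b : ℝ := (j : ℝ) - S.k E' with hb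
  have hkj' : (S.k E : ℝ) ≤ j := by exact_mod_cast hkj
  have hb0 : 0 ≤ b := by
    have : (S.k E' : ℝ) ≤ S.k E := by exact_mod_cast hkk
    simp only [hb]; linarith
  have h3 := growth_bound hη0 hε0 h4 h5 hb0
  have h6 : ε + (Real.exp (ε ^ 2 * ((S.k E : ℝ) - S.k E')) - 1) ≤ ε + (Real.exp (ε ^ 2 * b) - 1) := by
    have : Real.exp (ε ^ 2 * ((S.k E : ℝ) - S.k E')) ≤ Real.exp (ε ^ 2 * b) := by
      refine Real.exp_le_exp.2 (mul_le_mul_of_nonneg_left ?_ (by positivity))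
      simp only [hb]; linarith
    linarith
  have h7 : 0 ≤ ε + (Real.exp (ε ^ 2 * b) - 1) := by
    have := Real.one_le_exp (x := ε ^ 2 * b) (by positivity)
    linarith
  calc ‖S.r E - S.r E'‖ ≤ (ε + (Real.exp (ε ^ 2 * ((S.k E : ℝ) - S.k E')) - 1)) * ‖S.r E'‖ := h1
    _ ≤ (ε + (Real.exp (ε ^ 2 * b) - 1)) * ((1 + ε) * Real.exp (4 * ε * b) * ‖S.r (S.Bd j)‖) :=
        mul_le_mul h6 h2 (norm_nonneg _) h7
    _ = (1 + ε) * ((ε + (Real.exp (ε ^ 2 * b) - 1)) * Real.exp (4 * ε * b)) * ‖S.r (S.Bd j)‖ := by ring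
    _ ≤ _ := by
        refine mul_le_mul_of_nonneg_right ?_ (norm_nonneg _)
        exact mul_le_mul_of_nonneg_left h3 (by linarith)

end

end Pool.Agent.ZF
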