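import Pool.Agent.ZF.R2Contract

/-!
Contraction argument, clean-level version: the induction step.
-/

namespace Pool.Agent.ZF

open Finset

section
variable {Δ Ω : Type*} {M E0 η0 s ε : ℝ} (S : Sys2 Δ Ω M E0 η0 s)

theorem R_bound2 (hs : 0 ≤ s) (hε0 : 0 < ε) (hε1 : ε ≤ 1 / 1000) {j : ℕ} (hj : j ≤ S.J)
    (IH : ∀ i < j, Good2 S ε i) (E : Δ) (hE : Below S j E) (om : ℂ) (hom : ‖om - 1‖ ≤ s) :
    ‖om * S.r E‖ ≤ (1 + s) * (1 + ε) * Real.exp (4 * ε * ((j : ℝ) - S.k E)) * ‖S.r (S.Bd j)‖ := by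
  have h1 := dom_bound2 S hε0 hε1 hj IH E hE
  have h2 : ‖om‖ ≤ 1 + s := by
    have h3 : ‖om‖ ≤ ‖(1 : ℂ)‖ + ‖om - 1‖ := by
      have := norm_add_le (1 : ℂ) (om - 1)
      simpa using this
    rw [norm_one] at h3
    linarith
  rw [norm_mul]
  calc ‖om‖ * ‖S.r E‖ ≤ (1 + s) * ((1 + ε) * Real.exp (4 * ε * ((j : ℝ) - S.k E)) * ‖S.r (S.Bd j)‖) :=
        mul_le_mul h2 h1 (norm_nonneg _) (by linarith)
    _ = _ := by ring

theorem R_diff2 (hs : 0 ≤ s) (hη0 : 0 < η0) (h4 : 4 * ε ≤ η0) (h5 : ε ^ 2 ≤ η0)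
    (hε0 : 0 < ε) (hε1 : ε ≤ 1 / 1000) {j : ℕ} (hj : j ≤ S.J)
    (IH : ∀ i < j, Good2 S ε i) (E E' : Δ) (hE : Below S j E) (hE' : Below S j E')
    (om om' : ℂ) (hom : ‖om - 1‖ ≤ s) (hom' : ‖om' - 1‖ ≤ s) :
    ‖om * S.r E - om' * S.r E'‖ ≤ (1 + ε) * ε * ‖S.r (S.Bd j)‖
      + (1 + ε) * ((4 * ε ^ 2 + ε ^ 2) / η0 + s) * ‖S.r (S.Bd j)‖
          * Real.exp (2 * η0 * ((j : ℝ) - S.k E))
      + (1 + ε) * ((4 * ε ^ 2 + ε ^ 2) / η0 + s) * ‖S.r (S.Bd j)‖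
          * Real.exp (2 * η0 * ((j : ℝ) - S.k E')) := by
  have hk := (hE.kle S hj).2
  have hk' := (hE'.kle S hj).2
  have b1 := dom_bound2 S hε0 hε1 hj IH E hE
  have b2 := dom_bound2 S hε0 hε1 hj IH E' hE'
  set a : ℝ := (j : ℝ) - S.k E with ha
  set b : ℝ := (j : ℝ) - S.k E' with hb
  have ha0 : 0 ≤ a := by
    have : (S.k E : ℝ) ≤ j := by exact_mod_cast hk
    simp only [ha]; linarith
  have hb0 : 0 ≤ b := by
    have : (S.k E' : ℝ) ≤ j := by exact_mod_cast hk'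
    simp only [hb]; linarith
  set Ea := Real.exp (2 * η0 * a) with hEa
  set Eb := Real.exp (2 * η0 * b) with hEb
  set ρ := ‖S.r (S.Bd j)‖ with hρ
  have hρ0 : 0 ≤ ρ := norm_nonneg _
  have hexa : Real.exp (4 * ε * a) ≤ Ea := by
    refine Real.exp_le_exp.2 (mul_le_mul_of_nonneg_right ?_ ha0)
    linarith
  have hexb : Real.exp (4 * ε * b) ≤ Eb := by
    refine Real.exp_le_exp.2 (mul_le_mul_of_nonneg_right ?_ hb0)
    linarith
  have c1 : ‖S.r E‖ ≤ (1 + ε) * Ea * ρ :=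
    b1.trans (mul_le_mul_of_nonneg_right (mul_le_mul_of_nonneg_left hexa (by linarith)) hρ0)
  have c2 : ‖S.r E'‖ ≤ (1 + ε) * Eb * ρ :=
    b2.trans (mul_le_mul_of_nonneg_right (mul_le_mul_of_nonneg_left hexb (by linarith)) hρ0)
  have hEa0 : 0 < Ea := Real.exp_pos _
  have hEb0 : 0 < Eb := Real.exp_pos _
  have hq : 0 ≤ (4 * ε ^ 2 + ε ^ 2) / η0 := by positivity
  have d1 : ‖S.r E - S.r E'‖
      ≤ (1 + ε) * (ε + (4 * ε ^ 2 + ε ^ 2) / η0 * (Ea + Eb)) * ρ := by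
    rcases le_total (S.k E') (S.k E) with h | h
    · refine (diff_bound2 S hη0 h4 h5 hε0 hε1 hj IH _ _ hE hE' h).trans ?_
      refine mul_le_mul_of_nonneg_right (mul_le_mul_of_nonneg_left ?_ (by linarith)) hρ0
      have : (4 * ε ^ 2 + ε ^ 2) / η0 * Eb ≤ (4 * ε ^ 2 + ε ^ 2) / η0 * (Ea + Eb) :=
        mul_le_mul_of_nonneg_left (by linarith) hq
      linarith
    · rw [norm_sub_rev]
      refine (diff_bound2 S hη0 h4 h5 hε0 hε1 hj IH _ _ hE' hE h).trans ?_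
      refine mul_le_mul_of_nonneg_right (mul_le_mul_of_nonneg_left ?_ (by linarith)) hρ0
      have : (4 * ε ^ 2 + ε ^ 2) / η0 * Ea ≤ (4 * ε ^ 2 + ε ^ 2) / η0 * (Ea + Eb) :=
        mul_le_mul_of_nonneg_left (by linarith) hq
      linarith
  have d2 : ‖om * S.r E - om' * S.r E'‖ ≤ ‖S.r E - S.r E'‖ + s * ‖S.r E‖
      + s * ‖S.r E'‖ := by
    have e : om * S.r E - om' * S.r E' = (S.r E - S.r E') + (om - 1) * S.r E
        - (om' - 1) * S.r E' := by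
      ring
    rw [e]
    refine (norm_sub_le _ _).trans (add_le_add ((norm_add_le _ _).trans (add_le_add le_rfl ?_)) ?_)
    · rw [norm_mul]; exact mul_le_mul_of_nonneg_right hom (norm_nonneg _)
    · rw [norm_mul]; exact mul_le_mul_of_nonneg_right hom' (norm_nonneg _)
  have e1 : s * ‖S.r E‖ ≤ s * ((1 + ε) * Ea * ρ) := mul_le_mul_of_nonneg_left c1 hs
  have e2 : s * ‖S.r E'‖ ≤ s * ((1 + ε) * Eb * ρ) := mul_le_mul_of_nonneg_left c2 hs
  calc ‖om * S.r E - om' * S.r E'‖ ≤ _ := d2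
    _ ≤ (1 + ε) * (ε + (4 * ε ^ 2 + ε ^ 2) / η0 * (Ea + Eb)) * ρ + s * ((1 + ε) * Ea * ρ)
        + s * ((1 + ε) * Eb * ρ) := add_le_add (add_le_add d1 e1) e2
    _ = _ := by ring

theorem err_bound2 (hs : 0 ≤ s) (h4 : 4 * ε ≤ η0)
    (hε0 : 0 < ε) (hε1 : ε ≤ 1 / 1000) {j : ℕ} (hj : j ≤ S.J)
    (IH : ∀ i < j, Good2 S ε i) (O : Finset Ω) (p : Ω → ℝ) (ρ om : Ω → ℂ) (dom : Ω → Δ)
    (e : ℝ) (he : 0 ≤ e)
    (hp : ∀ o ∈ O, 0 ≤ p o) (hdom : ∀ o ∈ O, Below S j (dom o)) (hom : ∀ o ∈ O, ‖om o - 1‖ ≤ s)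
    (hρ : ∀ o ∈ O, ‖ρ o - 1‖ ≤ e)
    (hmom : ∑ o ∈ O, p o * Real.exp (2 * η0 * ((j : ℝ) - S.k (dom o))) ≤ E0) :
    ‖∑ o ∈ O, (p o : ℂ) * (ρ o - 1) * (om o * S.r (dom o))‖
      ≤ e * ((1 + s) * (1 + ε) * E0) * ‖S.r (S.Bd j)‖ := by
  refine (norm_sum_le _ _).trans ?_
  have h1 : ∀ o ∈ O, ‖(p o : ℂ) * (ρ o - 1) * (om o * S.r (dom o))‖
      ≤ (e * ((1 + s) * (1 + ε)) * ‖S.r (S.Bd j)‖)
        * (p o * Real.exp (2 * η0 * ((j : ℝ) - S.k (dom o)))) := by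
    intro o ho
    have hR := R_bound2 S hs hε0 hε1 hj IH (dom o) (hdom o ho) (om o) (hom o ho)
    have hk := ((hdom o ho).kle S hj).2
    have hp0 := hp o ho
    have ha0 : 0 ≤ (j : ℝ) - S.k (dom o) := by
      have : (S.k (dom o) : ℝ) ≤ j := by exact_mod_cast hk
      linarith
    have hexa : Real.exp (4 * ε * ((j : ℝ) - S.k (dom o)))
        ≤ Real.exp (2 * η0 * ((j : ℝ) - S.k (dom o))) := by
      refine Real.exp_le_exp.2 (mul_le_mul_of_nonneg_right ?_ ha0)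
      linarith
    rw [norm_mul, norm_mul, Complex.norm_real, Real.norm_eq_abs, abs_of_nonneg hp0]
    have h2 : p o * ‖ρ o - 1‖ ≤ p o * e := mul_le_mul_of_nonneg_left (hρ o ho) hp0
    have h3 : ‖om o * S.r (dom o)‖ ≤ (1 + s) * (1 + ε)
        * Real.exp (2 * η0 * ((j : ℝ) - S.k (dom o))) * ‖S.r (S.Bd j)‖ := by
      refine hR.trans (mul_le_mul_of_nonneg_right ?_ (norm_nonneg _))
      exact mul_le_mul_of_nonneg_left hexa (by positivity)
    calc p o * ‖ρ o - 1‖ * ‖om o * S.r (dom o)‖ ≤ (p o * e) *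
          ((1 + s) * (1 + ε) * Real.exp (2 * η0 * ((j : ℝ) - S.k (dom o))) * ‖S.r (S.Bd j)‖) :=
          mul_le_mul h2 h3 (norm_nonneg _) (by positivity)
      _ = _ := by ring
  refine (Finset.sum_le_sum h1).trans ?_
  rw [← Finset.mul_sum]
  calc (e * ((1 + s) * (1 + ε)) * ‖S.r (S.Bd j)‖)
        * ∑ o ∈ O, p o * Real.exp (2 * η0 * ((j : ℝ) - S.k (dom o)))
      ≤ (e * ((1 + s) * (1 + ε)) * ‖S.r (S.Bd j)‖) * E0 :=
        mul_le_mul_of_nonneg_left hmom (by positivity)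
    _ = _ := by ring

set_option maxHeartbeats 4000000 in
/-- the step estimate, relative to the ball of the smaller scale -/
theorem step2 (hM : 1 ≤ M) (hE : 1 ≤ E0) (hη0 : 0 < η0)
    (hη1 : η0 ≤ 1) (hε : ε * (1000 * M ^ 2 * E0) = η0) (hs : 0 ≤ s) (hs1 : s ≤ ε ^ 3)
    (m : ℕ) (IH : ∀ i < m, Good2 S ε i) (D D' : Δ) (hD : D ∈ S.adm) (hD' : D' ∈ S.adm)
    (hk' : S.k D' = m) (hk : m ≤ S.k D) :
    (1 + 4 * ε) * ‖S.r D - S.r D'‖
      ≤ (ε + (Real.exp (ε ^ 2 * ((S.k D : ℝ) - m)) - 1)) * ‖S.r (S.Bd m)‖ := by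
  classical
  obtain ⟨hε0, hε1, h4, h5, h6, h7, h8⟩ := consts hM hE hη0 hη1 hε hs hs1
  have hM0 : 0 < M := by linarith
  have hE0 : 0 < E0 := by linarith
  have hmJ : m ≤ S.J := hk.trans (S.hkJ D hD)
  obtain ⟨O, p, σ, om, dom, ho0, hp, hp1, hpc, hd0, hom0, hdom, hom, hσ, hmom, hr⟩ :=
    S.hexp D hD m hk
  obtain ⟨O', p', σ', om', dom', ho0', hp', hp1', hpc', hd0', hom0', hdom', hom', hσ', hmom', hr'⟩ :=
    S.hexp D' hD' m hk'.ge
  set ρ := ‖S.r (S.Bd m)‖ with hρ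
  have hρ0 : 0 ≤ ρ := norm_nonneg _
  set n : ℝ := (S.k D : ℝ) - m with hn
  have hn0 : 0 ≤ n := by
    have : (m : ℝ) ≤ S.k D := by exact_mod_cast hk
    simp only [hn]; linarith
  have hbel : ∀ o ∈ O, Below S m (dom o) := fun o ho => by
    by_cases h : o = S.o0
    · left; rw [h, hd0]
    · right; exact hdom o ho h
  have hbel' : ∀ o ∈ O', Below S m (dom' o) := fun o ho => by
    by_cases h : o = S.o0
    · left; rw [h, hd0']
    · right; exact hdom' o ho h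
  have eD : (S.k D : ℝ) - m + 1 = n + 1 := by simp only [hn]
  have eD' : (S.k D' : ℝ) - m + 1 = 1 := by rw [hk']; ring
  have hx0 : 0 ≤ Real.exp (ε ^ 2 * n) - 1 := by
    have := Real.one_le_exp (x := ε ^ 2 * n) (by positivity)
    linarith
  have hy0 : 0 ≤ Real.exp (s * n) - 1 := by
    have := Real.one_le_exp (x := s * n) (by positivity)
    linarith
  have hy : Real.exp (s * n) - 1 ≤ (s / ε ^ 2) * (Real.exp (ε ^ 2 * n) - 1) :=
    exp_sub_one_le hs h6 (by positivity) hn0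
  have h2s : 0 ≤ Real.exp (2 * s) - 1 := by
    have := Real.one_le_exp (x := 2 * s) (by positivity)
    linarith
  have hMi : M⁻¹ ≤ 1 := inv_le_one_of_one_le₀ hM
  have hMi0 : 0 < M⁻¹ := by positivity
  -- the main part
  set q : Ω → ℝ := fun o => p o - (if o = S.o0 then M⁻¹ else 0) with hq
  set q' : Ω → ℝ := fun o => p' o - (if o = S.o0 then M⁻¹ else 0) with hq'
  have hq0 : ∀ o ∈ O, 0 ≤ q o := fun o ho => by
    simp only [hq]
    split_ifs with h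
    · rw [h]; linarith
    · simpa using hp o ho
  have hq0' : ∀ o ∈ O', 0 ≤ q' o := fun o ho => by
    simp only [hq']
    split_ifs with h
    · rw [h]; linarith
    · simpa using hp' o ho
  have hqp : ∀ o, q o ≤ p o := fun o => by
    simp only [hq]; split_ifs <;> linarith
  have hqp' : ∀ o, q' o ≤ p' o := fun o => by
    simp only [hq']; split_ifs <;> linarith
  have hq1 : ∑ o ∈ O, q o = 1 - M⁻¹ := by
    simp only [hq, Finset.sum_sub_distrib, hp1, Finset.sum_ite_eq', ho0, if_true]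
  have hq1' : ∑ o ∈ O', q' o = 1 - M⁻¹ := by
    simp only [hq', Finset.sum_sub_distrib, hp1', Finset.sum_ite_eq', ho0', if_true]
  have hsumq : ∑ o ∈ O, (q o : ℂ) * (om o * S.r (dom o))
      = ∑ o ∈ O, (p o : ℂ) * (om o * S.r (dom o)) - (M⁻¹ : ℝ) * S.r (S.Bd m) := by
    have e1 : ∀ o ∈ O, (q o : ℂ) * (om o * S.r (dom o))
        = (p o : ℂ) * (om o * S.r (dom o))
          - (if o = S.o0 then ((M⁻¹ : ℝ) : ℂ) * S.r (S.Bd m) else 0) := by
      intro o _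
      simp only [hq]
      split_ifs with h
      · subst h
        rw [hom0, hd0]; push_cast; ring
      · push_cast; ring
    rw [Finset.sum_congr rfl e1, Finset.sum_sub_distrib, Finset.sum_ite_eq', if_pos ho0]
  have hsumq' : ∑ o ∈ O', (q' o : ℂ) * (om' o * S.r (dom' o))
      = ∑ o ∈ O', (p' o : ℂ) * (om' o * S.r (dom' o)) - (M⁻¹ : ℝ) * S.r (S.Bd m) := by
    have e1 : ∀ o ∈ O', (q' o : ℂ) * (om' o * S.r (dom' o))
        = (p' o : ℂ) * (om' o * S.r (dom' o))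
          - (if o = S.o0 then ((M⁻¹ : ℝ) : ℂ) * S.r (S.Bd m) else 0) := by
      intro o _
      simp only [hq']
      split_ifs with h
      · subst h
        rw [hom0', hd0']; push_cast; ring
      · push_cast; ring
    rw [Finset.sum_congr rfl e1, Finset.sum_sub_distrib, Finset.sum_ite_eq', if_pos ho0']
  have hsplit : S.r D - S.r D' = (∑ o ∈ O, (q o : ℂ) * (om o * S.r (dom o))
        - ∑ o ∈ O', (q' o : ℂ) * (om' o * S.r (dom' o)))
        + ∑ o ∈ O, (p o : ℂ) * (σ o - 1) * (om o * S.r (dom o))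
        - ∑ o ∈ O', (p' o : ℂ) * (σ' o - 1) * (om' o * S.r (dom' o)) := by
    rw [hsumq, hsumq', hr, hr']
    have e1 : ∑ o ∈ O, (p o : ℂ) * σ o * om o * S.r (dom o)
        = ∑ o ∈ O, (p o : ℂ) * (om o * S.r (dom o))
          + ∑ o ∈ O, (p o : ℂ) * (σ o - 1) * (om o * S.r (dom o)) := by
      rw [← Finset.sum_add_distrib]
      exact Finset.sum_congr rfl fun o _ => by ring
    have e2 : ∑ o ∈ O', (p' o : ℂ) * σ' o * om' o * S.r (dom' o)
        = ∑ o ∈ O', (p' o : ℂ) * (om' o * S.r (dom' o))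
          + ∑ o ∈ O', (p' o : ℂ) * (σ' o - 1) * (om' o * S.r (dom' o)) := by
      rw [← Finset.sum_add_distrib]
      exact Finset.sum_congr rfl fun o _ => by ring
    rw [e1, e2]
    ring
  set Hc : ℝ := (1 + ε) * ((4 * ε ^ 2 + ε ^ 2) / η0 + s) * ρ with hHc
  have hHc0 : 0 ≤ Hc := by positivity
  have B1 := mix2 O O' q q' (fun o => om o * S.r (dom o)) (fun o => om' o * S.r (dom' o))
    (1 - M⁻¹) ((1 + ε) * ε * ρ)
    (fun o => Hc * Real.exp (2 * η0 * ((m : ℝ) - S.k (dom o))))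
    (fun o => Hc * Real.exp (2 * η0 * ((m : ℝ) - S.k (dom' o))))
    (by linarith) (by positivity) (fun o _ => by positivity) (fun o _ => by positivity)
    (fun o ho o' ho' => R_diff2 S hs hη0 h4 h5 hε0 hε1 hmJ IH _ _ (hbel o ho) (hbel' o' ho')
      _ _ (hom o ho) (hom' o' ho')) hq0 hq1 hq0' hq1'
  have hH1 : ∑ o ∈ O, q o * (Hc * Real.exp (2 * η0 * ((m : ℝ) - S.k (dom o)))) ≤ Hc * E0 := by
    calc ∑ o ∈ O, q o * (Hc * Real.exp (2 * η0 * ((m : ℝ) - S.k (dom o))))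
        ≤ ∑ o ∈ O, p o * (Hc * Real.exp (2 * η0 * ((m : ℝ) - S.k (dom o)))) :=
          Finset.sum_le_sum fun o _ => mul_le_mul_of_nonneg_right (hqp o) (by positivity)
      _ = Hc * ∑ o ∈ O, p o * Real.exp (2 * η0 * ((m : ℝ) - S.k (dom o))) := by
          rw [Finset.mul_sum]; exact Finset.sum_congr rfl fun o _ => by ring
      _ ≤ Hc * E0 := mul_le_mul_of_nonneg_left hmom hHc0
  have hH1' : ∑ o ∈ O', q' o * (Hc * Real.exp (2 * η0 * ((m : ℝ) - S.k (dom' o)))) ≤ Hc * E0 := by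
    calc ∑ o ∈ O', q' o * (Hc * Real.exp (2 * η0 * ((m : ℝ) - S.k (dom' o))))
        ≤ ∑ o ∈ O', p' o * (Hc * Real.exp (2 * η0 * ((m : ℝ) - S.k (dom' o)))) :=
          Finset.sum_le_sum fun o _ => mul_le_mul_of_nonneg_right (hqp' o) (by positivity)
      _ = Hc * ∑ o ∈ O', p' o * Real.exp (2 * η0 * ((m : ℝ) - S.k (dom' o))) := by
          rw [Finset.mul_sum]; exact Finset.sum_congr rfl fun o _ => by ring
      _ ≤ Hc * E0 := mul_le_mul_of_nonneg_left hmom' hHc0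
  have hexpn : Real.exp (s * (n + 1)) - 1
      ≤ (Real.exp (2 * s) - 1) + Real.exp (2 * s) * (Real.exp (s * n) - 1) := by
    have e1 : (Real.exp (2 * s) - 1) + Real.exp (2 * s) * (Real.exp (s * n) - 1)
        = Real.exp (s * (n + 2)) - 1 := by
      have : Real.exp (s * (n + 2)) = Real.exp (2 * s) * Real.exp (s * n) := by
        rw [← Real.exp_add]; congr 1; ring
      rw [this]; ring
    rw [e1]
    have : Real.exp (s * (n + 1)) ≤ Real.exp (s * (n + 2)) :=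
      Real.exp_le_exp.2 (mul_le_mul_of_nonneg_left (by linarith) hs)
    linarith
  have hexp1 : Real.exp (s * 1) - 1 ≤ Real.exp (2 * s) - 1 := by
    have : Real.exp (s * 1) ≤ Real.exp (2 * s) := Real.exp_le_exp.2 (by linarith)
    linarith
  have hyy : 0 ≤ (Real.exp (2 * s) - 1) + Real.exp (2 * s) * (Real.exp (s * n) - 1) := by
    have : 0 ≤ Real.exp (2 * s) * (Real.exp (s * n) - 1) := mul_nonneg (Real.exp_pos _).le hy0
    linarith
  have B2 := err_bound2 S hs h4 hε0 hε1 hmJ IH O p σ om dom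
    ((Real.exp (2 * s) - 1) + Real.exp (2 * s) * (Real.exp (s * n) - 1)) hyy hp hbel hom
    (fun o ho => by
      have := hσ o ho
      rw [eD] at this
      exact this.trans hexpn) hmom
  have B3 := err_bound2 S hs h4 hε0 hε1 hmJ IH O' p' σ' om' dom'
    (Real.exp (2 * s) - 1) h2s hp' hbel' hom'
    (fun o ho => by
      have := hσ' o ho
      rw [eD'] at this
      exact this.trans hexp1) hmom'
  have hEM : E0 ≤ M * E0 := by nlinarith
  have hc1 : (1 + s) * (1 + ε) * E0 ≤ (1 + s) * (1 + ε) * (M * E0) :=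
    mul_le_mul_of_nonneg_left hEM (by positivity)
  have hT := scalar_ineq (x := Real.exp (ε ^ 2 * n) - 1) (y := Real.exp (s * n) - 1)
    hM hE hη0 hη1 hε hs hs1 hx0 hy hy0
  have htot : ‖S.r D - S.r D'‖ ≤ ((1 - M⁻¹) * ((1 + ε) * ε)
      + 2 * M * (((1 + ε) * ((4 * ε ^ 2 + ε ^ 2) / η0 + s)) * E0)
      + ((Real.exp (2 * s) - 1) + Real.exp (2 * s) * (Real.exp (s * n) - 1)
        + (Real.exp (2 * s) - 1)) * ((1 + s) * (1 + ε) * (M * E0))) * ρ := by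
    rw [hsplit]
    refine (norm_sub_le _ _).trans ?_
    refine (add_le_add ((norm_add_le _ _).trans (add_le_add B1 B2)) B3).trans ?_
    have i1 : Hc * E0 ≤ M * (((1 + ε) * ((4 * ε ^ 2 + ε ^ 2) / η0 + s)) * E0) * ρ := by
      have e : M * (((1 + ε) * ((4 * ε ^ 2 + ε ^ 2) / η0 + s)) * E0) * ρ = M * (Hc * E0) := by
        simp only [hHc]; ring
      rw [e]
      have : 0 ≤ Hc * E0 := by positivity
      nlinarith
    have i2 : ((Real.exp (2 * s) - 1) + Real.exp (2 * s) * (Real.exp (s * n) - 1))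
        * ((1 + s) * (1 + ε) * E0) * ρ
        ≤ ((Real.exp (2 * s) - 1) + Real.exp (2 * s) * (Real.exp (s * n) - 1))
        * ((1 + s) * (1 + ε) * (M * E0)) * ρ :=
      mul_le_mul_of_nonneg_right (mul_le_mul_of_nonneg_left hc1 hyy) hρ0
    have i3 : (Real.exp (2 * s) - 1) * ((1 + s) * (1 + ε) * E0) * ρ
        ≤ (Real.exp (2 * s) - 1) * ((1 + s) * (1 + ε) * (M * E0)) * ρ :=
      mul_le_mul_of_nonneg_right (mul_le_mul_of_nonneg_left hc1 h2s) hρ0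
    calc _ ≤ ((1 - M⁻¹) * ((1 + ε) * ε * ρ) + Hc * E0 + Hc * E0)
          + ((Real.exp (2 * s) - 1) + Real.exp (2 * s) * (Real.exp (s * n) - 1))
            * ((1 + s) * (1 + ε) * E0) * ρ
          + (Real.exp (2 * s) - 1) * ((1 + s) * (1 + ε) * E0) * ρ := by
            linarith
      _ ≤ ((1 - M⁻¹) * ((1 + ε) * ε * ρ)
            + M * (((1 + ε) * ((4 * ε ^ 2 + ε ^ 2) / η0 + s)) * E0) * ρ
            + M * (((1 + ε) * ((4 * ε ^ 2 + ε ^ 2) / η0 + s)) * E0) * ρ)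
          + ((Real.exp (2 * s) - 1) + Real.exp (2 * s) * (Real.exp (s * n) - 1))
            * ((1 + s) * (1 + ε) * (M * E0)) * ρ
          + (Real.exp (2 * s) - 1) * ((1 + s) * (1 + ε) * (M * E0)) * ρ := by
            linarith
      _ = _ := by ring
  calc (1 + 4 * ε) * ‖S.r D - S.r D'‖ ≤ (1 + 4 * ε) * (((1 - M⁻¹) * ((1 + ε) * ε)
      + 2 * M * (((1 + ε) * ((4 * ε ^ 2 + ε ^ 2) / η0 + s)) * E0)
      + ((Real.exp (2 * s) - 1) + Real.exp (2 * s) * (Real.exp (s * n) - 1)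
        + (Real.exp (2 * s) - 1)) * ((1 + s) * (1 + ε) * (M * E0))) * ρ) :=
        mul_le_mul_of_nonneg_left htot (by linarith)
    _ = ((1 + 4 * ε) * ((1 - M⁻¹) * ((1 + ε) * ε)
      + 2 * M * (((1 + ε) * ((4 * ε ^ 2 + ε ^ 2) / η0 + s)) * E0)
      + ((Real.exp (2 * s) - 1) + Real.exp (2 * s) * (Real.exp (s * n) - 1)
        + (Real.exp (2 * s) - 1)) * ((1 + s) * (1 + ε) * (M * E0)))) * ρ := by ring
    _ ≤ (ε + (Real.exp (ε ^ 2 * n) - 1)) * ρ := mul_le_mul_of_nonneg_right hT hρ0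

theorem good2_all (hM : 1 ≤ M) (hE : 1 ≤ E0) (hη0 : 0 < η0)
    (hη1 : η0 ≤ 1) (hε : ε * (1000 * M ^ 2 * E0) = η0) (hs : 0 ≤ s) (hs1 : s ≤ ε ^ 3) (m : ℕ) :
    Good2 S ε m := by
  induction m using Nat.strong_induction_on with
  | _ m ih =>
    rcases m with _ | j
    · exact good2_zero S hM hE hη0 hη1 hε hs hs1
    obtain ⟨hε0, hε1, h4, h5, h6, h7, h8⟩ := consts hM hE hη0 hη1 hε hs hs1
    intro D hD D' hD' hk' hk
    have hmJ : j + 1 ≤ S.J := hk.trans (S.hkJ D hD)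
    obtain ⟨hB1, hkB1⟩ := S.hB (j + 1) hmJ
    obtain ⟨hB0, hkB0⟩ := S.hB j (by omega)
    -- the ball of scale j+1 is nonzero
    obtain ⟨hne0, hc⟩ := ih j (by omega) (S.Bd (j + 1)) hB1 (S.Bd j) hB0 hkB0 (by omega)
    rw [hkB1] at hc
    have e1 : (((j + 1 : ℕ) : ℝ) - (j : ℕ)) = 1 := by push_cast; ring
    rw [e1, mul_one] at hc
    have h9 : Real.exp (ε ^ 2) ≤ 1 + 2 * ε ^ 2 := exp_le_of_small (by positivity) (by nlinarith)
    have hρ0 : 0 < ‖S.r (S.Bd j)‖ := norm_pos_iff.2 hne0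
    have hc2 : ‖S.r (S.Bd (j + 1)) - S.r (S.Bd j)‖ ≤ (2 * ε) * ‖S.r (S.Bd j)‖ := by
      refine hc.trans (mul_le_mul_of_nonneg_right ?_ (norm_nonneg _))
      nlinarith
    have hρ1 : 0 < ‖S.r (S.Bd (j + 1))‖ := by
      have h1 : ‖S.r (S.Bd j)‖ ≤ ‖S.r (S.Bd (j + 1))‖ + ‖S.r (S.Bd (j + 1)) - S.r (S.Bd j)‖ := by
        have := norm_sub_le (S.r (S.Bd (j + 1))) (S.r (S.Bd (j + 1)) - S.r (S.Bd j))
        simpa using this
      nlinarith
    -- compare D' with the ball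
    have hst := step2 S hM hE hη0 hη1 hε hs hs1 (j + 1) ih D' (S.Bd (j + 1)) hD' hB1 hkB1 hk'.ge
    rw [hk', sub_self, mul_zero, Real.exp_zero, sub_self, add_zero] at hst
    set ρ := ‖S.r (S.Bd (j + 1))‖ with hρ
    have hd1 : ‖S.r D' - S.r (S.Bd (j + 1))‖ ≤ ε * ρ := by
      have h1 : 1 * ‖S.r D' - S.r (S.Bd (j + 1))‖ ≤ (1 + 4 * ε) * ‖S.r D' - S.r (S.Bd (j + 1))‖ :=
        mul_le_mul_of_nonneg_right (by linarith) (norm_nonneg _)
      linarith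
    have hlow : (1 - ε) * ρ ≤ ‖S.r D'‖ := by
      have h1 : ρ ≤ ‖S.r D'‖ + ‖S.r D' - S.r (S.Bd (j + 1))‖ := by
        have := norm_sub_le (S.r D') (S.r D' - S.r (S.Bd (j + 1)))
        simpa using this
      linarith
    have hlow2 : ρ ≤ (1 + 4 * ε) * ‖S.r D'‖ := by
      have h10 : 1 ≤ (1 + 4 * ε) * (1 - ε) := by nlinarith
      have h11 : (1 + 4 * ε) * ((1 - ε) * ρ) ≤ (1 + 4 * ε) * ‖S.r D'‖ :=
        mul_le_mul_of_nonneg_left hlow (by linarith)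
      have h12 : 1 * ρ ≤ ((1 + 4 * ε) * (1 - ε)) * ρ := mul_le_mul_of_nonneg_right h10 hρ1.le
      linarith
    refine ⟨?_, ?_⟩
    · intro h0
      rw [h0, norm_zero] at hlow2
      linarith
    · have hst2 := step2 S hM hE hη0 hη1 hε hs hs1 (j + 1) ih D D' hD hD' hk' hk
      have hx0 : 0 ≤ ε + (Real.exp (ε ^ 2 * ((S.k D : ℝ) - (j + 1 : ℕ))) - 1) := by
        have h1 : 0 ≤ ε ^ 2 * ((S.k D : ℝ) - (j + 1 : ℕ)) := by
          have : ((j + 1 : ℕ) : ℝ) ≤ S.k D := by exact_mod_cast hk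
          exact mul_nonneg (by positivity) (by linarith)
        have := Real.one_le_exp h1
        linarith
      have h13 : (1 + 4 * ε) * ‖S.r D - S.r D'‖
          ≤ (ε + (Real.exp (ε ^ 2 * ((S.k D : ℝ) - (j + 1 : ℕ))) - 1)) * ((1 + 4 * ε) * ‖S.r D'‖) :=
        hst2.trans (mul_le_mul_of_nonneg_left hlow2 hx0)
      have h14 : (1 + 4 * ε) * ‖S.r D - S.r D'‖
          ≤ (1 + 4 * ε) * ((ε + (Real.exp (ε ^ 2 * ((S.k D : ℝ) - (j + 1 : ℕ))) - 1)) * ‖S.r D'‖) := by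
        linarith
      exact le_of_mul_le_mul_left h14 (by linarith)

theorem Sys2.bounds (hM : 1 ≤ M) (hE : 1 ≤ E0) (hη0 : 0 < η0)
    (hη1 : η0 ≤ 1) (hε : ε * (1000 * M ^ 2 * E0) = η0) (hs : 0 ≤ s) (hs1 : s ≤ ε ^ 3)
    (D : Δ) (hD : D ∈ S.adm) :
    S.r D ≠ 0 ∧ ‖S.r D‖ ≤ Real.exp ((S.k D : ℝ) + 1) ∧ Real.exp (-((S.k D : ℝ) + 1)) ≤ ‖S.r D‖ := by
  obtain ⟨hε0, hε1, h4, h5, h6, h7, h8⟩ := consts hM hE hη0 hη1 hε hs hs1
  have hG := good2_all S hM hE hη0 hη1 hε hs hs1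
  obtain ⟨hB0, hk0⟩ := S.hB 0 (Nat.zero_le _)
  have hkJ := S.hkJ D hD
  obtain ⟨hBk, hkk⟩ := S.hB (S.k D) hkJ
  set k : ℝ := (S.k D : ℝ) with hk
  have hk0' : 0 ≤ k := by positivity
  have hs3 : s ≤ 1 / 1000 := by linarith
  have h0 : ‖S.r (S.Bd 0) - 1‖ ≤ 2 * s := by
    have h := S.hcr _ hB0
    rw [hk0] at h
    have e : s * (((0 : ℕ) : ℝ) + 1) = s := by push_cast; ring
    rw [e] at h
    have := exp_le_of_small hs (by linarith)
    linarith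
  have hup0 : ‖S.r (S.Bd 0)‖ ≤ 1 + 2 * s := by
    have h1 : ‖S.r (S.Bd 0)‖ ≤ ‖(1 : ℂ)‖ + ‖S.r (S.Bd 0) - 1‖ := by
      have := norm_add_le (1 : ℂ) (S.r (S.Bd 0) - 1)
      simpa using this
    rw [norm_one] at h1
    linarith
  have hlow0 : 1 - 2 * s ≤ ‖S.r (S.Bd 0)‖ := by
    have h1 : ‖(1 : ℂ)‖ ≤ ‖S.r (S.Bd 0)‖ + ‖S.r (S.Bd 0) - 1‖ := by
      have := norm_sub_le (S.r (S.Bd 0)) (S.r (S.Bd 0) - 1)
      simpa using this
    rw [norm_one] at h1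
    linarith
  obtain ⟨_, hu⟩ := hG 0 D hD (S.Bd 0) hB0 hk0 (Nat.zero_le _)
  have hu2 : ‖S.r D‖ ≤ (ε + Real.exp (ε ^ 2 * k)) * (1 + 2 * s) := by
    have h1 : ‖S.r D‖ ≤ ‖S.r (S.Bd 0)‖ + ‖S.r D - S.r (S.Bd 0)‖ := by
      have := norm_add_le (S.r (S.Bd 0)) (S.r D - S.r (S.Bd 0))
      simpa using this
    rw [Nat.cast_zero, sub_zero] at hu
    have h2 : ‖S.r D‖ ≤ (ε + Real.exp (ε ^ 2 * k)) * ‖S.r (S.Bd 0)‖ := by
      rw [← hk] at hu
      linarith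
    exact h2.trans (mul_le_mul_of_nonneg_left hup0 (by positivity))
  obtain ⟨_, hl⟩ := hG (S.k D) D hD (S.Bd (S.k D)) hBk hkk le_rfl
  rw [sub_self, mul_zero, Real.exp_zero, sub_self, add_zero] at hl
  have hl2 : (1 - ε) * ‖S.r (S.Bd (S.k D))‖ ≤ ‖S.r D‖ := by
    have h1 : ‖S.r (S.Bd (S.k D))‖ ≤ ‖S.r D‖ + ‖S.r D - S.r (S.Bd (S.k D))‖ := by
      have := norm_sub_le (S.r D) (S.r D - S.r (S.Bd (S.k D)))
      simpa using this
    linarith
  have hb := ball_bound2 S hε0 hε1 hkJ (fun i _ => hG i) (S.k D) 0 (by omega)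
  rw [← hk] at hb
  have hl3 : (1 - ε) * (1 - 2 * s) ≤ Real.exp (4 * ε * k) * ‖S.r D‖ := by
    calc (1 - ε) * (1 - 2 * s) ≤ (1 - ε) * (Real.exp (4 * ε * k) * ‖S.r (S.Bd (S.k D))‖) :=
          mul_le_mul_of_nonneg_left (hlow0.trans hb) (by linarith)
      _ = Real.exp (4 * ε * k) * ((1 - ε) * ‖S.r (S.Bd (S.k D))‖) := by ring
      _ ≤ _ := mul_le_mul_of_nonneg_left hl2 (Real.exp_pos _).le
  have h9 : Real.exp (4 * ε * k) ≤ Real.exp k := by
    refine Real.exp_le_exp.2 ?_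
    nlinarith
  have h10 : Real.exp (ε ^ 2 * k) ≤ Real.exp k := by
    refine Real.exp_le_exp.2 ?_
    nlinarith
  have h11 : 1 ≤ Real.exp k := Real.one_le_exp hk0'
  have he1 : 2 ≤ Real.exp 1 := by linarith [Real.add_one_le_exp (1 : ℝ)]
  have hpos : 0 < ‖S.r D‖ := by
    have h12 : 0 < (1 - ε) * (1 - 2 * s) := by
      apply mul_pos <;> linarith
    by_contra hcon
    push Not at hcon
    have h13 : ‖S.r D‖ = 0 := le_antisymm hcon (norm_nonneg _)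
    rw [h13, mul_zero] at hl3
    linarith
  refine ⟨norm_pos_iff.1 hpos, ?_, ?_⟩
  · rw [Real.exp_add]
    calc ‖S.r D‖ ≤ (ε + Real.exp (ε ^ 2 * k)) * (1 + 2 * s) := hu2
      _ ≤ (ε + Real.exp k) * (1 + 2 * s) := mul_le_mul_of_nonneg_right (by linarith) (by linarith)
      _ ≤ Real.exp k * 2 := by nlinarith
      _ ≤ _ := mul_le_mul_of_nonneg_left he1 (Real.exp_pos _).le
  · rw [Real.exp_neg, inv_le_comm₀ (Real.exp_pos _) hpos, Real.exp_add]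
    rw [← one_div, div_le_iff₀ hpos]
    have h12 : (1 : ℝ) / 2 ≤ (1 - ε) * (1 - 2 * s) := by nlinarith
    have h13 : (1 : ℝ) / 2 ≤ Real.exp k * ‖S.r D‖ :=
      h12.trans (hl3.trans (mul_le_mul_of_nonneg_right h9 (norm_nonneg _)))
    calc (1 : ℝ) = 2 * (1 / 2) := by norm_num
      _ ≤ Real.exp 1 * (Real.exp k * ‖S.r D‖) := mul_le_mul he1 h13 (by norm_num) (Real.exp_pos _).le
      _ = _ := by ring

end

end Pool.Agent.ZF
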