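import Pool.Agent.ZF.R2Prob
import Pool.Agent.ZF.R2Contract2

/-!
# Zero-freeness, (R2)+(E2) version
-/

namespace Pool.Agent.ZF

open Finset
open scoped Classical

theorem kap_nonneg {X C2 a c0 : ℝ} (hX : 0 ≤ X) (hC2 : 0 ≤ C2) (ha : 0 < a) (hc0 : 0 < c0) (n : ℕ) :
    0 ≤ kap X C2 a c0 n := by
  rw [kap]; positivity

theorem kap_summable {X C2 a c0 : ℝ} (ha : 0 < a) (hc0 : 0 < c0) : Summable (kap X C2 a c0) := by
  have hq : 0 < a * c0 := mul_pos ha hc0
  have hq1 : ‖(1 + a * c0)⁻¹‖ < 1 := by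
    rw [norm_inv, Real.norm_eq_abs, abs_of_pos (by linarith)]
    exact inv_lt_one_of_one_lt₀ (by linarith)
  have h1 := summable_pow_mul_geometric_of_norm_lt_one (R := ℝ) 1 hq1
  have h2 := summable_geometric_of_norm_lt_one hq1
  have h3 := ((h1.add h2).mul_left (X * C2 * Real.exp (X * C2) * Real.exp (X * C2)))
  refine h3.congr fun n => ?_
  rw [kap]
  ring

/-- the comparison sequence of `clean_bound` -/
theorem exists_gcl (κ : ℕ → ℝ) (hκ : ∀ n, 0 ≤ κ n) (hs : Summable κ) (A : ℝ) (hA : 0 ≤ A) :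
    ∃ (c : ℝ) (n0 : ℕ) (g : ℕ → ℝ), 0 < c ∧ c ≤ 1 ∧
      (∀ n ≤ n0, g n ≤ Real.exp (-(A * ((n : ℝ) + 1)))) ∧ (∀ n, g (n + 1) ≤ g n) ∧
      (∀ n, n0 < n + 1 → g (n + 1) ≤ g n * (1 - κ (n + 1))) ∧ (∀ n, g n ≤ 1) ∧ (∀ n, 0 ≤ g n) ∧
      ∀ n, c ≤ g n := by
  have ht := hs.hasSum.tendsto_sum_nat
  obtain ⟨N, hN⟩ := (Metric.tendsto_atTop.1 ht) (1 / 2) (by norm_num)
  set S : ℕ → ℝ := fun n => ∑ i ∈ range n, κ i with hS
  set c1 : ℝ := Real.exp (-(A * ((N : ℝ) + 1))) with hc1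
  have hc1pos : 0 < c1 := Real.exp_pos _
  have hc1le : c1 ≤ 1 := by
    rw [hc1]
    refine Real.exp_le_one_iff.2 ?_
    have : 0 ≤ A * ((N : ℝ) + 1) := by positivity
    linarith
  have hSmono : Monotone S := by
    refine monotone_nat_of_le_succ fun n => ?_
    simp only [hS]
    rw [Finset.sum_range_succ]
    linarith [hκ n]
  have hSle : ∀ n, S n ≤ ∑' i, κ i := fun n => hs.sum_le_tsum (range n) fun i _ => hκ i
  have htail : ∀ n, S n - S (N + 1) ≤ 1 / 2 := by
    intro n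
    have h1 := hN (N + 1) (by omega)
    rw [Real.dist_eq, abs_lt] at h1
    have h2 := hSle n
    have h3 : S (N + 1) = ∑ i ∈ range (N + 1), κ i := rfl
    linarith [h1.1]
  refine ⟨c1 / 2, N, fun n => c1 * (1 - max 0 (S (n + 1) - S (N + 1))), by positivity, by linarith,
    ?_, ?_, ?_, ?_, ?_, ?_⟩
  · intro n hn
    have h1 : S (n + 1) ≤ S (N + 1) := hSmono (by omega)
    have h2 : max 0 (S (n + 1) - S (N + 1)) = 0 := max_eq_left (by linarith)
    simp only [h2, sub_zero, mul_one]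
    rw [hc1]
    refine Real.exp_le_exp.2 ?_
    have h3 : (n : ℝ) ≤ N := by exact_mod_cast hn
    have := mul_le_mul_of_nonneg_left h3 hA
    nlinarith
  · intro n
    refine mul_le_mul_of_nonneg_left ?_ hc1pos.le
    have h1 : S (n + 1) ≤ S (n + 1 + 1) := hSmono (by omega)
    have h2 : max 0 (S (n + 1) - S (N + 1)) ≤ max 0 (S (n + 1 + 1) - S (N + 1)) :=
      max_le_max le_rfl (by linarith)
    linarith
  · intro n hn
    have h1 : S (N + 1) ≤ S (n + 1) := hSmono (by omega)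
    have h2 : max 0 (S (n + 1) - S (N + 1)) = S (n + 1) - S (N + 1) := max_eq_right (by linarith)
    have h3 : S (n + 1 + 1) = S (n + 1) + κ (n + 1) := by
      simp only [hS]
      rw [Finset.sum_range_succ _ (n + 1)]
    have h4 := hκ (n + 1)
    have h5 : max 0 (S (n + 1) + κ (n + 1) - S (N + 1)) = S (n + 1) + κ (n + 1) - S (N + 1) :=
      max_eq_right (by linarith)
    simp only [h2, h3, h5]
    have h6 : 0 ≤ (S (n + 1) - S (N + 1)) * κ (n + 1) := mul_nonneg (by linarith) h4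
    have h7 : c1 * (1 - (S (n + 1) - S (N + 1))) * (1 - κ (n + 1))
        = c1 * ((1 - (S (n + 1) - S (N + 1))) * (1 - κ (n + 1))) := by ring
    rw [h7]
    refine mul_le_mul_of_nonneg_left ?_ hc1pos.le
    nlinarith
  · intro n
    have h1 : 0 ≤ max 0 (S (n + 1) - S (N + 1)) := le_max_left _ _
    nlinarith
  · intro n
    have h1 : max 0 (S (n + 1) - S (N + 1)) ≤ 1 / 2 := max_le (by norm_num) (htail _)
    exact mul_nonneg hc1pos.le (by linarith)
  · intro n
    have h1 : max 0 (S (n + 1) - S (N + 1)) ≤ 1 / 2 := max_le (by norm_num) (htail _)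
    nlinarith

variable {P : Type*} [PartialOrder P]
variable {J : ℕ} {B : ℕ → Finset P} {w : P → ℝ} {C2 c0 : ℝ}

/-- probabilities of the decomposition -/
noncomputable def p2 (v : P → ℝ) (B : ℕ → Finset P) (J : ℕ) (D : Finset P) (m : ℕ) : Option P → ℝ
  | none => Zf v (D \ cr B D m) / Zf v D
  | some l => v l * Zf v (int B J l) * Zf v ((D \ cr B D m).filter (l < ·)) / Zf v D

/-- what is left outside -/
noncomputable def Q2 (B : ℕ → Finset P) (D : Finset P) (m : ℕ) : Option P → Finset P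
  | none => up B D m
  | some l => (D \ cr B D m).filter (l < ·)

/-- the inner domain -/
noncomputable def dm2 (B : ℕ → Finset P) (J : ℕ) (m : ℕ) : Option P → Finset P
  | none => B m
  | some l => int B J l

/-- factor of the decomposition -/
noncomputable def om2 (P : Type*) (z : ℂ) (x : ℝ) : Option P → ℂ
  | none => 1
  | some _ => z / x

omit [PartialOrder P] in
theorem sum_insertNone' {M : Type*} [AddCommMonoid M] (s : Finset P) (f : Option P → M) :
    ∑ o ∈ insertNone s, f o = f none + ∑ l ∈ s, f (some l) := by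
  simp [Finset.insertNone]

namespace Lev2

set_option linter.unusedSectionVars false
variable (L : Lev2 J B w C2 c0)

section
variable {x a X : ℝ}

theorem ratio_bound (L : Lev2 J B w C2 c0) (hx : 0 < x) {z : ℂ} {t : ℝ} (ht0 : 0 ≤ t)
    (ht : ‖z - x‖ ≤ t) (Q : Finset P) :
    ‖Zf (fun l => z * (w l : ℂ)) Q / ((Zf (fun l => x * w l) Q : ℝ) : ℂ) - 1‖
      ≤ Real.exp (t * ∑ l ∈ Q, w l) - 1 := by
  have hZ : 0 < Zf (fun l => x * w l) Q := zero_lt_one.trans_le (one_le_Zf _ (L.vnn hx.le) _)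
  have hZc : ((Zf (fun l => x * w l) Q : ℝ) : ℂ) ≠ 0 := by exact_mod_cast hZ.ne'
  have h1 := norm_Zf_sub_le (fun l => z * (w l : ℂ)) (fun l => x * w l) (fun l => t * w l)
    (L.vnn hx.le) (L.vnn ht0) (fun l => by
      have e : z * (w l : ℂ) - ((x * w l : ℝ) : ℂ) = (z - x) * (w l : ℂ) := by push_cast; ring
      rw [e, norm_mul, Complex.norm_real, Real.norm_eq_abs, abs_of_nonneg (L.w0 l)]
      exact mul_le_mul_of_nonneg_right ht (L.w0 l)) Q
  have e : Zf (fun l => z * (w l : ℂ)) Q / ((Zf (fun l => x * w l) Q : ℝ) : ℂ) - 1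
      = (Zf (fun l => z * (w l : ℂ)) Q - ((Zf (fun l => x * w l) Q : ℝ) : ℂ))
        / ((Zf (fun l => x * w l) Q : ℝ) : ℂ) := by
    field_simp
  rw [e, norm_div, Complex.norm_real, Real.norm_eq_abs, abs_of_pos hZ, div_le_iff₀ hZ,
    Finset.mul_sum]
  exact h1

/-- decomposition of the chain sum, multiplicative form -/
theorem decomp2 (L : Lev2 J B w C2 c0) {𝕜 : Type*} [CommSemiring 𝕜] (v : P → 𝕜) {D : Finset P}
    (hD : Low B J D) {m : ℕ} (hm : B m ⊆ D) :
    Zf v D = Zf v (B m) * Zf v (up B D m)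
      + ∑ l ∈ cr B D m, v l * Zf v (int B J l) * Zf v ((D \ cr B D m).filter (l < ·)) := by
  rw [Zf_decomp_any v D (cr B D m) L.cr_sub]
  have h1 : Zf v (D \ cr B D m) = Zf v (B m) * Zf v (up B D m) := by
    rw [L.sdiff_cr hm]
    exact Zf_mul v (B m) _ (up B D m) rfl fun b hb c hc => (mem_up.1 hc).2.2 b hb
  rw [h1]
  congr 1
  refine Finset.sum_congr rfl fun l hl => ?_
  rw [L.filter_eq hD (L.cr_sub hl)]

theorem clean_eq (L : Lev2 J B w C2 c0) {𝕜 : Type*} [CommSemiring 𝕜] (v : P → 𝕜) {D : Finset P}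
    {m : ℕ} (hm : B m ⊆ D) :
    Zf v (D \ cr B D m) = Zf v (B m) * Zf v (up B D m) := by
  rw [L.sdiff_cr hm]
  exact Zf_mul v (B m) _ (up B D m) rfl fun b hb c hc => (mem_up.1 hc).2.2 b hb

theorem Q2_sub (L : Lev2 J B w C2 c0) {D : Finset P} (hD : Low B J D) {m : ℕ} (hmJ : m ≤ J)
    {o : Option P} (ho : o ∈ insertNone (cr B D m)) : Q2 B D m o ⊆ D \ B m := by
  rcases o with _ | l
  · intro c hc
    have := mem_up.1 hc
    exact mem_sdiff.2 ⟨this.1, this.2.1⟩
  · intro c hc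
    have hl : l ∈ cr B D m := by simpa using ho
    have hl' := mem_cr.1 hl
    simp only [Q2, mem_filter, mem_sdiff] at hc
    exact mem_sdiff.2 ⟨hc.1.1, fun hcm => hl'.2.1 (L.low m hmJ c hcm l (hD.1 hl'.1) hc.2)⟩

theorem expansion (L : Lev2 J B w C2 c0) (hx : 0 < x) {z : ℂ} {D : Finset P} (hD : Low B J D)
    {m : ℕ} (hm : B m ⊆ D) :
    Zf (fun l => z * (w l : ℂ)) D / ((Zf (fun l => x * w l) D : ℝ) : ℂ)
      = ∑ o ∈ insertNone (cr B D m),
        ((p2 (fun l => x * w l) B J D m o : ℝ) : ℂ)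
          * (Zf (fun l => z * (w l : ℂ)) (Q2 B D m o)
              / ((Zf (fun l => x * w l) (Q2 B D m o) : ℝ) : ℂ))
          * om2 P z x o
          * (Zf (fun l => z * (w l : ℂ)) (dm2 B J m o)
              / ((Zf (fun l => x * w l) (dm2 B J m o) : ℝ) : ℂ)) := by
  have hpos : ∀ Q : Finset P, 0 < Zf (fun l => x * w l) Q := fun Q =>
    zero_lt_one.trans_le (one_le_Zf _ (L.vnn hx.le) _)
  have hne : ∀ Q : Finset P, ((Zf (fun l => x * w l) Q : ℝ) : ℂ) ≠ 0 := fun Q => by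
    exact_mod_cast (hpos Q).ne'
  have hxc : (x : ℂ) ≠ 0 := by exact_mod_cast hx.ne'
  rw [sum_insertNone', L.decomp2 (fun l => z * (w l : ℂ)) hD hm, add_div, Finset.sum_div]
  congr 1
  · simp only [p2, Q2, om2, dm2]
    rw [L.clean_eq (fun l => x * w l) hm]
    have h1 := hne D
    have h2 := hne (up B D m)
    have h3 := hne (B m)
    push_cast
    field_simp
  · refine Finset.sum_congr rfl fun l _ => ?_
    simp only [p2, Q2, om2, dm2]
    have h1 := hne D
    have h2 := hne ((D \ cr B D m).filter (l < ·))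
    have h3 := hne (int B J l)
    push_cast
    field_simp

/-- the abstract system -/
noncomputable def sys (L : Lev2 J B w C2 c0) (hc0 : 0 < c0) (ha : 0 < a) (hax : a ≤ x)
    (hxX : x ≤ X) {η0 c : ℝ} (hc : 0 < c) (gcl : ℕ → ℝ) (n0 : ℕ)
    (g1 : ∀ n ≤ n0, gcl n ≤ Real.exp (-(X * C2 * ((n : ℝ) + 1))))
    (g2 : ∀ n, gcl (n + 1) ≤ gcl n)
    (g3 : ∀ n, n0 < n + 1 → gcl (n + 1) ≤ gcl n * (1 - kap X C2 a c0 (n + 1)))
    (g4 : ∀ n, gcl n ≤ 1) (g5 : ∀ n, 0 ≤ gcl n) (g6 : ∀ n, c ≤ gcl n)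
    (hη : Real.exp (2 * η0) ≤ 1 + a * c0)
    {z : ℂ} {t s : ℝ} (ht0 : 0 ≤ t) (ht : ‖z - x‖ ≤ t) (hs1 : t * C2 ≤ s) (hs2 : t / a ≤ s) :
    Sys2 (Finset P) (Option P) c⁻¹ (1 + ∑' n, kap X C2 a c0 n) η0 s where
  adm := {D | Dom B J D}
  k := sc B J
  r := fun D => Zf (fun l => z * (w l : ℂ)) D / ((Zf (fun l => x * w l) D : ℝ) : ℂ)
  Bd := B
  J := J
  o0 := none
  hB := fun j hj => ⟨Or.inl ⟨j, hj, rfl⟩, L.sc_B hc0 hj⟩
  hkJ := fun D _ => L.sc_le D
  hexp := by
    intro D hD m hm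
    have hx : 0 < x := ha.trans_le hax
    have hX : 0 ≤ X := hx.le.trans hxX
    have hDom : Dom B J D := hD
    have hLow := L.low_of_dom hDom
    have hkJ : sc B J D ≤ J := L.sc_le D
    have hmJ : m ≤ J := hm.trans hkJ
    have hBm : B m ⊆ D := (L.mono' hm hkJ).trans (L.sc_spec D)
    have hpos : ∀ Q : Finset P, 0 < Zf (fun l => x * w l) Q := fun Q =>
      zero_lt_one.trans_le (one_le_Zf _ (L.vnn hx.le) _)
    have hs : 0 ≤ s := le_trans (div_nonneg ht0 ha.le) hs2
    have hp0 : ∀ o, 0 ≤ p2 (fun l => x * w l) B J D m o := by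
      intro o
      rcases o with _ | l
      · exact div_nonneg (hpos _).le (hpos _).le
      · exact div_nonneg (mul_nonneg (mul_nonneg (L.vnn hx.le l) (hpos _).le) (hpos _).le) (hpos _).le
    have hp1 : ∑ o ∈ insertNone (cr B D m), p2 (fun l => x * w l) B J D m o = 1 := by
      rw [sum_insertNone']
      simp only [p2]
      rw [← Finset.sum_div, ← add_div, L.clean_eq (fun l => x * w l) hBm,
        ← L.decomp2 (fun l => x * w l) hLow hBm, div_self (hpos D).ne']
    refine ⟨insertNone (cr B D m), p2 (fun l => x * w l) B J D m,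
      fun o => Zf (fun l => z * (w l : ℂ)) (Q2 B D m o)
              / ((Zf (fun l => x * w l) (Q2 B D m o) : ℝ) : ℂ),
      om2 P z x, dm2 B J m, by simp, fun o _ => hp0 o, hp1, ?_, rfl, rfl, ?_, ?_, ?_, ?_, ?_⟩
    · rw [inv_inv]
      have h1 := L.clean_bound ha hax hxX hc0 gcl n0 g1 g2 g3 g4 g5 m _ D rfl hDom hm
      simp only [p2]
      rw [le_div_iff₀ (hpos D)]
      exact (mul_le_mul_of_nonneg_right (g6 _) (hpos D).le).trans h1
    · intro o ho hne
      rcases o with _ | l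
      · exact absurd rfl hne
      · have hl : l ∈ cr B D m := by simpa using ho
        exact ⟨Or.inr ⟨l, hLow.1 (L.cr_sub hl), rfl⟩, L.sc_cr hmJ hl⟩
    · intro o _
      rcases o with _ | l
      · simpa [om2] using hs
      · simp only [om2]
        have hxc : (x : ℂ) ≠ 0 := by exact_mod_cast hx.ne'
        have e : z / (x : ℂ) - 1 = (z - x) / x := by field_simp
        rw [e, norm_div, Complex.norm_real, Real.norm_eq_abs, abs_of_pos hx]
        refine le_trans ?_ hs2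
        exact div_le_div₀ ht0 ht ha hax
    · intro o ho
      refine (L.ratio_bound hx ht0 ht _).trans ?_
      have h1 : ∑ l ∈ Q2 B D m o, w l ≤ C2 * ((sc B J D : ℝ) - m + 1) :=
        (Finset.sum_le_sum_of_subset_of_nonneg (L.Q2_sub hLow hmJ ho) fun l _ _ => L.w0 l).trans
          (L.weight_bound hDom hc0 hm)
      have h2 : t * ∑ l ∈ Q2 B D m o, w l ≤ s * ((sc B J D : ℝ) - m + 1) := by
        calc t * ∑ l ∈ Q2 B D m o, w l ≤ t * (C2 * ((sc B J D : ℝ) - m + 1)) :=
              mul_le_mul_of_nonneg_left h1 ht0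
          _ = (t * C2) * ((sc B J D : ℝ) - m + 1) := by ring
          _ ≤ s * ((sc B J D : ℝ) - m + 1) := by
              refine mul_le_mul_of_nonneg_right hs1 ?_
              have : (m : ℝ) ≤ sc B J D := by exact_mod_cast hm
              linarith
      linarith [Real.exp_le_exp.2 h2]
    · rw [sum_insertNone']
      have e1 : p2 (fun l => x * w l) B J D m none
          * Real.exp (2 * η0 * ((m : ℝ) - sc B J (dm2 B J m (none : Option P)))) ≤ 1 := by
        have h1 : sc B J (dm2 B J m (none : Option P)) = m := by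
          simp only [dm2]; exact L.sc_B hc0 hmJ
        rw [h1, sub_self, mul_zero, Real.exp_zero, mul_one]
        rw [← hp1, sum_insertNone']
        have : 0 ≤ ∑ l ∈ cr B D m, p2 (fun l => x * w l) B J D m (some l) :=
          Finset.sum_nonneg fun l _ => hp0 (some l)
        linarith
      have e2 : ∑ l ∈ cr B D m, p2 (fun l => x * w l) B J D m (some l)
          * Real.exp (2 * η0 * ((m : ℝ) - sc B J (dm2 B J m (some l))))
          = Nu (fun l => x * w l) B J (Real.exp (2 * η0)) m D / Zf (fun l => x * w l) D := by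
        rw [Nu, Finset.sum_div]
        refine Finset.sum_congr rfl fun l hl => ?_
        have hsc := L.sc_cr hmJ hl
        have e3 : Real.exp (2 * η0 * ((m : ℝ) - sc B J (dm2 B J m (some l))))
            = Real.exp (2 * η0) ^ (m - sc B J (int B J l)) := by
          rw [← Real.exp_nat_mul]
          simp only [dm2]
          rw [Nat.cast_sub hsc.le]
          congr 1
          ring
        rw [e3]
        simp only [p2]
        ring
      have e4 := L.moment_bound ha hax hxX hc0 (Real.exp_pos (2 * η0)).le hη m _ D rfl hDom hm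
      have e5 : Nu (fun l => x * w l) B J (Real.exp (2 * η0)) m D / Zf (fun l => x * w l) D
          ≤ ∑' n, kap X C2 a c0 n := by
        rw [div_le_iff₀ (hpos D)]
        refine e4.trans (mul_le_mul_of_nonneg_right ?_ (hpos D).le)
        exact (kap_summable ha hc0).sum_le_tsum _ fun i _ => kap_nonneg hX L.hC2 ha hc0 i
      rw [e2]
      linarith
    · exact L.expansion hx hLow hBm
  hcr := by
    intro D hD
    have hx : 0 < x := ha.trans_le hax
    have hDom : Dom B J D := hD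
    refine (L.ratio_bound hx ht0 ht D).trans ?_
    have h1 := L.weight_bound hDom hc0 (m := 0) (Nat.zero_le _)
    rw [L.B0, sdiff_empty, Nat.cast_zero, sub_zero] at h1
    have h2 : t * ∑ l ∈ D, w l ≤ s * ((sc B J D : ℝ) + 1) := by
      calc t * ∑ l ∈ D, w l ≤ t * (C2 * ((sc B J D : ℝ) + 1)) :=
            mul_le_mul_of_nonneg_left h1 ht0
        _ = (t * C2) * ((sc B J D : ℝ) + 1) := by ring
        _ ≤ s * ((sc B J D : ℝ) + 1) := mul_le_mul_of_nonneg_right hs1 (by positivity)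
    linarith [Real.exp_le_exp.2 h2]

end

end Lev2

/-- **Zero-freeness near the positive axis, uniformly in the number of levels, (R2)+(E2)
version**: the weight of `int l` outside the ball of its scale is at most `C2`, for every
element `l`; the weight of one layer is at most `C2`; the weight of one shell is at least `c0`. -/
theorem zero_free_R2 (a X C2 c0 : ℝ) (ha : 0 < a) (haX : a ≤ X) (hC2 : 0 ≤ C2) (hc0 : 0 < c0) :
    ∃ t > 0, ∀ (P : Type*) [PartialOrder P] (J : ℕ) (B : ℕ → Finset P) (w : P → ℝ),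
      Lev2 J B w C2 c0 → ∀ x : ℝ, a ≤ x → x ≤ X → ∀ z : ℂ, ‖z - x‖ ≤ t →
      ∀ D : Finset P, Dom B J D →
        Zf (fun l => z * (w l : ℂ)) D ≠ 0 ∧
        ‖Zf (fun l => z * (w l : ℂ)) D‖ ≤ Real.exp ((X * C2 + 1) * ((J : ℝ) + 1)) ∧
        Real.exp (-((J : ℝ) + 1)) ≤ ‖Zf (fun l => z * (w l : ℂ)) D‖ := by
  have hX : 0 < X := ha.trans_le haX
  obtain ⟨c, n0, gcl, hc, hc1, g1, g2, g3, g4, g5, g6⟩ := exists_gcl (kap X C2 a c0)
    (kap_nonneg hX.le hC2 ha hc0) (kap_summable ha hc0) (X * C2) (by positivity)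
  set q : ℝ := 1 + a * c0 with hq
  have hq1 : 1 < q := by
    have : 0 < a * c0 := mul_pos ha hc0
    linarith
  have hlogq : 0 < Real.log q := Real.log_pos hq1
  set η0 : ℝ := min 1 (Real.log q / 2) with hη0
  have hη0pos : 0 < η0 := lt_min one_pos (by positivity)
  have hη01 : η0 ≤ 1 := min_le_left _ _
  have hη0q : η0 ≤ Real.log q / 2 := min_le_right _ _
  have hq0 : 0 < q := by linarith
  have hη : Real.exp (2 * η0) ≤ 1 + a * c0 := by
    calc Real.exp (2 * η0) ≤ Real.exp (Real.log q) := Real.exp_le_exp.2 (by linarith)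
      _ = q := Real.exp_log hq0
  set M : ℝ := c⁻¹ with hMdef
  have hM : 1 ≤ M := (one_le_inv₀ hc).2 hc1
  set E0 : ℝ := 1 + ∑' n, kap X C2 a c0 n with hE0
  have hE : 1 ≤ E0 := by
    have : 0 ≤ ∑' n, kap X C2 a c0 n := tsum_nonneg fun n => kap_nonneg hX.le hC2 ha hc0 n
    linarith
  set ε : ℝ := η0 / (1000 * M ^ 2 * E0) with hεdef
  have hXpos : 0 < 1000 * M ^ 2 * E0 := by positivity
  have hε : ε * (1000 * M ^ 2 * E0) = η0 := by
    rw [hεdef]; field_simp
  have hε0 : 0 < ε := by positivity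
  set t : ℝ := ε ^ 3 / (C2 + 1 / a) with htdef
  have hden : 0 < C2 + 1 / a := by positivity
  have ht0 : 0 < t := by positivity
  have ht1 : t * C2 ≤ ε ^ 3 := by
    have e : t * (C2 + 1 / a) = ε ^ 3 := by rw [htdef]; field_simp
    have h1 : 0 ≤ t * (1 / a) := by positivity
    nlinarith
  have ht2 : t / a ≤ ε ^ 3 := by
    have e : t * (C2 + 1 / a) = ε ^ 3 := by rw [htdef]; field_simp
    have h1 : 0 ≤ t * C2 := by positivity
    have h2 : t / a = t * (1 / a) := by ring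
    rw [h2]
    nlinarith
  refine ⟨t, ht0, ?_⟩
  intro P _ J B w L x hax hxX z hz D hD
  have hx : 0 < x := ha.trans_le hax
  have key := Sys2.bounds (L.sys hc0 ha hax hxX hc gcl n0 g1 g2 g3 g4 g5 g6 hη ht0.le hz ht1 ht2)
    hM hE hη0pos hη01 hε (by positivity) le_rfl D hD
  obtain ⟨k1, k2, k3⟩ := key
  have hk : ((L.sys hc0 ha hax hxX hc gcl n0 g1 g2 g3 g4 g5 g6 hη ht0.le hz ht1 ht2).k D : ℝ) ≤ J := by
    exact_mod_cast L.sc_le D
  set kk : ℝ := ((L.sys hc0 ha hax hxX hc gcl n0 g1 g2 g3 g4 g5 g6 hη ht0.le hz ht1 ht2).k D : ℝ)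
    with hkk
  have hr : (L.sys hc0 ha hax hxX hc gcl n0 g1 g2 g3 g4 g5 g6 hη ht0.le hz ht1 ht2).r D
      = Zf (fun l => z * (w l : ℂ)) D / ((Zf (fun l => x * w l) D : ℝ) : ℂ) := rfl
  rw [hr] at k1 k2 k3
  have hZ : 1 ≤ Zf (fun l => x * w l) D := one_le_Zf _ (L.vnn hx.le) _
  have hZpos : 0 < Zf (fun l => x * w l) D := by linarith
  have hZup : Zf (fun l => x * w l) D ≤ Real.exp (X * C2 * ((J : ℝ) + 1)) := by
    have h1 := Zf_union_le (fun l => x * w l) (L.vnn hx.le) ∅ D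
    rw [empty_union, Zf_empty, one_mul] at h1
    refine h1.trans (Real.exp_le_exp.2 ?_)
    have h2 := L.weight_bound hD hc0 (m := 0) (Nat.zero_le _)
    rw [L.B0, sdiff_empty, Nat.cast_zero, sub_zero] at h2
    have h3 : (sc B J D : ℝ) ≤ J := by exact_mod_cast L.sc_le D
    rw [← Finset.mul_sum]
    have h4 : ∑ l ∈ D, w l ≤ C2 * ((J : ℝ) + 1) :=
      h2.trans (mul_le_mul_of_nonneg_left (by linarith) hC2)
    calc x * ∑ l ∈ D, w l ≤ X * (C2 * ((J : ℝ) + 1)) :=
          mul_le_mul hxX h4 (Finset.sum_nonneg fun l _ => L.w0 l) hX.le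
      _ = _ := by ring
  rw [norm_div, Complex.norm_real, Real.norm_eq_abs, abs_of_pos hZpos] at k2 k3
  refine ⟨fun h => k1 (by rw [h, zero_div]), ?_, ?_⟩
  · rw [div_le_iff₀ hZpos] at k2
    refine k2.trans ?_
    calc Real.exp (kk + 1) * Zf (fun l => x * w l) D
        ≤ Real.exp ((J : ℝ) + 1) * Real.exp (X * C2 * ((J : ℝ) + 1)) :=
          mul_le_mul (Real.exp_le_exp.2 (by linarith)) hZup hZpos.le (Real.exp_pos _).le
      _ = _ := by rw [← Real.exp_add]; congr 1; ring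
  · rw [le_div_iff₀ hZpos] at k3
    refine le_trans ?_ k3
    have h1 : Real.exp (-((J : ℝ) + 1)) ≤ Real.exp (-(kk + 1)) :=
      Real.exp_le_exp.2 (by linarith)
    have h2 : 0 < Real.exp (-(kk + 1)) := Real.exp_pos _
    nlinarith

end Pool.Agent.ZF
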