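import Pool.Agent.ZF.R2Chain

/-!
Levels, version (R2)+(E2): no condition on loops that come near the centre.
-/

namespace Pool.Agent.ZF

open Finset
open scoped Classical

variable {P : Type*} [PartialOrder P]

/-- A system of levels, (R2) version. -/
structure Lev2 (J : ℕ) (B : ℕ → Finset P) (w : P → ℝ) (C2 c0 : ℝ) : Prop where
  hC2 : 0 ≤ C2
  w0 : ∀ l, 0 ≤ w l
  B0 : B 0 = ∅
  mono : ∀ i < J, B i ⊆ B (i + 1)
  low : ∀ i ≤ J, ∀ l ∈ B i, ∀ l' ∈ B J, l' < l → l' ∈ B i
  R2 : ∀ l ∈ B J, ∑ l' ∈ int B J l \ B (sc B J (int B J l)), w l' ≤ C2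
  R2' : ∀ i < J, ∑ l ∈ B (i + 1) \ B i, w l ≤ C2
  E2 : ∀ i < J, c0 ≤ ∑ l ∈ shell B i, w l

/-- elements of `D` crossing `B m` -/
noncomputable def cr (B : ℕ → Finset P) (D : Finset P) (m : ℕ) : Finset P :=
  D.filter fun l => l ∉ B m ∧ ¬ ∀ b ∈ B m, b < l

/-- elements of `D` above all of `B m` -/
noncomputable def up (B : ℕ → Finset P) (D : Finset P) (m : ℕ) : Finset P :=
  D.filter fun l => l ∉ B m ∧ ∀ b ∈ B m, b < l

theorem mem_cr {B : ℕ → Finset P} {D : Finset P} {m : ℕ} {l : P} :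
    l ∈ cr B D m ↔ l ∈ D ∧ l ∉ B m ∧ ¬ ∀ b ∈ B m, b < l := by
  simp only [cr, mem_filter]

theorem mem_up {B : ℕ → Finset P} {D : Finset P} {m : ℕ} {l : P} :
    l ∈ up B D m ↔ l ∈ D ∧ l ∉ B m ∧ ∀ b ∈ B m, b < l := by
  simp only [up, mem_filter]

variable {J : ℕ} {B : ℕ → Finset P} {w : P → ℝ} {C2 c0 : ℝ}

/-- the class of domains -/
def Dom (B : ℕ → Finset P) (J : ℕ) (D : Finset P) : Prop :=
  (∃ j, j ≤ J ∧ D = B j) ∨ ∃ l ∈ B J, D = int B J l

namespace Lev2

set_option linter.unusedSectionVars false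
variable (L : Lev2 J B w C2 c0)
include L

theorem mono' {i i' : ℕ} (h : i ≤ i') (h' : i' ≤ J) : B i ⊆ B i' := by
  induction i', h using Nat.le_induction with
  | base => exact subset_rfl
  | succ n _ ih => exact (ih (by omega)).trans (L.mono n (by omega))

theorem sc_le (D : Finset P) : sc B J D ≤ J := Nat.findGreatest_le _

theorem sc_spec (D : Finset P) : B (sc B J D) ⊆ D := by
  have : (fun i => B i ⊆ D) 0 := by simp [L.B0]
  exact Nat.findGreatest_spec (P := fun i => B i ⊆ D) (Nat.zero_le J) this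

theorem le_sc {D : Finset P} {i : ℕ} (hi : i ≤ J) (h : B i ⊆ D) : i ≤ sc B J D :=
  Nat.le_findGreatest hi h

theorem low_B {i : ℕ} (hi : i ≤ J) : Low B J (B i) :=
  ⟨L.mono' hi le_rfl, fun l hl l' hl' h => L.low i hi l hl l' hl' h⟩

theorem low_int (l : P) : Low B J (int B J l) := by
  refine ⟨filter_subset _ _, fun a ha b hb hba => ?_⟩
  simp only [int, mem_filter] at ha ⊢
  exact ⟨hb, hba.trans ha.2⟩

theorem low_of_dom {D : Finset P} (hD : Dom B J D) : Low B J D := by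
  rcases hD with ⟨j, hj, rfl⟩ | ⟨l, _, rfl⟩
  · exact L.low_B hj
  · exact L.low_int l

theorem filter_eq {D : Finset P} (hD : Low B J D) {l : P} (hl : l ∈ D) :
    D.filter (· < l) = int B J l := by
  ext a
  simp only [int, mem_filter]
  constructor
  · rintro ⟨h1, h2⟩
    exact ⟨hD.1 h1, h2⟩
  · rintro ⟨h1, h2⟩
    exact ⟨hD.2 l hl a h1 h2, h2⟩

theorem sc_B (hc0 : 0 < c0) {i : ℕ} (hi : i ≤ J) : sc B J (B i) = i := by
  refine le_antisymm ?_ (L.le_sc hi subset_rfl)
  by_contra hcon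
  push Not at hcon
  have h1 := L.sc_spec (B i)
  have h2 : B (i + 1) ⊆ B i := (L.mono' (by omega) (L.sc_le _)).trans h1
  have h3 := L.E2 i (by have := L.sc_le (B i); omega)
  have h4 : shell B i = ∅ := by
    rw [Finset.eq_empty_iff_forall_notMem]
    intro l hl
    simp only [shell, mem_filter] at hl
    exact lt_irrefl _ (hl.2 l (h2 hl.1))
  rw [h4, Finset.sum_empty] at h3
  linarith

theorem sc_int_lt {j : ℕ} (hj : j ≤ J) {l : P} (hl : l ∈ B j) : sc B J (int B J l) < j := by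
  by_contra hcon
  push Not at hcon
  have h1 := (L.mono' hcon (L.sc_le _)).trans (L.sc_spec (int B J l)) hl
  simp only [int, mem_filter] at h1
  exact lt_irrefl _ h1.2

theorem int_sub {D : Finset P} (hD : Low B J D) {l : P} (hl : l ∈ D) : int B J l ⊆ D := by
  rw [← L.filter_eq hD hl]
  exact filter_subset _ _

theorem sc_mono {D D' : Finset P} (h : D ⊆ D') : sc B J D ≤ sc B J D' :=
  L.le_sc (L.sc_le _) ((L.sc_spec D).trans h)

/-- weight outside the ball of the scale -/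
theorem out_weight {D : Finset P} (hD : Dom B J D) (hc0 : 0 < c0) :
    ∑ l ∈ D \ B (sc B J D), w l ≤ C2 := by
  rcases hD with ⟨j, hj, rfl⟩ | ⟨l, hl, rfl⟩
  · rw [L.sc_B hc0 hj, _root_.sdiff_self]
    simpa using L.hC2
  · exact L.R2 l hl

theorem shell_weight {m k : ℕ} (hmk : m ≤ k) (hk : k ≤ J) :
    ∑ l ∈ B k \ B m, w l ≤ C2 * ((k : ℝ) - m) := by
  induction k, hmk using Nat.le_induction with
  | base => simp
  | succ n hn ih =>
    have h1 : B (n + 1) \ B m ⊆ (B n \ B m) ∪ (B (n + 1) \ B n) := by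
      intro a ha
      rw [mem_sdiff] at ha
      rw [mem_union, mem_sdiff, mem_sdiff]
      by_cases h : a ∈ B n
      · exact Or.inl ⟨h, ha.2⟩
      · exact Or.inr ⟨ha.1, h⟩
    have h2 : ∑ l ∈ B (n + 1) \ B m, w l ≤ ∑ l ∈ B n \ B m, w l + ∑ l ∈ B (n + 1) \ B n, w l := by
      refine (Finset.sum_le_sum_of_subset_of_nonneg h1 fun l _ _ => L.w0 l).trans ?_
      have := Finset.sum_union_inter (s₁ := B n \ B m) (s₂ := B (n + 1) \ B n) (f := w)
      have h3 : 0 ≤ ∑ l ∈ (B n \ B m) ∩ (B (n + 1) \ B n), w l :=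
        Finset.sum_nonneg fun l _ => L.w0 l
      linarith
    have h3 := ih (by omega)
    have h4 := L.R2' n (by omega)
    push_cast
    linarith

theorem weight_bound {D : Finset P} (hD : Dom B J D) (hc0 : 0 < c0) {m : ℕ} (hm : m ≤ sc B J D) :
    ∑ l ∈ D \ B m, w l ≤ C2 * ((sc B J D : ℝ) - m + 1) := by
  have h1 : D \ B m ⊆ (D \ B (sc B J D)) ∪ (B (sc B J D) \ B m) := by
    intro a ha
    rw [mem_sdiff] at ha
    rw [mem_union, mem_sdiff, mem_sdiff]
    by_cases h : a ∈ B (sc B J D)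
    · exact Or.inr ⟨h, ha.2⟩
    · exact Or.inl ⟨ha.1, h⟩
  have h2 : ∑ l ∈ D \ B m, w l ≤ ∑ l ∈ D \ B (sc B J D), w l + ∑ l ∈ B (sc B J D) \ B m, w l := by
    refine (Finset.sum_le_sum_of_subset_of_nonneg h1 fun l _ _ => L.w0 l).trans ?_
    have := Finset.sum_union_inter (s₁ := D \ B (sc B J D)) (s₂ := B (sc B J D) \ B m) (f := w)
    have h3 : 0 ≤ ∑ l ∈ (D \ B (sc B J D)) ∩ (B (sc B J D) \ B m), w l :=
      Finset.sum_nonneg fun l _ => L.w0 l
    linarith
  have h3 := L.out_weight hD hc0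
  have h4 := L.shell_weight hm (L.sc_le D)
  linarith

theorem cr_sub {D : Finset P} {m : ℕ} : cr B D m ⊆ D := filter_subset _ _

theorem cr_sub' {D : Finset P} {m : ℕ} : cr B D m ⊆ D \ B m := by
  intro l hl
  rw [mem_cr] at hl
  exact mem_sdiff.2 ⟨hl.1, hl.2.1⟩

theorem sdiff_cr {D : Finset P} {m : ℕ} (hm : B m ⊆ D) : D \ cr B D m = B m ∪ up B D m := by
  ext l
  rw [mem_sdiff, mem_union, mem_cr, mem_up]
  constructor
  · rintro ⟨h1, h2⟩
    by_cases h : l ∈ B m
    · exact Or.inl h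
    · right
      refine ⟨h1, h, ?_⟩
      by_contra hcon
      exact h2 ⟨h1, h, hcon⟩
  · rintro (h | ⟨h1, h2, h3⟩)
    · exact ⟨hm h, fun h' => h'.2.1 h⟩
    · exact ⟨h1, fun h' => h'.2.2 h3⟩

/-- the scale of the inside of a crossing element is smaller -/
theorem sc_cr {D : Finset P} {m : ℕ} (hm : m ≤ J) {l : P} (hl : l ∈ cr B D m) :
    sc B J (int B J l) < m := by
  rw [mem_cr] at hl
  by_contra hcon
  push Not at hcon
  refine hl.2.2 fun b hb => ?_
  have := (L.mono' hcon (L.sc_le _)).trans (L.sc_spec (int B J l)) hb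
  simp only [int, mem_filter] at this
  exact this.2

/-- the scale of the inside of an element above `B m` is at least `m` -/
theorem sc_up {D : Finset P} {m : ℕ} (hm : m ≤ J) {l : P} (hl : l ∈ up B D m) :
    m ≤ sc B J (int B J l) := by
  rw [mem_up] at hl
  refine L.le_sc hm fun b hb => ?_
  simp only [int, mem_filter]
  exact ⟨L.mono' hm le_rfl hb, hl.2.2 b hb⟩

section real
variable {x a X : ℝ}

theorem vnn (hx : 0 ≤ x) (l : P) : 0 ≤ x * w l := mul_nonneg hx (L.w0 l)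

theorem Zpos (hx : 0 ≤ x) (D : Finset P) : 0 < Zf (fun l => x * w l) D :=
  zero_lt_one.trans_le (one_le_Zf _ (L.vnn hx) _)

theorem growth_one (hx : 0 ≤ x) {i : ℕ} (hi : i < J) :
    (1 + x * c0) * Zf (fun l => x * w l) (B i) ≤ Zf (fun l => x * w l) (B (i + 1)) := by
  have h := Zf_growth (fun l => x * w l) (L.vnn hx) (L.mono i hi) (S := shell B i)
    (filter_subset _ _) (fun l hl => (mem_filter.1 hl).2)
  refine le_trans (mul_le_mul_of_nonneg_right ?_ (L.Zpos hx _).le) h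
  rw [← Finset.mul_sum]
  have := mul_le_mul_of_nonneg_left (L.E2 i hi) hx
  linarith

theorem growth (ha : 0 < a) (hax : a ≤ x) (hc0 : 0 < c0) {i j : ℕ} (hij : i ≤ j) (hj : j ≤ J) :
    (1 + a * c0) ^ (j - i) * Zf (fun l => x * w l) (B i) ≤ Zf (fun l => x * w l) (B j) := by
  have hx : 0 ≤ x := ha.le.trans hax
  induction j, hij using Nat.le_induction with
  | base => simp
  | succ n hn ih =>
    have h1 := ih (by omega)
    have h2 := L.growth_one hx (i := n) (by omega)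
    have e : n + 1 - i = (n - i) + 1 := by omega
    rw [e, pow_succ]
    have h3 : 1 + a * c0 ≤ 1 + x * c0 := by nlinarith
    have h4 : 0 ≤ Zf (fun l => x * w l) (B n) := (L.Zpos hx _).le
    calc (1 + a * c0) ^ (n - i) * (1 + a * c0) * Zf (fun l => x * w l) (B i)
        = (1 + a * c0) * ((1 + a * c0) ^ (n - i) * Zf (fun l => x * w l) (B i)) := by ring
      _ ≤ (1 + x * c0) * Zf (fun l => x * w l) (B n) :=
          mul_le_mul h3 h1 (mul_nonneg (by positivity) (L.Zpos hx _).le)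
            (by positivity)
      _ ≤ _ := h2

/-- every domain is comparable with the ball of its scale -/
theorem dom_le (hx : 0 ≤ x) (hxX : x ≤ X) (hc0 : 0 < c0) {D : Finset P} (hD : Dom B J D) :
    Zf (fun l => x * w l) D ≤ Zf (fun l => x * w l) (B (sc B J D)) * Real.exp (X * C2) := by
  have h1 : D ⊆ B (sc B J D) ∪ (D \ B (sc B J D)) := by
    intro l hl
    rw [mem_union, mem_sdiff]
    by_cases h : l ∈ B (sc B J D)
    · exact Or.inl h
    · exact Or.inr ⟨hl, h⟩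
  refine (Zf_le_of_subset _ (L.vnn hx) h1).trans ?_
  refine mul_le_mul_of_nonneg_left ?_ (L.Zpos hx _).le
  refine Real.exp_le_exp.2 ?_
  rw [← Finset.mul_sum]
  exact mul_le_mul hxX (L.out_weight hD hc0) (Finset.sum_nonneg fun l _ => L.w0 l) (hx.trans hxX)

theorem ball_le (hx : 0 ≤ x) {D : Finset P} :
    Zf (fun l => x * w l) (B (sc B J D)) ≤ Zf (fun l => x * w l) D :=
  Zf_mono _ (L.vnn hx) (L.sc_spec D)

theorem cr_weight (hx : 0 ≤ x) (hxX : x ≤ X) (hc0 : 0 < c0) {D : Finset P} (hD : Dom B J D)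
    {m : ℕ} (hm : m ≤ sc B J D) :
    ∑ l ∈ cr B D m, x * w l ≤ X * C2 * (((sc B J D - m : ℕ) : ℝ) + 1) := by
  rw [← Finset.mul_sum]
  have h1 : ∑ l ∈ cr B D m, w l ≤ C2 * ((sc B J D : ℝ) - m + 1) :=
    (Finset.sum_le_sum_of_subset_of_nonneg L.cr_sub' fun l _ _ => L.w0 l).trans
      (L.weight_bound hD hc0 hm)
  rw [Nat.cast_sub hm]
  calc x * ∑ l ∈ cr B D m, w l ≤ X * (C2 * ((sc B J D : ℝ) - m + 1)) :=
        mul_le_mul hxX h1 (Finset.sum_nonneg fun l _ => L.w0 l) (hx.trans hxX)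
    _ = _ := by ring

/-- mass of the chains whose outermost element crosses `B m`, with exponential weight -/
theorem cross_mass (ha : 0 < a) (hax : a ≤ x) (hxX : x ≤ X) (hc0 : 0 < c0)
    {g : ℝ} (hg0 : 0 ≤ g) (hg : g ≤ 1 + a * c0) {D : Finset P} (hD : Dom B J D)
    {m : ℕ} (hm : m ≤ sc B J D) :
    ∑ l ∈ cr B D m, x * w l * Zf (fun l => x * w l) (int B J l) * g ^ (m - sc B J (int B J l))
      ≤ X * C2 * Real.exp (X * C2) * (((sc B J D - m : ℕ) : ℝ) + 1)
          * ((1 + a * c0)⁻¹) ^ (sc B J D - m) * Zf (fun l => x * w l) D := by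
  have hx : 0 ≤ x := ha.le.trans hax
  have hq : 0 < 1 + a * c0 := by positivity
  have hmJ : m ≤ J := hm.trans (L.sc_le D)
  set k := sc B J D with hk
  have hkJ : k ≤ J := L.sc_le D
  set ZD := Zf (fun l => x * w l) D with hZD
  have hZD0 : 0 < ZD := L.Zpos hx D
  have hLow := L.low_of_dom hD
  have hterm : ∀ l ∈ cr B D m, x * w l * Zf (fun l => x * w l) (int B J l)
      * g ^ (m - sc B J (int B J l))
      ≤ (x * w l) * (Real.exp (X * C2) * ((1 + a * c0)⁻¹) ^ (k - m) * ZD) := by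
    intro l hl
    have hi := L.sc_cr hmJ hl
    set i := sc B J (int B J l) with hidef
    have hlD : l ∈ D := (mem_cr.1 hl).1
    have hdom : Dom B J (int B J l) := Or.inr ⟨l, hLow.1 hlD, rfl⟩
    have h1 := L.dom_le hx hxX hc0 hdom
    rw [← hidef] at h1
    have h2 := L.growth ha hax hc0 (i := i) (j := k) (by omega) hkJ
    have h3 : Zf (fun l => x * w l) (B k) ≤ ZD := L.ball_le hx
    -- Z(int l) g^{m-i} ≤ e^{XC2} q^{-(k-m)} Z(D)
    have h4 : Zf (fun l => x * w l) (B i) * g ^ (m - i) ≤ ((1 + a * c0)⁻¹) ^ (k - m) * ZD := by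
      rw [inv_pow, inv_mul_eq_div, le_div_iff₀ (by positivity)]
      have e : (1 + a * c0) ^ (k - i) = (1 + a * c0) ^ (m - i) * (1 + a * c0) ^ (k - m) := by
        rw [← pow_add]; congr 1; omega
      have h5 : g ^ (m - i) ≤ (1 + a * c0) ^ (m - i) := pow_le_pow_left₀ hg0 hg _
      calc Zf (fun l => x * w l) (B i) * g ^ (m - i) * (1 + a * c0) ^ (k - m)
          ≤ Zf (fun l => x * w l) (B i) * (1 + a * c0) ^ (m - i) * (1 + a * c0) ^ (k - m) :=
            mul_le_mul_of_nonneg_right (mul_le_mul_of_nonneg_left h5 (L.Zpos hx _).le)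
              (by positivity)
        _ = (1 + a * c0) ^ (k - i) * Zf (fun l => x * w l) (B i) := by rw [e]; ring
        _ ≤ ZD := h2.trans h3
    have hgp : 0 ≤ g ^ (m - i) := pow_nonneg hg0 _
    calc x * w l * Zf (fun l => x * w l) (int B J l) * g ^ (m - i)
        = (x * w l) * (Zf (fun l => x * w l) (int B J l) * g ^ (m - i)) := by ring
      _ ≤ (x * w l) * ((Zf (fun l => x * w l) (B i) * Real.exp (X * C2)) * g ^ (m - i)) :=
          mul_le_mul_of_nonneg_left (mul_le_mul_of_nonneg_right h1 hgp) (L.vnn hx l)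
      _ = (x * w l) * (Real.exp (X * C2) * (Zf (fun l => x * w l) (B i) * g ^ (m - i))) := by ring
      _ ≤ (x * w l) * (Real.exp (X * C2) * (((1 + a * c0)⁻¹) ^ (k - m) * ZD)) :=
          mul_le_mul_of_nonneg_left (mul_le_mul_of_nonneg_left h4 (Real.exp_pos _).le) (L.vnn hx l)
      _ = _ := by ring
  refine (Finset.sum_le_sum hterm).trans ?_
  rw [← Finset.sum_mul]
  have h6 := L.cr_weight hx hxX hc0 hD hm
  calc (∑ l ∈ cr B D m, x * w l) * (Real.exp (X * C2) * ((1 + a * c0)⁻¹) ^ (k - m) * ZD)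
      ≤ (X * C2 * (((k - m : ℕ) : ℝ) + 1)) * (Real.exp (X * C2) * ((1 + a * c0)⁻¹) ^ (k - m) * ZD) :=
        mul_le_mul_of_nonneg_right h6 (by positivity)
    _ = _ := by ring

/-- recursion over the outermost element, three parts -/
theorem Z_rec {D : Finset P} (hD : Low B J D) {m : ℕ} (hmJ : m ≤ J) (hm : B m ⊆ D) (v : P → ℝ) :
    Zf v D = Zf v (B m) + ∑ l ∈ up B D m, v l * Zf v (int B J l)
      + ∑ l ∈ cr B D m, v l * Zf v (int B J l) := by
  have hdec : D = (B m ∪ up B D m) ∪ cr B D m := by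
    rw [← L.sdiff_cr hm, sdiff_union_of_subset L.cr_sub]
  have hd1 : Disjoint (B m ∪ up B D m) (cr B D m) := by
    rw [← L.sdiff_cr hm]; exact sdiff_disjoint
  have hd2 : Disjoint (B m) (up B D m) := by
    rw [Finset.disjoint_left]
    intro l hl hl'
    exact (mem_up.1 hl').2.1 hl
  have h1 : Zf v D = 1 + ∑ l ∈ D, v l * Zf v (int B J l) := by
    rw [Zf_rec v D]
    congr 1
    exact Finset.sum_congr rfl fun l hl => by rw [L.filter_eq hD hl]
  have h2 : Zf v (B m) = 1 + ∑ l ∈ B m, v l * Zf v (int B J l) := by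
    rw [Zf_rec v (B m)]
    congr 1
    exact Finset.sum_congr rfl fun l hl => by rw [L.filter_eq (L.low_B hmJ) hl]
  have h3 : ∑ l ∈ D, v l * Zf v (int B J l) = ∑ l ∈ B m, v l * Zf v (int B J l)
      + ∑ l ∈ up B D m, v l * Zf v (int B J l) + ∑ l ∈ cr B D m, v l * Zf v (int B J l) := by
    conv_lhs => rw [hdec]
    rw [Finset.sum_union hd1, Finset.sum_union hd2]
  rw [h1, h2, h3]
  ring

/-- recursion for the clean part -/
theorem N_rec {D : Finset P} (hD : Low B J D) {m : ℕ} (hmJ : m ≤ J) (hm : B m ⊆ D) (v : P → ℝ) :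
    Zf v (D \ cr B D m) = Zf v (B m)
      + ∑ l ∈ up B D m, v l * Zf v (int B J l \ cr B (int B J l) m) := by
  have hd2 : Disjoint (B m) (up B D m) := by
    rw [Finset.disjoint_left]
    intro l hl hl'
    exact (mem_up.1 hl').2.1 hl
  rw [L.sdiff_cr hm, Zf_rec v (B m ∪ up B D m), Finset.sum_union hd2]
  have h1 : ∑ l ∈ B m, v l * Zf v ((B m ∪ up B D m).filter (· < l))
      = ∑ l ∈ B m, v l * Zf v ((B m).filter (· < l)) := by
    refine Finset.sum_congr rfl fun l hl => ?_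
    congr 2
    ext c
    simp only [mem_filter, mem_union]
    constructor
    · rintro ⟨h | h, hcl⟩
      · exact ⟨h, hcl⟩
      · exact absurd hcl (lt_asymm ((mem_up.1 h).2.2 l hl))
    · rintro ⟨h, hcl⟩
      exact ⟨Or.inl h, hcl⟩
  have h2 : ∑ l ∈ up B D m, v l * Zf v ((B m ∪ up B D m).filter (· < l))
      = ∑ l ∈ up B D m, v l * Zf v (int B J l \ cr B (int B J l) m) := by
    refine Finset.sum_congr rfl fun l hl => ?_
    congr 2
    have hl' := mem_up.1 hl
    have hBint : B m ⊆ int B J l := by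
      intro b hb
      simp only [int, mem_filter]
      exact ⟨L.mono' hmJ le_rfl hb, hl'.2.2 b hb⟩
    rw [L.sdiff_cr hBint]
    ext c
    simp only [mem_filter, mem_union, mem_up]
    constructor
    · rintro ⟨h | ⟨h3, h4, h5⟩, hcl⟩
      · exact Or.inl h
      · right
        refine ⟨?_, h4, h5⟩
        simp only [int, mem_filter]
        exact ⟨hD.1 h3, hcl⟩
    · rintro (h | ⟨h3, h4, h5⟩)
      · exact ⟨Or.inl h, hl'.2.2 c h⟩
      · simp only [int, mem_filter] at h3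
        exact ⟨Or.inr ⟨hD.2 l hl'.1 c h3.1 h3.2, h4, h5⟩, h3.2⟩
  rw [h1, h2, ← add_assoc]
  congr 1
  exact (Zf_rec v (B m)).symm

end real

end Lev2

end Pool.Agent.ZF
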