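import Pool.Agent.ZF.R2Levels

/-!
Uniform lower bound for the mass of clean chains, and exponential moments, by super-solutions.
-/

namespace Pool.Agent.ZF

open Finset
open scoped Classical

variable {P : Type*} [PartialOrder P]
variable {J : ℕ} {B : ℕ → Finset P} {w : P → ℝ} {C2 c0 : ℝ}

/-- the rate sequence -/
noncomputable def kap (X C2 a c0 : ℝ) (n : ℕ) : ℝ :=
  X * C2 * Real.exp (X * C2) * Real.exp (X * C2) * ((n : ℝ) + 1) * ((1 + a * c0)⁻¹) ^ n

namespace Lev2

set_option linter.unusedSectionVars false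
variable (L : Lev2 J B w C2 c0)
include L

section real
variable {x a X : ℝ}

theorem card_int_lt {D : Finset P} (hD : Low B J D) {l : P} (hl : l ∈ D) :
    (int B J l).card < D.card := by
  refine Finset.card_lt_card ⟨L.int_sub hD hl, fun h => ?_⟩
  have := h hl
  simp only [int, mem_filter] at this
  exact lt_irrefl _ this.2

theorem up_ball {D : Finset P} {m k : ℕ} (hk : B k ⊆ D) :
    up B (B k) m = (up B D m).filter (· ∈ B k) := by
  ext l
  simp only [mem_filter, mem_up]
  constructor
  · rintro ⟨h1, h2, h3⟩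
    exact ⟨⟨hk h1, h2, h3⟩, h1⟩
  · rintro ⟨⟨_, h2, h3⟩, h1⟩
    exact ⟨h1, h2, h3⟩

theorem cr_ball_sub {D : Finset P} {m k : ℕ} (hk : B k ⊆ D) : cr B (B k) m ⊆ cr B D m := by
  intro l hl
  rw [mem_cr] at hl ⊢
  exact ⟨hk hl.1, hl.2⟩

/-- `Z (B k) ≤ Z (B m) + (low part) + (crossing part)` -/
theorem ball_split (hx : 0 ≤ x) {D : Finset P} {m k : ℕ} (hmk : m ≤ k) (hkJ : k ≤ J)
    (hk : B k ⊆ D) :
    Zf (fun l => x * w l) (B k) ≤ Zf (fun l => x * w l) (B m)
      + ∑ l ∈ (up B D m).filter (· ∈ B k), x * w l * Zf (fun l => x * w l) (int B J l)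
      + ∑ l ∈ cr B D m, x * w l * Zf (fun l => x * w l) (int B J l) := by
  have h := L.Z_rec (L.low_B hkJ) (m := m) (by omega) (L.mono' hmk hkJ) (fun l => x * w l)
  rw [L.up_ball hk] at h
  rw [h]
  refine add_le_add le_rfl ?_
  refine Finset.sum_le_sum_of_subset_of_nonneg (L.cr_ball_sub hk) fun l _ _ => ?_
  exact mul_nonneg (L.vnn hx l) (L.Zpos hx _).le

/-- the crossing mass relative to the ball -/
theorem cross_mass_ball (ha : 0 < a) (hax : a ≤ x) (hxX : x ≤ X) (hc0 : 0 < c0)
    {g : ℝ} (hg0 : 0 ≤ g) (hg : g ≤ 1 + a * c0) {D : Finset P} (hD : Dom B J D)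
    {m : ℕ} (hm : m ≤ sc B J D) :
    ∑ l ∈ cr B D m, x * w l * Zf (fun l => x * w l) (int B J l) * g ^ (m - sc B J (int B J l))
      ≤ kap X C2 a c0 (sc B J D - m) * Zf (fun l => x * w l) (B (sc B J D)) := by
  have hx : 0 ≤ x := ha.le.trans hax
  have hX : 0 ≤ X := hx.trans hxX
  have h1 := L.cross_mass ha hax hxX hc0 hg0 hg hD hm
  have h2 := L.dom_le hx hxX hc0 hD
  have hq : 0 < 1 + a * c0 := by positivity
  have hC2 := L.hC2
  refine h1.trans ?_
  calc X * C2 * Real.exp (X * C2) * (((sc B J D - m : ℕ) : ℝ) + 1)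
          * ((1 + a * c0)⁻¹) ^ (sc B J D - m) * Zf (fun l => x * w l) D
      ≤ X * C2 * Real.exp (X * C2) * (((sc B J D - m : ℕ) : ℝ) + 1)
          * ((1 + a * c0)⁻¹) ^ (sc B J D - m)
            * (Zf (fun l => x * w l) (B (sc B J D)) * Real.exp (X * C2)) :=
        mul_le_mul_of_nonneg_left h2 (by positivity)
    _ = _ := by rw [kap]; ring

/-- **uniform lower bound for the clean mass** -/
theorem clean_bound (ha : 0 < a) (hax : a ≤ x) (hxX : x ≤ X) (hc0 : 0 < c0)
    (gcl : ℕ → ℝ) (n0 : ℕ)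
    (g1 : ∀ n ≤ n0, gcl n ≤ Real.exp (-(X * C2 * ((n : ℝ) + 1))))
    (g2 : ∀ n, gcl (n + 1) ≤ gcl n) (g3 : ∀ n, n0 < n + 1 → gcl (n + 1) ≤ gcl n * (1 - kap X C2 a c0 (n + 1)))
    (g4 : ∀ n, gcl n ≤ 1) (g5 : ∀ n, 0 ≤ gcl n) (m : ℕ) :
    ∀ (N : ℕ) (D : Finset P), D.card = N → Dom B J D → m ≤ sc B J D →
      gcl (sc B J D - m) * Zf (fun l => x * w l) D ≤ Zf (fun l => x * w l) (D \ cr B D m) := by
  have hx : 0 ≤ x := ha.le.trans hax
  have hanti : Antitone gcl := antitone_nat_of_succ_le g2
  intro N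
  induction N using Nat.strong_induction_on with
  | _ N ih =>
    intro D hN hD hm
    have hkJ : sc B J D ≤ J := L.sc_le D
    have hmJ : m ≤ J := hm.trans hkJ
    have hLow := L.low_of_dom hD
    have hBk : B (sc B J D) ⊆ D := L.sc_spec D
    have hBm : B m ⊆ D := (L.mono' hm hkJ).trans hBk
    set v : P → ℝ := fun l => x * w l with hv
    rcases Nat.lt_or_ge n0 (sc B J D - m) with hcase | hcase
    · -- large difference
      obtain ⟨n, hn⟩ : ∃ n, sc B J D - m = n + 1 := ⟨sc B J D - m - 1, by omega⟩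
      rw [hn]
      set k := sc B J D with hk
      have hZ := L.Z_rec hLow hmJ hBm v
      have hNr := L.N_rec hLow hmJ hBm v
      have hsplit := L.ball_split hx hm hkJ hBk
      have hcm := L.cross_mass_ball ha hax hxX hc0 zero_le_one
        (by have : 0 < a * c0 := mul_pos ha hc0
            linarith) hD hm
      simp only [one_pow, mul_one] at hcm
      rw [← hk, hn] at hcm
      rw [← hv] at hsplit hcm
      set Sup := ∑ l ∈ up B D m, v l * Zf v (int B J l) with hSup
      set Scr := ∑ l ∈ cr B D m, v l * Zf v (int B J l) with hScr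
      set Slow := ∑ l ∈ (up B D m).filter (· ∈ B k), v l * Zf v (int B J l) with hSlow
      have hsplit' : Zf v (B k) ≤ Zf v (B m) + Slow + Scr := hsplit
      have hcm' : Scr ≤ kap X C2 a c0 (n + 1) * Zf v (B k) := hcm
      have hterm : ∀ l ∈ up B D m,
          gcl (n + 1) * (v l * Zf v (int B J l))
            + (if l ∈ B k then (gcl n - gcl (n + 1)) * (v l * Zf v (int B J l)) else 0)
          ≤ v l * Zf v (int B J l \ cr B (int B J l) m) := by
        intro l hl
        have hlD := (mem_up.1 hl).1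
        have hdom : Dom B J (int B J l) := Or.inr ⟨l, hLow.1 hlD, rfl⟩
        have hms := L.sc_up hmJ hl
        have hih := ih _ (hN ▸ L.card_int_lt hLow hlD) (int B J l) rfl hdom hms
        have hsc : sc B J (int B J l) ≤ k := L.sc_mono (L.int_sub hLow hlD)
        have hv0 : 0 ≤ v l := L.vnn hx l
        have hZi : 0 ≤ Zf v (int B J l) := (L.Zpos hx _).le
        have hih' : v l * (gcl (sc B J (int B J l) - m) * Zf v (int B J l))
            ≤ v l * Zf v (int B J l \ cr B (int B J l) m) := mul_le_mul_of_nonneg_left hih hv0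
        refine le_trans ?_ hih'
        have hvz : 0 ≤ v l * Zf v (int B J l) := mul_nonneg hv0 hZi
        split_ifs with hlk
        · have hlt := L.sc_int_lt hkJ hlk
          have hg : gcl n ≤ gcl (sc B J (int B J l) - m) := hanti (by omega)
          nlinarith [mul_le_mul_of_nonneg_right hg hvz]
        · have hg : gcl (n + 1) ≤ gcl (sc B J (int B J l) - m) := hanti (by omega)
          nlinarith [mul_le_mul_of_nonneg_right hg hvz]
      have hsum := Finset.sum_le_sum hterm
      rw [Finset.sum_add_distrib, ← Finset.mul_sum, ← Finset.sum_filter, ← Finset.mul_sum] at hsum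
      have hsum' : gcl (n + 1) * Sup + (gcl n - gcl (n + 1)) * Slow
          ≤ ∑ l ∈ up B D m, v l * Zf v (int B J l \ cr B (int B J l) m) := hsum
      rw [hNr, hZ]
      have hZm : 0 ≤ Zf v (B m) := (L.Zpos hx _).le
      have hZk : 0 ≤ Zf v (B k) := (L.Zpos hx _).le
      have h3 := g3 n (by omega)
      have h4 := g2 n
      have h5 := g4 n
      have h6 := g5 (n + 1)
      have h7 := g5 n
      -- (g n - g (n+1)) (Z_k - Scr) ≥ g (n+1) Scr
      have h8 : gcl (n + 1) * Zf v (B k) ≤ gcl n * (Zf v (B k) - Scr) := by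
        calc gcl (n + 1) * Zf v (B k) ≤ gcl n * (1 - kap X C2 a c0 (n + 1)) * Zf v (B k) :=
              mul_le_mul_of_nonneg_right h3 hZk
          _ = gcl n * (Zf v (B k) - kap X C2 a c0 (n + 1) * Zf v (B k)) := by ring
          _ ≤ gcl n * (Zf v (B k) - Scr) := mul_le_mul_of_nonneg_left (by linarith) h7
      have h9 : (gcl n - gcl (n + 1)) * (Zf v (B k) - Scr) ≤ (gcl n - gcl (n + 1)) * (Zf v (B m) + Slow) :=
        mul_le_mul_of_nonneg_left (by linarith) (by linarith)
      have h10 : (gcl n - gcl (n + 1)) * Zf v (B m) ≤ (1 - gcl (n + 1)) * Zf v (B m) :=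
        mul_le_mul_of_nonneg_right (by linarith) hZm
      nlinarith
    · -- small difference: direct
      have h1 : D ⊆ (D \ cr B D m) ∪ cr B D m := by
        rw [sdiff_union_of_subset L.cr_sub]
      have h2 := Zf_le_of_subset v (L.vnn hx) h1
      have h3 := L.cr_weight hx hxX hc0 hD hm
      have h4 := g1 _ hcase
      have hN0 : 0 < Zf v (D \ cr B D m) := L.Zpos hx _
      calc gcl (sc B J D - m) * Zf v D
          ≤ Real.exp (-(X * C2 * (((sc B J D - m : ℕ) : ℝ) + 1))) * Zf v D :=
            mul_le_mul_of_nonneg_right h4 (L.Zpos hx _).le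
        _ ≤ Real.exp (-(X * C2 * (((sc B J D - m : ℕ) : ℝ) + 1)))
              * (Zf v (D \ cr B D m) * Real.exp (∑ l ∈ cr B D m, v l)) :=
            mul_le_mul_of_nonneg_left h2 (Real.exp_pos _).le
        _ ≤ Real.exp (-(X * C2 * (((sc B J D - m : ℕ) : ℝ) + 1)))
              * (Zf v (D \ cr B D m) * Real.exp (X * C2 * (((sc B J D - m : ℕ) : ℝ) + 1))) := by
            refine mul_le_mul_of_nonneg_left (mul_le_mul_of_nonneg_left ?_ hN0.le) (Real.exp_pos _).le
            exact Real.exp_le_exp.2 h3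
        _ = Zf v (D \ cr B D m) := by
            rw [mul_comm (Zf v (D \ cr B D m)), ← mul_assoc, ← Real.exp_add]
            simp

/-- the moment functional -/
noncomputable def _root_.Pool.Agent.ZF.Nu (v : P → ℝ) (B : ℕ → Finset P) (J : ℕ) (g : ℝ) (m : ℕ)
    (D : Finset P) : ℝ :=
  ∑ l ∈ cr B D m, v l * Zf v (int B J l) * g ^ (m - sc B J (int B J l))
    * Zf v ((D \ cr B D m).filter (l < ·))

theorem Nu_rec {D : Finset P} (hD : Low B J D) {m : ℕ} (hmJ : m ≤ J) (v : P → ℝ) (g : ℝ) :
    Nu v B J g m D = ∑ l ∈ cr B D m, v l * Zf v (int B J l) * g ^ (m - sc B J (int B J l))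
      + ∑ c ∈ up B D m, v c * Nu v B J g m (int B J c) := by
  have h1 : ∀ l ∈ cr B D m, Zf v ((D \ cr B D m).filter (l < ·))
      = 1 + ∑ c ∈ (up B D m).filter (l < ·), v c * Zf v ((int B J c \ cr B (int B J c) m).filter (l < ·)) := by
    intro l hl
    have hl' := mem_cr.1 hl
    have hset : (D \ cr B D m).filter (l < ·) = (up B D m).filter (l < ·) := by
      ext c
      simp only [mem_filter, mem_sdiff]
      constructor
      · rintro ⟨⟨hc, hcc⟩, hlc⟩
        refine ⟨mem_up.2 ⟨hc, ?_, ?_⟩, hlc⟩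
        · intro hcm
          exact hl'.2.1 (L.low m hmJ c hcm l (hD.1 hl'.1) hlc)
        · by_contra hcon
          refine hcc (mem_cr.2 ⟨hc, ?_, hcon⟩)
          intro hcm
          exact hl'.2.1 (L.low m hmJ c hcm l (hD.1 hl'.1) hlc)
      · rintro ⟨hc, hlc⟩
        have := mem_up.1 hc
        exact ⟨⟨this.1, fun h => (mem_cr.1 h).2.2 this.2.2⟩, hlc⟩
    rw [hset, Zf_rec]
    congr 1
    refine Finset.sum_congr rfl fun c hc => ?_
    congr 2
    rw [mem_filter] at hc
    have hc' := mem_up.1 hc.1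
    ext e
    simp only [mem_filter, mem_sdiff, mem_up, mem_cr]
    constructor
    · rintro ⟨⟨⟨he1, he2, he3⟩, hle⟩, hec⟩
      refine ⟨⟨?_, ?_⟩, hle⟩
      · simp only [int, mem_filter]
        exact ⟨hD.1 he1, hec⟩
      · rintro ⟨_, _, h3⟩
        exact h3 he3
    · rintro ⟨⟨he1, he2⟩, hle⟩
      simp only [int, mem_filter] at he1
      have heD : e ∈ D := hD.2 c hc'.1 e he1.1 he1.2
      have hem : e ∉ B m := fun hem => hl'.2.1 (L.low m hmJ e hem l (hD.1 hl'.1) hle)
      refine ⟨⟨⟨heD, hem, ?_⟩, hle⟩, he1.2⟩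
      by_contra hcon
      refine he2 ⟨?_, hem, hcon⟩
      simp only [int, mem_filter]
      exact he1
  have h2 : ∀ c ∈ up B D m, cr B (int B J c) m = (cr B D m).filter (· < c) := by
    intro c hc
    have hc' := mem_up.1 hc
    ext e
    simp only [mem_filter, mem_cr]
    constructor
    · rintro ⟨he1, he2, he3⟩
      simp only [int, mem_filter] at he1
      exact ⟨⟨hD.2 c hc'.1 e he1.1 he1.2, he2, he3⟩, he1.2⟩
    · rintro ⟨⟨he1, he2, he3⟩, hec⟩
      refine ⟨?_, he2, he3⟩
      simp only [int, mem_filter]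
      exact ⟨hD.1 he1, hec⟩
  rw [Nu]
  have h3 : ∀ l ∈ cr B D m, v l * Zf v (int B J l) * g ^ (m - sc B J (int B J l))
      * Zf v ((D \ cr B D m).filter (l < ·))
      = v l * Zf v (int B J l) * g ^ (m - sc B J (int B J l))
        + ∑ c ∈ up B D m, (if l < c then v c * (v l * Zf v (int B J l)
            * g ^ (m - sc B J (int B J l))
              * Zf v ((int B J c \ cr B (int B J c) m).filter (l < ·))) else 0) := by
    intro l hl
    rw [h1 l hl, mul_add, mul_one, Finset.mul_sum, ← Finset.sum_filter]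
    congr 1
    refine Finset.sum_congr rfl fun c _ => ?_
    ring
  rw [Finset.sum_congr rfl h3, Finset.sum_add_distrib, Finset.sum_comm]
  congr 1
  refine Finset.sum_congr rfl fun c hc => ?_
  rw [← Finset.sum_filter, ← Finset.mul_sum, Nu, h2 c hc]

/-- **exponential moment bound** -/
theorem moment_bound (ha : 0 < a) (hax : a ≤ x) (hxX : x ≤ X) (hc0 : 0 < c0)
    {g : ℝ} (hg0 : 0 ≤ g) (hg : g ≤ 1 + a * c0) (m : ℕ) :
    ∀ (N : ℕ) (D : Finset P), D.card = N → Dom B J D → m ≤ sc B J D →
      Nu (fun l => x * w l) B J g m D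
        ≤ (∑ i ∈ range (sc B J D - m + 1), kap X C2 a c0 i) * Zf (fun l => x * w l) D := by
  have hx : 0 ≤ x := ha.le.trans hax
  have hX : 0 ≤ X := hx.trans hxX
  have hC2 := L.hC2
  have hq : 0 < 1 + a * c0 := by positivity
  have hkap : ∀ n, 0 ≤ kap X C2 a c0 n := fun n => by rw [kap]; positivity
  intro N
  induction N using Nat.strong_induction_on with
  | _ N ih =>
    intro D hN hD hm
    have hkJ : sc B J D ≤ J := L.sc_le D
    have hmJ : m ≤ J := hm.trans hkJ
    have hLow := L.low_of_dom hD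
    have hBk : B (sc B J D) ⊆ D := L.sc_spec D
    have hBm : B m ⊆ D := (L.mono' hm hkJ).trans hBk
    set v : P → ℝ := fun l => x * w l with hv
    set k := sc B J D with hk
    set n := k - m with hn
    have hZ := L.Z_rec hLow hmJ hBm v
    have hNr := L.Nu_rec hLow hmJ v g
    have hsplit := L.ball_split hx hm hkJ hBk
    have hcm := L.cross_mass_ball ha hax hxX hc0 hg0 hg hD hm
    rw [← hk, ← hn] at hcm
    rw [← hv] at hsplit hcm
    set Sup := ∑ l ∈ up B D m, v l * Zf v (int B J l) with hSup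
    set Scr := ∑ l ∈ cr B D m, v l * Zf v (int B J l) with hScr
    set Slow := ∑ l ∈ (up B D m).filter (· ∈ B k), v l * Zf v (int B J l) with hSlow
    have hsplit' : Zf v (B k) ≤ Zf v (B m) + Slow + Scr := hsplit
    set S : ℕ → ℝ := fun n => ∑ i ∈ range (n + 1), kap X C2 a c0 i with hS
    have hSmono : Monotone S := by
      refine monotone_nat_of_le_succ fun n => ?_
      simp only [hS]
      rw [Finset.sum_range_succ _ (n + 1)]
      linarith [hkap (n + 1)]
    have hSn : kap X C2 a c0 n ≤ S n := by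
      simp only [hS]
      exact Finset.single_le_sum (f := kap X C2 a c0) (fun i _ => hkap i) (mem_range.2 (by omega))
    have hterm : ∀ l ∈ up B D m,
        v l * Nu v B J g m (int B J l) ≤ S n * (v l * Zf v (int B J l))
          - (if l ∈ B k then kap X C2 a c0 n * (v l * Zf v (int B J l)) else 0) := by
      intro l hl
      have hlD := (mem_up.1 hl).1
      have hdom : Dom B J (int B J l) := Or.inr ⟨l, hLow.1 hlD, rfl⟩
      have hms := L.sc_up hmJ hl
      have hih := ih _ (hN ▸ L.card_int_lt hLow hlD) (int B J l) rfl hdom hms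
      have hsc : sc B J (int B J l) ≤ k := L.sc_mono (L.int_sub hLow hlD)
      have hv0 : 0 ≤ v l := L.vnn hx l
      have hZi : 0 ≤ Zf v (int B J l) := (L.Zpos hx _).le
      have hih' : v l * Nu v B J g m (int B J l)
          ≤ v l * (S (sc B J (int B J l) - m) * Zf v (int B J l)) :=
        mul_le_mul_of_nonneg_left hih hv0
      refine hih'.trans ?_
      have hvz : 0 ≤ v l * Zf v (int B J l) := mul_nonneg hv0 hZi
      split_ifs with hlk
      · have hlt := L.sc_int_lt hkJ hlk
        have hg : S (sc B J (int B J l) - m) ≤ S n - kap X C2 a c0 n := by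
          have h1 : S n = S (n - 1) + kap X C2 a c0 n := by
            simp only [hS]
            have e : n - 1 + 1 = n := by omega
            rw [e, Finset.sum_range_succ]
          have h2 : S (sc B J (int B J l) - m) ≤ S (n - 1) := hSmono (by omega)
          linarith
        nlinarith [mul_le_mul_of_nonneg_right hg hvz]
      · have hg : S (sc B J (int B J l) - m) ≤ S n := hSmono (by omega)
        nlinarith [mul_le_mul_of_nonneg_right hg hvz]
    have hsum := Finset.sum_le_sum hterm
    rw [Finset.sum_sub_distrib, ← Finset.mul_sum, ← Finset.sum_filter, ← Finset.mul_sum] at hsum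
    have hsum' : ∑ l ∈ up B D m, v l * Nu v B J g m (int B J l)
        ≤ S n * Sup - kap X C2 a c0 n * Slow := hsum
    have hgoal : Nu v B J g m D ≤ S n * Zf v D := by
      rw [hNr]
      have hcr0 : 0 ≤ Scr := Finset.sum_nonneg fun l _ => mul_nonneg (L.vnn hx l) (L.Zpos hx _).le
      have hZm : 0 ≤ Zf v (B m) := (L.Zpos hx _).le
      have hkn := hkap n
      have e1 : Zf v D = Zf v (B m) + Sup + Scr := hZ
      have e2 : kap X C2 a c0 n * Zf v (B k) ≤ kap X C2 a c0 n * (Zf v (B m) + Slow + Scr) :=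
        mul_le_mul_of_nonneg_left hsplit' hkn
      have e3 : (kap X C2 a c0 n) * (Zf v (B m) + Scr) ≤ S n * (Zf v (B m) + Scr) :=
        mul_le_mul_of_nonneg_right hSn (by linarith)
      rw [e1]
      nlinarith
    exact hgoal

end real

end Lev2

end Pool.Agent.ZF
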