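import Pool.Agent.ZF.Final

/-!
# Zero-freeness

`zero_free`: for a partially ordered set of loops with levels satisfying (E1) (the loops
crossing one level weigh at most `C0`) and (E2) (the loops in one shell weigh at least `c0`),
the chain sum `Z_z(D) = ∑ over chains C ⊆ D of ∏ (z * w l)` has no zero for `z` within `t` of
`[a, X]`, with `t` depending only on `a, X, C0, c0`, and `|log |Z_z(D)|| ≤ K (J + 1)`.
-/

namespace Pool.Agent.ZF

open Finset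
open scoped Classical

section
variable {Δ Ω : Type*} {M E0 η0 s ε : ℝ} (S : Sys Δ Ω M E0 η0 s)

theorem Sys.bounds (hM : 1 ≤ M) (hE : 1 ≤ E0) (hη0 : 0 < η0)
    (hη1 : η0 ≤ 1) (hε : ε * (1000 * M ^ 2 * E0) = η0) (hs : 0 ≤ s) (hs1 : s ≤ ε ^ 3)
    (D : Δ) (hD : D ∈ S.adm) :
    S.r D ≠ 0 ∧ ‖S.r D‖ ≤ Real.exp ((S.k D : ℝ) + 1) ∧ Real.exp (-((S.k D : ℝ) + 1)) ≤ ‖S.r D‖ := by
  obtain ⟨hε0, hε1, h4, h5, h6, h7, h8⟩ := consts hM hE hη0 hη1 hε hs hs1
  have hG := good_all S hM hE hη0 hη1 hε hs hs1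
  obtain ⟨hB0, hk0⟩ := S.hB 0 (Nat.zero_le _)
  have hkJ := S.hkJ D hD
  obtain ⟨hBk, hkk⟩ := S.hB (S.k D) hkJ
  set k : ℝ := (S.k D : ℝ) with hk
  have hk0' : 0 ≤ k := by positivity
  have hs3 : s ≤ 1 / 1000 := by linarith
  have h0 : ‖S.r (S.Bd 0) - 1‖ ≤ 2 * s := by
    have h := S.hcr _ hB0
    rw [hk0] at h
    have e : s * (((0 : ℕ) : ℝ) + 1) = s := by push_cast; ring
    rw [e] at h
    have := exp_le_of_small hs (by linarith)
    linarith
  have hup0 : ‖S.r (S.Bd 0)‖ ≤ 1 + 2 * s := by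
    have h1 : ‖S.r (S.Bd 0)‖ ≤ ‖(1 : ℂ)‖ + ‖S.r (S.Bd 0) - 1‖ := by
      have := norm_add_le (1 : ℂ) (S.r (S.Bd 0) - 1)
      simpa using this
    rw [norm_one] at h1
    linarith
  have hlow0 : 1 - 2 * s ≤ ‖S.r (S.Bd 0)‖ := by
    have h1 : ‖(1 : ℂ)‖ ≤ ‖S.r (S.Bd 0)‖ + ‖S.r (S.Bd 0) - 1‖ := by
      have := norm_sub_le (S.r (S.Bd 0)) (S.r (S.Bd 0) - 1)
      simpa using this
    rw [norm_one] at h1
    linarith
  -- upper bound
  obtain ⟨_, hu⟩ := hG 0 D hD (S.Bd 0) hB0 hk0 (Nat.zero_le _)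
  have hu2 : ‖S.r D‖ ≤ (ε + Real.exp (ε ^ 2 * k)) * (1 + 2 * s) := by
    have h1 : ‖S.r D‖ ≤ ‖S.r (S.Bd 0)‖ + ‖S.r D - S.r (S.Bd 0)‖ := by
      have := norm_add_le (S.r (S.Bd 0)) (S.r D - S.r (S.Bd 0))
      simpa using this
    rw [Nat.cast_zero, sub_zero] at hu
    have h2 : ‖S.r D‖ ≤ (ε + Real.exp (ε ^ 2 * k)) * ‖S.r (S.Bd 0)‖ := by
      rw [← hk] at hu
      linarith
    exact h2.trans (mul_le_mul_of_nonneg_left hup0 (by positivity))
  -- lower bound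
  obtain ⟨_, hl⟩ := hG (S.k D) D hD (S.Bd (S.k D)) hBk hkk le_rfl
  rw [sub_self, mul_zero, Real.exp_zero, sub_self, add_zero] at hl
  have hl2 : (1 - ε) * ‖S.r (S.Bd (S.k D))‖ ≤ ‖S.r D‖ := by
    have h1 : ‖S.r (S.Bd (S.k D))‖ ≤ ‖S.r D‖ + ‖S.r D - S.r (S.Bd (S.k D))‖ := by
      have := norm_sub_le (S.r D) (S.r D - S.r (S.Bd (S.k D)))
      simpa using this
    linarith
  have hb := ball_bound S hε0 hε1 hkJ (fun i _ => hG i) (S.k D) 0 (by omega)
  rw [← hk] at hb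
  have hl3 : (1 - ε) * (1 - 2 * s) ≤ Real.exp (4 * ε * k) * ‖S.r D‖ := by
    calc (1 - ε) * (1 - 2 * s) ≤ (1 - ε) * (Real.exp (4 * ε * k) * ‖S.r (S.Bd (S.k D))‖) :=
          mul_le_mul_of_nonneg_left (hlow0.trans hb) (by linarith)
      _ = Real.exp (4 * ε * k) * ((1 - ε) * ‖S.r (S.Bd (S.k D))‖) := by ring
      _ ≤ _ := mul_le_mul_of_nonneg_left hl2 (Real.exp_pos _).le
  have h9 : Real.exp (4 * ε * k) ≤ Real.exp k := by
    refine Real.exp_le_exp.2 ?_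
    nlinarith
  have h10 : Real.exp (ε ^ 2 * k) ≤ Real.exp k := by
    refine Real.exp_le_exp.2 ?_
    nlinarith
  have h11 : 1 ≤ Real.exp k := Real.one_le_exp hk0'
  have he1 : 2 ≤ Real.exp 1 := by linarith [Real.add_one_le_exp (1 : ℝ)]
  have hpos : 0 < ‖S.r D‖ := by
    have h12 : 0 < (1 - ε) * (1 - 2 * s) := by
      apply mul_pos <;> linarith
    by_contra hcon
    push Not at hcon
    have h13 : ‖S.r D‖ = 0 := le_antisymm hcon (norm_nonneg _)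
    rw [h13, mul_zero] at hl3
    linarith
  refine ⟨norm_pos_iff.1 hpos, ?_, ?_⟩
  · rw [Real.exp_add]
    calc ‖S.r D‖ ≤ (ε + Real.exp (ε ^ 2 * k)) * (1 + 2 * s) := hu2
      _ ≤ (ε + Real.exp k) * (1 + 2 * s) := mul_le_mul_of_nonneg_right (by linarith) (by linarith)
      _ ≤ Real.exp k * 2 := by nlinarith
      _ ≤ _ := mul_le_mul_of_nonneg_left he1 (Real.exp_pos _).le
  · rw [Real.exp_neg, inv_le_comm₀ (Real.exp_pos _) hpos, Real.exp_add]
    rw [← one_div, div_le_iff₀ hpos]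
    have h12 : (1 : ℝ) / 2 ≤ (1 - ε) * (1 - 2 * s) := by nlinarith
    have h13 : (1 : ℝ) / 2 ≤ Real.exp k * ‖S.r D‖ :=
      h12.trans (hl3.trans (mul_le_mul_of_nonneg_right h9 (norm_nonneg _)))
    calc (1 : ℝ) = 2 * (1 / 2) := by norm_num
      _ ≤ Real.exp 1 * (Real.exp k * ‖S.r D‖) := mul_le_mul he1 h13 (by norm_num) (Real.exp_pos _).le
      _ = _ := by ring

end

/-- **Zero-freeness near the positive axis, uniformly in the number of levels.** -/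
theorem zero_free (a X C0 c0 : ℝ) (ha : 0 < a) (haX : a ≤ X) (hC0 : 0 ≤ C0) (hc0 : 0 < c0) :
    ∃ t > 0, ∀ (P : Type*) [PartialOrder P] (J : ℕ) (B : ℕ → Finset P) (w : P → ℝ),
      Lev J B w C0 c0 → ∀ x : ℝ, a ≤ x → x ≤ X → ∀ z : ℂ, ‖z - x‖ ≤ t →
      ∀ D : Finset P, Low B J D →
        Zf (fun l => z * (w l : ℂ)) D ≠ 0 ∧
        ‖Zf (fun l => z * (w l : ℂ)) D‖ ≤ Real.exp ((X * C0 + 1) * ((J : ℝ) + 1)) ∧
        Real.exp (-((J : ℝ) + 1)) ≤ ‖Zf (fun l => z * (w l : ℂ)) D‖ := by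
  set q : ℝ := 1 + a * c0 with hq
  have hq1 : 1 < q := by
    have : 0 < a * c0 := mul_pos ha hc0
    linarith
  have hlogq : 0 < Real.log q := Real.log_pos hq1
  set η0 : ℝ := min 1 (Real.log q / 4) with hη0
  have hη0pos : 0 < η0 := lt_min one_pos (by positivity)
  have hη01 : η0 ≤ 1 := min_le_left _ _
  have hη0q : η0 ≤ Real.log q / 4 := min_le_right _ _
  set θ : ℝ := Real.exp (2 * η0) / q with hθ
  have hq0 : 0 < q := by linarith
  have hθ0 : 0 ≤ θ := by positivity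
  have hθ1 : θ < 1 := by
    rw [hθ, div_lt_one hq0]
    calc Real.exp (2 * η0) < Real.exp (Real.log q) := Real.exp_lt_exp.2 (by linarith)
      _ = q := Real.exp_log hq0
  have hη : Real.exp (2 * η0) = θ * (1 + a * c0) := by
    rw [hθ, ← hq]; field_simp
  set M : ℝ := Real.exp (X * C0) with hMdef
  have hX : 0 < X := ha.trans_le haX
  have hM : 1 ≤ M := Real.one_le_exp (by positivity)
  set E0 : ℝ := 1 + X * C0 * Real.exp (X * C0) * (1 / (1 - θ)) with hE0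
  have hE : 1 ≤ E0 := by
    have : 0 < 1 - θ := by linarith
    have h1 : 0 ≤ X * C0 * Real.exp (X * C0) * (1 / (1 - θ)) := by positivity
    linarith
  set ε : ℝ := η0 / (1000 * M ^ 2 * E0) with hεdef
  have hXpos : 0 < 1000 * M ^ 2 * E0 := by positivity
  have hε : ε * (1000 * M ^ 2 * E0) = η0 := by
    rw [hεdef]; field_simp
  have hε0 : 0 < ε := by positivity
  set t : ℝ := ε ^ 3 / (C0 + 1 / a) with htdef
  have hden : 0 < C0 + 1 / a := by positivity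
  have ht0 : 0 < t := by positivity
  have ht1 : t * C0 ≤ ε ^ 3 := by
    have e : t * (C0 + 1 / a) = ε ^ 3 := by rw [htdef]; field_simp
    have h1 : 0 ≤ t * (1 / a) := by positivity
    nlinarith
  have ht2 : t / a ≤ ε ^ 3 := by
    have e : t * (C0 + 1 / a) = ε ^ 3 := by rw [htdef]; field_simp
    have h1 : 0 ≤ t * C0 := by positivity
    have h2 : t / a = t * (1 / a) := by ring
    rw [h2]
    nlinarith
  refine ⟨t, ht0, ?_⟩
  intro P _ J B w L x hax hxX z hz D hD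
  have hx : 0 < x := ha.trans_le hax
  have key := Sys.bounds (L.sys hc0 ha hax hxX hθ0 hθ1 hη hη0pos ht0.le hz ht1 ht2)
    hM hE hη0pos hη01 hε (by positivity) le_rfl D hD
  obtain ⟨k1, k2, k3⟩ := key
  have hk : ((L.sys hc0 ha hax hxX hθ0 hθ1 hη hη0pos ht0.le hz ht1 ht2).k D : ℝ) ≤ J := by
    exact_mod_cast L.sc_le D
  have hr : (L.sys hc0 ha hax hxX hθ0 hθ1 hη hη0pos ht0.le hz ht1 ht2).r D
      = Zf (fun l => z * (w l : ℂ)) D / ((Zf (fun l => x * w l) D : ℝ) : ℂ) := rfl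
  rw [hr] at k1 k2 k3
  have hZ : 1 ≤ Zf (fun l => x * w l) D := one_le_Zf _ (L.vnn hx.le) _
  have hZpos : 0 < Zf (fun l => x * w l) D := by linarith
  have hZup : Zf (fun l => x * w l) D ≤ Real.exp (X * C0 * ((J : ℝ) + 1)) := by
    have h1 := Zf_union_le (fun l => x * w l) (L.vnn hx.le) ∅ D
    rw [empty_union, Zf_empty, one_mul] at h1
    refine h1.trans (Real.exp_le_exp.2 ?_)
    have h2 := L.cross_sum hD (j := 0) (Nat.zero_le _)
    rw [L.B0, sdiff_empty, Nat.cast_zero, sub_zero] at h2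
    have h3 : (sc B J D : ℝ) ≤ J := by exact_mod_cast L.sc_le D
    rw [← Finset.mul_sum]
    have h4 : ∑ l ∈ D, w l ≤ C0 * ((J : ℝ) + 1) :=
      h2.trans (mul_le_mul_of_nonneg_left (by linarith) hC0)
    calc x * ∑ l ∈ D, w l ≤ X * (C0 * ((J : ℝ) + 1)) :=
          mul_le_mul hxX h4 (Finset.sum_nonneg fun l _ => L.w0 l) hX.le
      _ = _ := by ring
  rw [norm_div, Complex.norm_real, Real.norm_eq_abs, abs_of_pos hZpos] at k2 k3
  refine ⟨fun h => k1 (by rw [h, zero_div]), ?_, ?_⟩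
  · rw [div_le_iff₀ hZpos] at k2
    refine k2.trans ?_
    calc Real.exp (((L.sys hc0 ha hax hxX hθ0 hθ1 hη hη0pos ht0.le hz ht1 ht2).k D : ℝ) + 1)
          * Zf (fun l => x * w l) D
        ≤ Real.exp ((J : ℝ) + 1) * Real.exp (X * C0 * ((J : ℝ) + 1)) :=
          mul_le_mul (Real.exp_le_exp.2 (by linarith)) hZup hZpos.le (Real.exp_pos _).le
      _ = _ := by rw [← Real.exp_add]; congr 1; ring
  · rw [le_div_iff₀ hZpos] at k3
    refine le_trans ?_ k3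
    have h1 : Real.exp (-((J : ℝ) + 1))
        ≤ Real.exp (-(((L.sys hc0 ha hax hxX hθ0 hθ1 hη hη0pos ht0.le hz ht1 ht2).k D : ℝ) + 1)) :=
      Real.exp_le_exp.2 (by linarith)
    have h2 : 0 < Real.exp (-(((L.sys hc0 ha hax hxX hθ0 hθ1 hη hη0pos ht0.le hz ht1 ht2).k D : ℝ) + 1)) :=
      Real.exp_pos _
    nlinarith

end Pool.Agent.ZF
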